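import Pool.Agent.Lib.MP_ca1f03_al.Check

/-! Certificates for the chain of relations. -/

namespace Pool.Agent.Lib.MP_ca1f03_al

def r0 : List Tm :=
  [⟨1,[2],[4],[6],[]⟩,
   ⟨(-1),[0,2],[4],[6],[]⟩,
   ⟨1,[0],[2,4],[6],[]⟩,
   ⟨(-1),[0],[2],[4,6],[4]⟩,
   ⟨1,[0],[2],[4],[4]⟩]

def r1 : List Tm :=
  [⟨1,[0],[2],[3],[]⟩,
   ⟨1,[0],[2],[2],[]⟩]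

def r2 : List Tm :=
  [⟨1,[0],[0],[2],[1]⟩,
   ⟨1,[0],[1],[2],[]⟩]

def r3 : List Tm :=
  [⟨1,[3],[4],[0],[]⟩,
   ⟨1,[1],[4],[2],[]⟩]

def r4 : List Tm :=
  [⟨1,[0,2],[4],[0],[]⟩,
   ⟨1,[0],[4],[2],[]⟩,
   ⟨(-1),[3],[0],[5],[]⟩,
   ⟨(-1),[2],[0],[5],[]⟩]

def r5 : List Tm :=
  [⟨1,[0],[2],[4,4],[]⟩,
   ⟨1,[2],[0],[4,4],[]⟩,
   ⟨(-2),[0],[2],[4],[]⟩,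
   ⟨(-2),[2],[0],[4],[]⟩]

def r6 : List Tm :=
  [⟨1,[0,2],[4],[4],[]⟩,
   ⟨(-1),[0],[4],[4,2],[]⟩,
   ⟨(-1),[2],[4],[4],[]⟩,
   ⟨1,[0],[4],[2],[]⟩]

def r7 : List Tm :=
  [⟨1,[0],[2],[4],[1]⟩,
   ⟨(-1),[0],[2,1],[4],[]⟩,
   ⟨1,[0],[1],[4,2],[]⟩,
   ⟨1,[1],[2],[4],[]⟩,
   ⟨1,[0],[2],[4],[]⟩,
   ⟨(-1),[0],[1],[2],[]⟩]

def r8 : List Tm :=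
  [⟨1,[0],[2],[4],[4]⟩,
   ⟨(-1),[0],[2,4],[4],[]⟩,
   ⟨1,[0],[4],[4,2],[]⟩,
   ⟨(-1),[0],[4],[2],[]⟩,
   ⟨(-1),[2],[0],[5],[]⟩,
   ⟨(-1),[2],[0],[4],[]⟩]

def r9 : List Tm :=
  [⟨1,[0,2],[1],[4],[]⟩,
   ⟨(-1),[0],[1],[4,2],[]⟩,
   ⟨(-1),[1],[2],[4],[]⟩,
   ⟨(-1),[0],[2],[4],[]⟩,
   ⟨(-1),[2],[1],[4],[]⟩,
   ⟨1,[0],[1],[2],[]⟩]

def r10 : List Tm :=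
  [⟨1,[0],[0],[2,4],[]⟩,
   ⟨1,[0],[0],[4,2],[]⟩,
   ⟨(-2),[0],[0],[4],[]⟩,
   ⟨(-2),[0],[0],[2],[]⟩]

def r11 : List Tm :=
  [⟨1,[0],[5],[2],[]⟩,
   ⟨1,[0],[4],[2],[5]⟩]

def r12 : List Tm :=
  [⟨1,[0],[4],[2],[]⟩,
   ⟨1,[7],[4],[2],[]⟩,
   ⟨1,[0,4],[3],[6],[]⟩,
   ⟨1,[7,4],[3],[1],[]⟩,
   ⟨(-1),[0],[4],[2,6],[]⟩,
   ⟨(-1),[7],[4],[2,1],[]⟩,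
   ⟨1,[4],[2],[1],[3]⟩,
   ⟨1,[4],[2],[6],[3]⟩]

def r13 : List Tm :=
  [⟨1,[1],[6],[3,4],[]⟩,
   ⟨1,[1],[6],[3,5],[]⟩,
   ⟨(-1),[4,1],[6],[3],[]⟩,
   ⟨(-1),[5,1],[6],[3],[]⟩,
   ⟨1,[2],[1,6],[4],[]⟩,
   ⟨1,[5],[1,6],[3],[]⟩,
   ⟨(-1),[6],[3],[4],[2]⟩,
   ⟨(-1),[6],[3],[5],[2]⟩,
   ⟨1,[4],[1],[6],[6]⟩,
   ⟨1,[5],[1],[6],[6]⟩]

def r14 : List Tm :=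
  [⟨(-1),[7],[3],[0,4],[]⟩,
   ⟨(-1),[7],[3],[0,5],[]⟩,
   ⟨1,[4,0],[3],[6],[]⟩,
   ⟨1,[5,0],[3],[6],[]⟩,
   ⟨1,[0],[7],[2,4],[]⟩,
   ⟨1,[0],[7],[2,5],[]⟩,
   ⟨1,[4,1],[7],[2],[]⟩,
   ⟨1,[5,1],[7],[2],[]⟩,
   ⟨(-1),[7],[1],[4],[0]⟩,
   ⟨(-1),[7],[1],[5],[0]⟩,
   ⟨1,[3],[6],[4],[7]⟩,
   ⟨1,[3],[6],[5],[7]⟩]

def r15 : List Tm :=
  [⟨1,[2],[4],[6],[5]⟩,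
   ⟨1,[0,2],[5],[6],[]⟩,
   ⟨1,[0],[2,4],[6],[5]⟩,
   ⟨(-1),[0],[2],[4,6],[]⟩,
   ⟨1,[0],[2],[4],[]⟩]

def r16 : List Tm :=
  [⟨(-1),[2],[5],[6],[]⟩,
   ⟨1,[0,2],[5],[6],[]⟩,
   ⟨(-1),[0],[5,3],[6],[2]⟩,
   ⟨(-1),[0],[2],[4,6],[]⟩,
   ⟨1,[0],[2],[4],[]⟩]

def r17 : List Tm :=
  [⟨(-1),[2],[5],[6],[]⟩,
   ⟨1,[0,2],[5],[6],[]⟩,
   ⟨1,[0],[2,4],[6],[5]⟩,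
   ⟨(-1),[0],[2],[4,6],[]⟩,
   ⟨1,[0],[2],[4],[]⟩]

def r18 : List Tm :=
  [⟨(-1),[2],[5],[6],[3]⟩,
   ⟨1,[0,2],[5],[6],[3]⟩,
   ⟨(-1),[0],[5,3],[6],[]⟩,
   ⟨1,[0],[3],[4,6],[]⟩,
   ⟨(-1),[0],[3],[4],[]⟩]

def r19 : List Tm :=
  [⟨1,[2],[4],[6],[]⟩,
   ⟨(-1),[0,2],[4],[6],[]⟩,
   ⟨1,[0],[2,4],[6],[]⟩,
   ⟨1,[0],[3],[4,6],[2,4]⟩,
   ⟨1,[0],[2],[4],[4]⟩]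

def r20 : List Tm :=
  [⟨(-1),[2],[0],[5],[]⟩,
   ⟨(-1),[3],[0],[5],[]⟩,
   ⟨1,[0],[4],[2],[]⟩,
   ⟨1,[0],[4],[3],[]⟩]

def r21 : List Tm :=
  [⟨(-1),[4,1,6],[0],[2],[]⟩,
   ⟨1,[4,1],[6,0],[2],[]⟩,
   ⟨1,[4],[6],[0],[0]⟩,
   ⟨1,[4,2,6],[0],[2],[]⟩,
   ⟨(-1),[4],[6,0],[2],[]⟩,
   ⟨(-1),[4,2],[6],[0],[0]⟩]

def r22 : List Tm :=
  [⟨1,[6,3],[5],[0],[]⟩,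
   ⟨1,[2],[6,1],[4],[]⟩,
   ⟨(-1),[5],[6,1],[2],[]⟩,
   ⟨1,[6],[4],[0],[5]⟩,
   ⟨(-1),[2,6,3],[5],[0],[]⟩,
   ⟨(-1),[2,6],[4],[0],[5]⟩,
   ⟨1,[2],[6,3],[5],[5]⟩,
   ⟨(-1),[4],[6,3],[2],[5]⟩]

def r23 : List Tm :=
  [⟨(-2),[1],[2],[4],[]⟩,
   ⟨2,[4],[2],[0],[]⟩,
   ⟨2,[4],[5],[1],[]⟩,
   ⟨2,[4],[5],[2],[]⟩,
   ⟨1,[5],[5],[3],[]⟩,
   ⟨1,[6],[5],[3],[]⟩,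
   ⟨1,[7],[5],[3],[]⟩,
   ⟨(-1),[4],[1],[3,6],[]⟩,
   ⟨(-1),[4],[1],[3,7],[]⟩,
   ⟨(-1),[5],[1],[3,6],[]⟩,
   ⟨(-1),[5],[1],[3,7],[]⟩,
   ⟨(-1),[4],[2],[7,1],[]⟩,
   ⟨(-1),[5],[2],[6,1],[]⟩,
   ⟨(-1),[5],[2],[7,1],[]⟩,
   ⟨(-1),[6,4],[2],[0],[]⟩,
   ⟨(-1),[7,4],[2],[0],[]⟩,
   ⟨1,[1,5],[2],[6],[]⟩,
   ⟨1,[1,5],[2],[7],[]⟩,
   ⟨(-1),[0,7],[2],[4],[]⟩,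
   ⟨(-1),[1],[5],[3,6],[]⟩,
   ⟨(-1),[1],[5],[3,7],[]⟩,
   ⟨(-2),[4],[5],[1,2],[]⟩,
   ⟨2,[4,1],[5],[3],[]⟩,
   ⟨1,[1,2],[5],[6],[]⟩,
   ⟨1,[1,2],[5],[7],[]⟩,
   ⟨1,[4],[1,2],[6],[]⟩,
   ⟨1,[4],[1,2],[7],[]⟩,
   ⟨1,[5],[1,2],[6],[]⟩,
   ⟨1,[5],[1,2],[7],[]⟩,
   ⟨1,[2],[0,6],[4],[]⟩,
   ⟨1,[2],[0,6],[5],[]⟩,
   ⟨(-1),[2],[1,6],[4],[]⟩,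
   ⟨1,[4],[1,6],[3],[]⟩,
   ⟨(-1),[2],[1,7],[4],[]⟩,
   ⟨1,[4],[1,7],[3],[]⟩,
   ⟨(-1),[2],[0],[6],[1]⟩,
   ⟨(-1),[2],[0],[7],[1]⟩,
   ⟨2,[1],[3],[5],[2]⟩,
   ⟨1,[1],[3],[6],[2]⟩,
   ⟨1,[1],[3],[7],[2]⟩,
   ⟨1,[5],[3],[6],[2]⟩,
   ⟨1,[5],[3],[7],[2]⟩,
   ⟨(-1),[2],[4],[5],[5]⟩]

def r24 : List Tm :=
  [⟨1,[1],[0],[4],[]⟩,
   ⟨(-1),[1],[0],[5],[]⟩,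
   ⟨1,[1],[0],[7],[]⟩,
   ⟨1,[3],[0],[5],[]⟩,
   ⟨1,[1],[2],[5],[]⟩,
   ⟨1,[3],[2],[4],[]⟩,
   ⟨1,[3],[2],[7],[]⟩,
   ⟨1,[3],[4],[6],[]⟩,
   ⟨(-1),[7],[4],[3],[]⟩,
   ⟨(-1),[1],[0],[7,4],[]⟩,
   ⟨(-1),[4],[0],[2,7],[]⟩,
   ⟨(-1),[7],[0],[5,2],[]⟩,
   ⟨(-1),[6,3],[0],[5],[]⟩,
   ⟨1,[7,4],[0],[2],[]⟩,
   ⟨1,[1,7],[0],[5],[]⟩,
   ⟨(-1),[3],[2],[7,4],[]⟩,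
   ⟨(-1),[7],[2],[5,0],[]⟩,
   ⟨1,[7,4],[2],[0],[]⟩,
   ⟨1,[3,7],[2],[5],[]⟩,
   ⟨(-1),[1],[4],[2,7],[]⟩,
   ⟨(-1),[2],[4],[0,7],[]⟩,
   ⟨1,[7,0],[4],[2],[]⟩,
   ⟨(-1),[6,1],[4],[3],[]⟩,
   ⟨1,[7,2],[4],[0],[]⟩,
   ⟨(-1),[6,3],[4],[0],[]⟩,
   ⟨1,[1,7],[4],[2],[]⟩,
   ⟨1,[3,7],[4],[0],[]⟩,
   ⟨(-1),[0],[7],[5,2],[]⟩,
   ⟨(-1),[1],[7],[5,2],[]⟩,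
   ⟨(-1),[2],[7],[5,0],[]⟩,
   ⟨(-1),[3],[7],[5,0],[]⟩,
   ⟨1,[3],[7,1],[5],[]⟩,
   ⟨(-1),[4],[7,1],[3],[]⟩,
   ⟨1,[1],[7,3],[5],[]⟩,
   ⟨(-1),[4],[7,3],[1],[]⟩,
   ⟨1,[0],[7,4],[2],[]⟩,
   ⟨1,[1],[7,4],[2],[]⟩,
   ⟨1,[2],[7,4],[0],[]⟩,
   ⟨1,[3],[7,4],[0],[]⟩,
   ⟨(-1),[4],[3],[2],[2]⟩,
   ⟨1,[0],[5],[2],[4]⟩,
   ⟨(-1),[1],[5],[6],[4]⟩,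
   ⟨1,[2],[5],[0],[4]⟩,
   ⟨2,[7],[5],[0],[4]⟩,
   ⟨1,[7],[5],[1],[4]⟩,
   ⟨2,[7],[5],[2],[4]⟩]

def r25 : List Tm :=
  [⟨1,[0],[0],[4],[]⟩,
   ⟨2,[1],[0],[3],[]⟩,
   ⟨3,[1],[0],[5],[]⟩,
   ⟨1,[1],[0],[6],[]⟩,
   ⟨1,[2],[0],[4],[]⟩,
   ⟨1,[3],[0],[1],[]⟩,
   ⟨(-2),[3],[0],[4],[]⟩,
   ⟨(-1),[0],[5],[7],[]⟩,
   ⟨2,[1],[5],[2],[]⟩,
   ⟨(-2),[3],[5],[1],[]⟩,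
   ⟨(-1),[3],[5],[6],[]⟩,
   ⟨(-1),[6],[5],[1],[]⟩,
   ⟨2,[6],[5],[2],[]⟩,
   ⟨(-1),[7],[5],[2],[]⟩,
   ⟨(-1),[0],[6],[4],[]⟩,
   ⟨(-1),[1],[6],[4],[]⟩,
   ⟨(-1),[2],[6],[4],[]⟩,
   ⟨(-2),[1],[0],[3,5],[]⟩,
   ⟨(-1),[1],[0],[6,5],[]⟩,
   ⟨(-1),[1],[0],[2,7],[]⟩,
   ⟨(-1),[6],[0],[4,3],[]⟩,
   ⟨2,[1,3],[0],[4],[]⟩,
   ⟨1,[6,5],[0],[3],[]⟩,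
   ⟨1,[1,6],[0],[4],[]⟩,
   ⟨(-1),[1],[3],[7,0],[]⟩,
   ⟨(-1),[0],[5],[6,3],[]⟩,
   ⟨(-1),[0],[5],[3,6],[]⟩,
   ⟨1,[6],[5],[2,0],[]⟩,
   ⟨1,[6,0],[5],[3],[]⟩,
   ⟨(-1),[7,2],[5],[1],[]⟩,
   ⟨(-1),[0,6],[5],[2],[]⟩,
   ⟨(-1),[1,6],[5],[2],[]⟩,
   ⟨(-1),[2,7],[5],[1],[]⟩,
   ⟨1,[3,7],[5],[0],[]⟩,
   ⟨1,[3,7],[5],[1],[]⟩,
   ⟨1,[0],[6],[4,2],[]⟩,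
   ⟨(-1),[0],[6],[4,3],[]⟩,
   ⟨(-1),[1],[6],[2,0],[]⟩,
   ⟨1,[1],[6],[4,2],[]⟩,
   ⟨2,[5],[6],[0,2],[]⟩,
   ⟨1,[3,1],[6],[4],[]⟩,
   ⟨1,[0,3],[6],[4],[]⟩,
   ⟨(-1),[3,5],[6],[0],[]⟩,
   ⟨1,[1],[3,0],[7],[]⟩,
   ⟨1,[1],[6,2],[4],[]⟩,
   ⟨(-1),[5],[6,2],[1],[]⟩,
   ⟨1,[0],[3,5],[6],[]⟩,
   ⟨1,[0],[3,5],[7],[]⟩,
   ⟨1,[1],[3,5],[6],[]⟩,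
   ⟨1,[1],[3,5],[7],[]⟩,
   ⟨1,[0],[6,5],[3],[]⟩,
   ⟨1,[1],[6,5],[3],[]⟩,
   ⟨(-2),[5],[1],[0],[0]⟩,
   ⟨(-1),[7],[3],[0],[0]⟩,
   ⟨1,[1],[2],[6],[3]⟩,
   ⟨(-2),[0],[4],[2],[5]⟩,
   ⟨1,[0],[4],[3],[5]⟩,
   ⟨2,[3],[4],[0],[5]⟩,
   ⟨2,[6],[4],[0],[5]⟩,
   ⟨1,[6],[4],[1],[5]⟩,
   ⟨(-1),[0],[7],[2],[6]⟩,
   ⟨1,[1],[7],[3],[6]⟩,
   ⟨(-1),[3],[7],[1],[6]⟩,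
   ⟨1,[3],[7],[4],[6]⟩]

def r26 : List Tm :=
  [⟨1,[1],[0],[2],[]⟩,
   ⟨1,[1],[0],[4],[]⟩,
   ⟨1,[4],[0],[0],[]⟩,
   ⟨(-1),[4],[0],[3],[]⟩,
   ⟨1,[6],[0],[5],[]⟩,
   ⟨1,[0],[1],[2],[]⟩,
   ⟨1,[0],[1],[7],[]⟩,
   ⟨1,[0],[2],[6],[]⟩,
   ⟨(-2),[4],[2],[1],[]⟩,
   ⟨1,[5],[2],[0],[]⟩,
   ⟨(-1),[6],[2],[1],[]⟩,
   ⟨(-1),[7],[2],[0],[]⟩,
   ⟨1,[7],[2],[1],[]⟩,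
   ⟨(-1),[2],[3],[0],[]⟩,
   ⟨(-1),[2],[3],[4],[]⟩,
   ⟨1,[2],[3],[5],[]⟩,
   ⟨(-1),[6],[3],[5],[]⟩,
   ⟨1,[0],[4],[2],[]⟩,
   ⟨(-1),[2],[4],[1],[]⟩,
   ⟨1,[6],[4],[1],[]⟩,
   ⟨1,[6],[4],[3],[]⟩,
   ⟨1,[0],[7],[3],[]⟩,
   ⟨(-1),[1],[0],[2,4],[]⟩,
   ⟨1,[2],[0],[7,4],[]⟩,
   ⟨1,[2],[0],[0,7],[]⟩,
   ⟨1,[3],[0],[5,7],[]⟩,
   ⟨1,[4],[0],[6,3],[]⟩,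
   ⟨1,[4],[0],[2,7],[]⟩,
   ⟨1,[1,2],[0],[5],[]⟩,
   ⟨1,[2,4],[0],[7],[]⟩,
   ⟨1,[6,4],[0],[3],[]⟩,
   ⟨(-1),[7,4],[0],[0],[]⟩,
   ⟨(-1),[0,7],[0],[3],[]⟩,
   ⟨(-1),[0],[1],[7,2],[]⟩,
   ⟨(-1),[2],[1],[6,1],[]⟩,
   ⟨(-1),[7],[1],[3,4],[]⟩,
   ⟨1,[7,2],[1],[4],[]⟩,
   ⟨(-1),[0],[2],[5,7],[]⟩,
   ⟨(-1),[1],[2],[4,7],[]⟩,
   ⟨(-1),[1],[2],[5,7],[]⟩,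
   ⟨1,[4],[2],[6,1],[]⟩,
   ⟨1,[4],[2],[0,7],[]⟩,
   ⟨1,[7],[2],[5,1],[]⟩,
   ⟨1,[7,1],[2],[4],[]⟩,
   ⟨1,[6,4],[2],[1],[]⟩,
   ⟨(-1),[6,5],[2],[0],[]⟩,
   ⟨(-1),[5,6],[2],[1],[]⟩,
   ⟨1,[0,7],[2],[4],[]⟩,
   ⟨1,[5,7],[2],[1],[]⟩,
   ⟨1,[0],[3],[5,7],[]⟩,
   ⟨1,[2],[3],[0,4],[]⟩,
   ⟨1,[4],[3],[7,0],[]⟩,
   ⟨(-1),[2,0],[3],[5],[]⟩,
   ⟨(-1),[0,4],[3],[7],[]⟩,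
   ⟨1,[1,6],[3],[5],[]⟩,
   ⟨(-1),[0],[4],[7,2],[]⟩,
   ⟨(-1),[0],[4],[3,7],[]⟩,
   ⟨1,[2],[4],[7,0],[]⟩,
   ⟨(-1),[6],[4],[3,1],[]⟩,
   ⟨(-1),[6],[4],[1,3],[]⟩,
   ⟨(-1),[6,1],[4],[3],[]⟩,
   ⟨1,[1,2],[4],[7],[]⟩,
   ⟨1,[6,2],[4],[0],[]⟩,
   ⟨(-1),[0,3],[4],[7],[]⟩,
   ⟨(-1),[6,3],[4],[1],[]⟩,
   ⟨1,[0,6],[4],[3],[]⟩,
   ⟨2,[1,6],[4],[3],[]⟩,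
   ⟨(-1),[3,6],[4],[1],[]⟩,
   ⟨(-1),[0],[7],[3,4],[]⟩,
   ⟨(-1),[1],[7],[3,4],[]⟩,
   ⟨(-1),[5],[7],[3,1],[]⟩,
   ⟨(-1),[4,0],[7],[3],[]⟩,
   ⟨(-1),[4,2],[7],[1],[]⟩,
   ⟨1,[2,4],[7],[1],[]⟩,
   ⟨1,[0],[4,0],[6],[]⟩,
   ⟨1,[2],[4,0],[6],[]⟩,
   ⟨(-1),[6],[4,0],[3],[]⟩,
   ⟨1,[0],[4,2],[6],[]⟩,
   ⟨(-1),[6],[4,2],[1],[]⟩,
   ⟨1,[0],[7,2],[4],[]⟩,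
   ⟨1,[1],[7,2],[4],[]⟩,
   ⟨1,[2],[0,3],[5],[]⟩,
   ⟨(-1),[4],[0,3],[2],[]⟩,
   ⟨1,[0],[0,4],[6],[]⟩,
   ⟨(-1),[2],[0,4],[7],[]⟩,
   ⟨(-1),[3],[0,4],[7],[]⟩,
   ⟨(-1),[7],[0,4],[0],[]⟩,
   ⟨1,[0],[2,4],[7],[]⟩,
   ⟨1,[1],[2,4],[7],[]⟩,
   ⟨1,[0],[7,5],[3],[]⟩,
   ⟨(-1),[2],[7,5],[0],[]⟩,
   ⟨(-1),[2],[0,6],[5],[]⟩,
   ⟨1,[4],[0,6],[2],[]⟩,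
   ⟨1,[1],[2,6],[5],[]⟩,
   ⟨(-1),[4],[2,6],[1],[]⟩,
   ⟨(-1),[2],[1],[5],[0]⟩,
   ⟨(-1),[4],[1],[0],[0]⟩,
   ⟨1,[0],[2],[6],[0]⟩,
   ⟨1,[6],[2],[0],[0]⟩,
   ⟨(-1),[0],[4],[6],[0]⟩,
   ⟨(-1),[2],[0],[1],[1]⟩,
   ⟨1,[2],[0],[4],[1]⟩,
   ⟨(-1),[0],[3],[5],[2]⟩,
   ⟨(-1),[0],[3],[6],[2]⟩,
   ⟨1,[0],[3],[7],[2]⟩,
   ⟨1,[4],[3],[0],[2]⟩,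
   ⟨2,[7],[3],[1],[2]⟩,
   ⟨1,[7],[3],[4],[2]⟩,
   ⟨1,[0],[5],[2],[4]⟩,
   ⟨(-1),[0],[5],[3],[4]⟩,
   ⟨(-1),[1],[5],[3],[4]⟩,
   ⟨1,[2],[5],[0],[4]⟩,
   ⟨1,[2],[5],[7],[4]⟩,
   ⟨(-1),[3],[5],[7],[4]⟩,
   ⟨1,[0],[6],[4],[7]⟩,
   ⟨1,[0],[6],[5],[7]⟩,
   ⟨1,[4],[6],[1],[7]⟩]

def r27 : List Tm :=
  [⟨1,[0],[6],[3,4],[]⟩,
   ⟨(-1),[0],[6],[4],[]⟩,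
   ⟨1,[2],[6],[1,4],[]⟩,
   ⟨(-1),[2],[6],[4],[]⟩]

def l0 : List (List Tm) := [r0]
def l1 : List (List Tm) := l0 ++ [r1]
def l2 : List (List Tm) := l1 ++ [r2]
def l3 : List (List Tm) := l2 ++ [r3]
def l4 : List (List Tm) := l3 ++ [r4]
def l5 : List (List Tm) := l4 ++ [r5]
def l6 : List (List Tm) := l5 ++ [r6]
def l7 : List (List Tm) := l6 ++ [r7]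
def l8 : List (List Tm) := l7 ++ [r8]
def l9 : List (List Tm) := l8 ++ [r9]
def l10 : List (List Tm) := l9 ++ [r10]
def l11 : List (List Tm) := l10 ++ [r11]
def l12 : List (List Tm) := l11 ++ [r12]
def l13 : List (List Tm) := l12 ++ [r13]
def l14 : List (List Tm) := l13 ++ [r14]
def l15 : List (List Tm) := l14 ++ [r15]
def l16 : List (List Tm) := l15 ++ [r16]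
def l17 : List (List Tm) := l16 ++ [r17]
def l18 : List (List Tm) := l17 ++ [r18]
def l19 : List (List Tm) := l18 ++ [r19]
def l20 : List (List Tm) := l19 ++ [r20]
def l21 : List (List Tm) := l20 ++ [r21]
def l22 : List (List Tm) := l21 ++ [r22]
def l23 : List (List Tm) := l22 ++ [r23]
def l24 : List (List Tm) := l23 ++ [r24]
def l25 : List (List Tm) := l24 ++ [r25]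
def l26 : List (List Tm) := l25 ++ [r26]
def l27 : List (List Tm) := l26 ++ [r27]

def e1_0 : List En :=
  [⟨(-1),0,[[0,2],[3],[2],[3]],[],[[1],[],[],[],[1]]⟩,
   ⟨(-1),0,[[0],[2],[1],[2]],[0],[[1],[1],[],[2],[0]]⟩,
   ⟨(-1),0,[[0,3],[3],[2,1],[2]],[0],[[0],[0,0],[0],[2,0],[0]]⟩]

def e1 : List En := e1_0

theorem c1 : check l0 r1 [] e1 = true := by decide +kernel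

def e2_0 : List En :=
  [⟨1,0,[[0,3,0],[1],[0],[1]],[1],[[1],[],[],[],[1,3,0]]⟩,
   ⟨1,1,[[0,3,1],[0]],[1],[[1],[0,3,0]]⟩]

def e2 : List En := e2_0

theorem c2 : check l1 r2 [] e2 = true := by decide +kernel

def e3_0 : List En :=
  [⟨1,0,[[0],[1,4,2],[0],[1]],[1],[[3,0],[],[0],[],[1]]⟩,
   ⟨1,0,[[1],[2,4,1],[0],[1]],[],[[1],[1,3,0],[1],[],[0]]⟩,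
   ⟨1,0,[[2],[4],[0],[1]],[],[]⟩,
   ⟨(-1),0,[[1,2],[4],[0],[1]],[],[[],[3,0],[3,0]]⟩,
   ⟨1,0,[[1],[4,0],[3],[1]],[2],[[0],[0,3,0],[1],[1,2]]⟩,
   ⟨(-1),0,[[1],[4,1],[3],[1]],[2],[[1],[1,3,0],[1],[1,2]]⟩,
   ⟨1,0,[[1],[4],[1],[3]],[],[[],[],[],[3],[1]]⟩,
   ⟨1,0,[[1],[4],[1,3],[1]],[2],[[],[3,0],[1],[3,1,2],[3]]⟩,
   ⟨(-1),0,[[2],[4],[0],[2]],[],[[],[3,0],[1],[1,2]]⟩,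
   ⟨(-1),0,[[2],[0],[5],[2]],[4],[[],[3,0],[1],[1,2]]⟩,
   ⟨1,0,[[1,2],[4],[0],[1,2]],[],[[],[3,0],[1],[1]]⟩,
   ⟨1,0,[[1,2],[0],[5],[1,2]],[4],[[2],[0,3,0,0],[1],[1,2]]⟩,
   ⟨(-1),0,[[1],[2,1],[5],[1]],[4],[[1],[1,3,0],[1],[1,2]]⟩,
   ⟨1,0,[[1],[2],[1],[5]],[],[[],[],[],[3],[1]]⟩,
   ⟨(-1),0,[[1],[2],[1],[5,1]],[],[[],[],[1,2],[3,1,2],[1]]⟩,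
   ⟨1,0,[[1],[2],[1,5],[1]],[4],[[],[3,0],[1],[3,1,2],[3]]⟩,
   ⟨1,0,[[1,2],[1],[5],[1]],[4],[[1],[1,3,0],[3,0]]⟩,
   ⟨1,0,[[3],[1],[5],[3]],[4],[[],[3,0],[1],[1,2]]⟩,
   ⟨(-1),0,[[3],[1],[5],[0,3]],[4],[[2],[],[1,2],[1,2]]⟩,
   ⟨(-1),0,[[1],[2,0,0],[1,5],[1]],[4],[[0,0],[0,0,3,0],[1],[3,1,2],[3]]⟩,
   ⟨(-1),0,[[4],[2,0],[0],[1]],[1],[[0],[0]]⟩,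
   ⟨1,0,[[1,4],[2,0],[0],[1]],[1],[[0],[0,3,0],[3,0]]⟩,
   ⟨1,0,[[3],[3],[5],[0,3]],[4],[[1,2],[1],[1,2],[1,2]]⟩,
   ⟨1,0,[[3],[4,2],[3],[3]],[],[[0],[0,3,0],[1],[3,1],[1]]⟩,
   ⟨1,1,[[1,4],[3]],[],[]⟩,
   ⟨(-1),1,[[4,3,3],[3]],[],[[0,0],[1,1]]⟩,
   ⟨1,0,[[1],[4],[3],[2]],[],[]⟩,
   ⟨(-1),0,[[1],[3],[5],[3]],[4],[[1],[1]]⟩,
   ⟨1,0,[[1],[2],[5],[1]],[4],[[],[3,0],[1],[1,2]]⟩,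
   ⟨1,0,[[1],[4],[2],[1]],[],[[],[3,0],[1],[1,2]]⟩,
   ⟨(-1),0,[[3,1],[2],[5],[3,1]],[4],[[2],[0,3,0,0],[1],[1,2]]⟩,
   ⟨(-1),0,[[3,1],[4],[2],[3,1]],[],[[],[3,0],[1],[1]]⟩,
   ⟨(-1),0,[[1],[3],[0],[1,5]],[1],[[],[],[3],[],[0]]⟩,
   ⟨(-1),0,[[1],[4],[2],[3]],[],[]⟩,
   ⟨(-1),0,[[3],[1,4,3],[2],[3]],[],[[1],[1,3,0],[1],[],[0]]⟩,
   ⟨1,0,[[3,1],[4],[2],[3]],[],[[],[3,0],[3,0]]⟩,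
   ⟨(-1),0,[[3],[4,2],[0],[3]],[1],[[0],[0,3,0],[1],[1,2]]⟩,
   ⟨1,0,[[3],[4],[0],[3]],[1],[[],[3,0],[1],[1,2]]⟩,
   ⟨(-1),0,[[1],[4],[1],[3]],[0],[[],[],[],[3],[1]]⟩,
   ⟨1,0,[[1,3],[4],[1],[3]],[0],[[],[],[1],[1],[3,0]]⟩,
   ⟨(-1),0,[[1,3],[4,3],[1],[3]],[0],[[1],[1],[1],[1],[3,0]]⟩,
   ⟨1,0,[[1],[4,3],[1],[3]],[0],[[1],[1],[],[3],[1]]⟩,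
   ⟨(-1),0,[[1],[3,0],[1],[5,3]],[],[[],[],[],[3],[1]]⟩,
   ⟨(-1),0,[[0],[1,3,0],[1],[5,3]],[],[[],[],[],[2],[0]]⟩,
   ⟨(-1),0,[[0],[1,3],[0],[1,5,3]],[1],[[],[1,2],[2],[],[1]]⟩,
   ⟨(-1),0,[[1],[4,3],[0],[1,3]],[1],[[1],[1,3,0],[3],[],[0]]⟩,
   ⟨1,0,[[1,2],[4],[3,0],[1]],[1],[[],[3,0],[3,0],[0],[0]]⟩,
   ⟨1,0,[[1],[3,0],[1,5],[1]],[4],[[0],[0,3,0],[1],[3,1,2],[3]]⟩,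
   ⟨1,0,[[3],[0],[1,5],[3]],[4],[[],[3,0],[1],[1,2]]⟩,
   ⟨(-1),0,[[1,3],[0],[1,5],[1,3]],[4],[[2],[0,3,0,0],[1],[1,2]]⟩,
   ⟨1,0,[[2],[1],[3],[2,5]],[2],[[],[3],[3],[],[0]]⟩,
   ⟨(-1),0,[[1],[3],[2,5],[1]],[4],[[],[3,0],[1],[1,2]]⟩,
   ⟨(-1),0,[[2],[1],[3],[2,5,1]],[2],[[1,2],[3],[3],[],[0]]⟩,
   ⟨(-1),0,[[2],[1,3],[2,5],[2]],[4],[[0],[0,3,0],[1],[3,1,2],[3]]⟩,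
   ⟨(-1),0,[[2,0],[4],[1,3],[2]],[2],[[],[3,0],[3,0],[0],[0]]⟩,
   ⟨1,0,[[2],[4,1],[3],[2,1]],[2],[[],[3,0],[3],[],[0]]⟩,
   ⟨1,0,[[2,1],[3],[2,5],[2,1]],[4],[[2],[0,3,0,0],[1],[1,2,0],[3]]⟩,
   ⟨1,0,[[4],[0],[1,3],[4]],[2],[[],[3,0],[1],[1,2]]⟩,
   ⟨1,0,[[4],[2,0],[0],[4]],[1],[[],[3,0],[1],[1,2]]⟩,
   ⟨(-1),0,[[1,4],[0],[1,3],[1,4]],[2],[[2],[0,3,0,0],[1],[1,2],[3,0]]⟩]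

def e3_1 : List En :=
  [⟨(-1),0,[[1,4],[2,0],[0],[1,4]],[1],[[],[3,0,3,0],[1],[1]]⟩]

def e3 : List En := e3_0 ++ e3_1

theorem c3 : check l2 r3 [] e3 = true := by decide +kernel

def e4_0 : List En :=
  [⟨(-1),3,[[4,3],[4,2,5],[0]],[],[[0,3,0,0],[1,2,1,2]]⟩,
   ⟨(-1),0,[[2],[0],[5],[2]],[4],[[],[3,0],[1],[1,2]]⟩,
   ⟨1,0,[[2],[0,3],[5],[2]],[4],[[0],[0,3,0],[1],[1,2]]⟩,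
   ⟨1,3,[[2,0,2],[1,3],[4]],[],[[3,3,0],[1,1,2]]⟩,
   ⟨(-1),0,[[2],[4],[1],[2]],[0],[[],[3,0],[1],[1,2]]⟩,
   ⟨1,0,[[2],[4,0],[3],[2]],[],[[],[3,0],[1],[],[0]]⟩,
   ⟨1,0,[[4],[0],[3],[2]],[],[]⟩,
   ⟨(-1),0,[[2,4],[0],[3],[2]],[],[[],[3,0],[3,0]]⟩,
   ⟨(-1),0,[[4],[0],[3],[4]],[],[[],[3,0],[1],[1,2]]⟩,
   ⟨(-1),0,[[4],[3],[1],[4]],[0],[[],[3,0],[1],[1,2]]⟩,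
   ⟨1,0,[[2,4],[0],[3],[2,4]],[],[[],[3,0],[1],[1]]⟩,
   ⟨1,0,[[2,4],[3],[1],[2,4]],[0],[[2],[0,3,0,0],[1],[1,2]]⟩]

def e4 : List En := e4_0

theorem c4 : check l3 r4 [[3,0]] e4 = true := by decide +kernel

def e5_0 : List En :=
  [⟨(-2),3,[[0],[0,4,1],[2]],[],[[0,3,0],[2,1,2]]⟩,
   ⟨1,3,[[0],[4,4,1],[2]],[],[[3,0],[1,2]]⟩,
   ⟨1,3,[[4,4],[3],[0]],[],[]⟩,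
   ⟨(-2),3,[[4,4,3],[2,5],[0]],[],[[1,2,2],[3,0,0]]⟩,
   ⟨1,0,[[5],[5],[2],[1]],[],[]⟩,
   ⟨(-1),4,[[5],[4],[0,3]],[2],[[],[0]]⟩,
   ⟨1,0,[[4],[5],[2],[1]],[],[]⟩,
   ⟨1,4,[[5],[5],[3,4,4]],[2],[[1,1],[1],[2,2],[3,3]]⟩,
   ⟨1,4,[[5,2],[4],[0]],[],[[0,3,0,0]]⟩,
   ⟨1,0,[[5],[5,2],[0],[3]],[],[[0],[0]]⟩,
   ⟨(-1),3,[[4],[4,3],[5,2,0]],[],[[0],[2]]⟩,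
   ⟨1,3,[[4],[5,0,3],[5,2]],[0],[[1],[3]]⟩,
   ⟨1,0,[[4],[5,2],[0],[3,4]],[],[[0],[2],[1,2],[1,2]]⟩,
   ⟨(-1),0,[[4],[5,2],[0],[4]],[],[[],[],[1],[1,2]]⟩,
   ⟨(-1),3,[[1,4,0],[1],[5,2]],[0],[[2,1,2],[0,3,0]]⟩]

def e5 : List En := e5_0

theorem c5 : check l4 r5 [] e5 = true := by decide +kernel

def e6_0 : List En :=
  [⟨1,0,[[5],[4,2,5],[4],[4]],[],[[0,3,0],[0],[0],[2,0],[0]]⟩,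
   ⟨1,1,[[0,2,4],[4]],[],[[0],[1]]⟩,
   ⟨(-1),3,[[4,3],[5],[4]],[],[[3],[1]]⟩,
   ⟨1,0,[[0],[2],[4],[5]],[],[]⟩,
   ⟨(-1),3,[[0],[0,5,1],[2,4]],[],[[0,3,0],[2,1,2]]⟩,
   ⟨1,0,[[2],[0],[4],[2]],[],[[],[3,0],[1],[1,2]]⟩,
   ⟨1,0,[[4],[2],[4],[1]],[],[[],[],[],[3],[1]]⟩,
   ⟨(-1),0,[[4,2],[0],[4],[4,2]],[],[[],[3,0],[1],[1,2,2],[3,0]]⟩,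
   ⟨(-1),3,[[2],[3,4,3],[0]],[4],[[1,3,0],[3,1,2]]⟩,
   ⟨(-1),4,[[0],[5],[2]],[4],[[3,0]]⟩,
   ⟨1,3,[[5],[1],[2]],[4],[]⟩]

def e6 : List En := e6_0

theorem c6 : check l5 r6 [] e6 = true := by decide +kernel

def e7_0 : List En :=
  [⟨(-1),0,[[0],[3,5,0],[1],[0]],[],[[1],[1,3,0],[1],[],[0]]⟩,
   ⟨(-1),3,[[1],[4],[2,1]],[],[]⟩,
   ⟨(-1),3,[[3,0],[1,1,2],[1]],[],[[3,0,0],[1,2,2]]⟩,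
   ⟨1,3,[[1,1,4],[5,0],[2]],[1],[[1,2,2],[3,0,0]]⟩,
   ⟨1,3,[[5,5,0],[4],[2]],[],[[3,3],[1,1]]⟩,
   ⟨(-2),1,[[3,5],[1]],[],[]⟩,
   ⟨2,2,[[1],[1,2,1]],[1],[[3,1,2],[3,1,2]]⟩,
   ⟨3,4,[[3,1,1],[1],[1]],[],[[3,0,0,0],[1,1],[1],[0]]⟩,
   ⟨(-1),0,[[0],[2,5],[1],[0]],[],[[],[3,0],[1],[],[0]]⟩,
   ⟨1,4,[[2,5],[1],[1]],[],[[3,0],[],[1],[0]]⟩,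
   ⟨(-2),0,[[3],[0],[1],[4,3]],[],[[],[],[],[1,2]]⟩,
   ⟨(-2),3,[[1,2],[4,3],[1]],[],[]⟩,
   ⟨(-2),3,[[5,0],[3,1,4],[0]],[1],[[3,0],[1,2]]⟩,
   ⟨(-4),0,[[0],[1,3,1],[0],[1]],[],[[1,3,0],[1],[0],[],[1]]⟩,
   ⟨4,4,[[1],[2],[0]],[],[[3,0]]⟩,
   ⟨4,4,[[0],[3,0],[2]],[],[[1,3,0],[1,2],[0],[3,0]]⟩,
   ⟨(-4),2,[[2],[2,1,2]],[2],[[3,1,2],[3,1,2]]⟩,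
   ⟨4,0,[[2],[0],[3],[2]],[2],[[],[3,0],[1],[],[0]]⟩,
   ⟨4,4,[[2],[3],[1,3]],[],[[],[0],[3],[2]]⟩,
   ⟨4,0,[[2],[3],[2],[2,2,0]],[],[[2,2],[],[],[3,3,3],[1]]⟩,
   ⟨2,0,[[3],[2,1,2],[3],[2]],[2],[[1,3,0],[1],[0],[],[1]]⟩,
   ⟨(-1),2,[[1],[3,1]],[1],[[1,2],[1,2]]⟩,
   ⟨(-2),0,[[2],[0],[1],[4]],[],[]⟩,
   ⟨2,3,[[5,0],[1,1,4],[1]],[],[[3,0,0],[1,2,2]]⟩,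
   ⟨2,6,[[3],[5],[1]],[],[]⟩,
   ⟨2,3,[[1,5,2],[3],[1]],[],[[1,2],[3,0]]⟩,
   ⟨(-1),3,[[5,2],[5],[1]],[],[[2],[0]]⟩,
   ⟨(-2),4,[[3],[1,3],[0]],[2],[[1,3,0],[1,2],[0],[3,0]]⟩,
   ⟨2,3,[[1,3],[1,2,0],[0]],[2],[[0,3,0,0],[1,2,1,2]]⟩,
   ⟨(-2),4,[[0],[1],[2]],[2],[[],[0]]⟩,
   ⟨(-2),3,[[3,0],[1,2,1],[0]],[2],[[1,1,2],[3,3,0]]⟩,
   ⟨(-2),0,[[1],[0],[2],[4]],[],[]⟩,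
   ⟨2,3,[[4],[0],[0,2]],[],[]⟩,
   ⟨2,6,[[2],[5,2],[1]],[],[[],[1,2],[],[1,2]]⟩,
   ⟨(-2),6,[[2,5],[2],[1]],[],[[],[],[],[3,0]]⟩,
   ⟨3,1,[[5,2,1],[1]],[],[[0],[1]]⟩,
   ⟨(-1),6,[[4],[2],[1]],[],[]⟩,
   ⟨1,4,[[4,2,1],[1],[1]],[],[[3,0,0],[1],[1],[0]]⟩,
   ⟨(-1),6,[[5],[2],[1]],[],[]⟩,
   ⟨1,3,[[4,4,2],[3,5],[1]],[],[[1,2,2],[3,0,0]]⟩,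
   ⟨1,4,[[1],[4],[3,0]],[],[[3,0]]⟩,
   ⟨(-1),3,[[5,0,5],[4],[3,0]],[],[[3,1,2],[1,3,0]]⟩,
   ⟨(-1),4,[[3,5],[4],[1]],[],[[3],[0]]⟩,
   ⟨(-1),3,[[4],[5,0],[3,5]],[],[[1],[3]]⟩,
   ⟨(-1),3,[[4],[4,0,5],[3,5]],[],[[0,3,0],[2,1,2]]⟩,
   ⟨1,6,[[2,1,1],[0],[1]],[],[[1],[],[0],[0,0]]⟩,
   ⟨1,0,[[4],[2],[1],[0]],[],[]⟩,
   ⟨(-2),3,[[1,3],[2,0,0],[1]],[],[[1,3],[3,1]]⟩,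
   ⟨2,2,[[1],[1,1,3]],[1],[[3,3],[3,3]]⟩,
   ⟨1,4,[[2],[5],[0]],[1],[[3,0]]⟩,
   ⟨(-1),0,[[5],[2],[0],[5]],[1],[[],[3,0],[1],[1,2]]⟩,
   ⟨(-1),3,[[5],[3,4],[0]],[1],[[3,0],[1,2]]⟩,
   ⟨1,0,[[0],[4,3,1],[1],[0]],[],[[0],[0,3,0],[1],[],[0]]⟩,
   ⟨1,4,[[0],[2,5],[1]],[],[[3,0]]⟩,
   ⟨(-1),4,[[4,3,0],[0],[1]],[],[[3,0,0],[1],[0],[1]]⟩,
   ⟨(-3),0,[[1],[0],[1],[3,4,4]],[],[[],[],[],[3],[1]]⟩,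
   ⟨(-3),3,[[3,4,4],[0],[0]],[1],[]⟩,
   ⟨(-3),4,[[1],[1],[5,5,2]],[],[[1,1],[1]]⟩,
   ⟨(-3),3,[[0],[3,4,4],[1]],[],[]⟩,
   ⟨(-3),0,[[5],[5,2],[1],[0]],[],[]⟩]

def e7_1 : List En :=
  [⟨(-2),0,[[1],[2,4],[1],[1]],[2],[[],[3,0],[1],[3,1],[1]]⟩,
   ⟨(-2),4,[[1],[2,4],[0]],[2],[[3,0]]⟩,
   ⟨2,3,[[0],[0,5,3],[0]],[2],[[0],[2]]⟩,
   ⟨(-2),4,[[5,3],[2,4,1],[1]],[2],[[],[2],[3,0],[0]]⟩,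
   ⟨(-2),3,[[2,4,1],[0],[5,3]],[2],[[1,2],[3,0]]⟩,
   ⟨(-2),4,[[5,3],[5,3],[0]],[2],[[1,1],[1]]⟩,
   ⟨(-2),0,[[2,4],[5],[3],[0]],[2],[]⟩,
   ⟨(-2),0,[[2,4],[5],[3],[1]],[2],[]⟩,
   ⟨2,3,[[1,5],[1,4,0],[3]],[2],[[0,3,0,0],[1,2,1,2]]⟩,
   ⟨(-2),0,[[4],[1],[3],[4]],[2],[[],[3,0],[1],[1,2]]⟩,
   ⟨(-2),3,[[3,0],[5,3],[5]],[],[]⟩,
   ⟨2,3,[[4,1],[4,1,4],[3]],[2],[[0,2],[2,0]]⟩,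
   ⟨(-2),3,[[5,3],[3,1],[5]],[],[]⟩,
   ⟨4,3,[[2,4,3],[5,3],[5]],[],[[3],[1]]⟩,
   ⟨4,6,[[2],[3],[5]],[],[[],[],[],[0]]⟩,
   ⟨1,3,[[5,3],[5],[1]],[],[[2],[0]]⟩,
   ⟨(-1),6,[[2],[5],[1]],[],[]⟩,
   ⟨(-1),3,[[3,1,5],[4,0],[1]],[],[[1,2],[3,0]]⟩,
   ⟨(-1),4,[[5,1],[0],[1]],[],[[3],[0],[0],[1]]⟩,
   ⟨1,6,[[4],[3],[1]],[],[]⟩,
   ⟨1,3,[[5],[5,1,3],[1]],[],[[0],[2]]⟩,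
   ⟨(-3),0,[[3],[5,0],[1],[0]],[],[[1],[1]]⟩,
   ⟨3,3,[[3,0,0],[1,2],[5]],[],[[3,1],[1,3]]⟩,
   ⟨3,3,[[3,1,2],[3],[5,0]],[1],[[2,1,2],[0,3,0]]⟩,
   ⟨3,0,[[3,4],[5,0],[1],[0]],[],[[1],[1]]⟩,
   ⟨(-3),3,[[5,2,1],[0],[5,0]],[1],[[1,2],[3,0]]⟩,
   ⟨(-1),0,[[4,0],[1],[0],[1,3]],[1],[[3],[],[],[],[1]]⟩,
   ⟨1,6,[[4,0,0],[0],[1]],[],[[0,0,0],[],[0],[1,1]]⟩,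
   ⟨(-1),0,[[5,0],[1],[0],[1,3]],[1],[[3],[],[],[],[1]]⟩,
   ⟨2,3,[[4],[4,4,0],[1]],[],[[0,0],[2,2]]⟩,
   ⟨(-1),3,[[1,3,4],[5],[0]],[1],[[1,2],[3,0]]⟩,
   ⟨1,0,[[4],[2,0],[0],[4]],[1],[[],[3,0],[1],[1,2]]⟩,
   ⟨(-1),4,[[2,0],[4],[1]],[],[[3,0]]⟩,
   ⟨(-1),3,[[4],[5,5,0],[2,0]],[],[[1,1],[3,3]]⟩,
   ⟨1,0,[[3],[1],[1],[4,3]],[0],[[],[],[1,2],[1,2]]⟩,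
   ⟨(-1),3,[[4],[3],[1,1]],[0],[]⟩,
   ⟨1,0,[[4],[1],[1],[3,4]],[0],[[],[],[1,2],[1,2]]⟩,
   ⟨1,3,[[3,4],[0,5],[1]],[0],[]⟩,
   ⟨1,3,[[4,3],[0,2],[1]],[0],[]⟩,
   ⟨(-1),3,[[5,2],[0,3,4],[1]],[0],[[3,0],[1,2]]⟩,
   ⟨1,0,[[5,2],[1],[0],[5]],[],[[],[3,0]]⟩,
   ⟨(-1),3,[[5,0],[1],[0]],[],[[1,2],[3,0]]⟩,
   ⟨1,2,[[0],[0,5,0]],[0],[[3,1,2],[3,1,2]]⟩,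
   ⟨1,3,[[0,3,4],[5],[0]],[],[[1,2],[3,0]]⟩,
   ⟨(-1),3,[[0,4,3],[2,5],[1]],[0],[[1,2],[3,0]]⟩,
   ⟨1,0,[[2,5],[1],[0],[2]],[],[[],[3,0]]⟩,
   ⟨(-1),0,[[4],[1],[0],[2]],[],[]⟩,
   ⟨(-1),3,[[5,0,2],[3,1],[1]],[0],[[1,2],[3,0]]⟩,
   ⟨(-2),4,[[4],[5,1],[1]],[],[[],[2],[3,0],[0]]⟩,
   ⟨(-2),0,[[5],[0],[4],[5]],[],[[],[3,0],[1],[],[0]]⟩,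
   ⟨(-2),4,[[5],[1],[4]],[],[[3,0]]⟩,
   ⟨(-2),6,[[0,2],[3],[5]],[],[[],[],[],[0]]⟩,
   ⟨(-2),6,[[1,2],[3],[5]],[],[[],[],[],[0]]⟩,
   ⟨(-1),4,[[2,1],[5],[0]],[],[[3,0]]⟩,
   ⟨1,3,[[0,3],[5],[0]],[],[]⟩,
   ⟨(-1),4,[[4],[0],[2,1]],[],[[3,0],[],[2],[3]]⟩,
   ⟨(-1),3,[[3],[1],[4]],[],[]⟩,
   ⟨(-1),3,[[2,0,3],[2,0],[4]],[],[[2,1],[0,3]]⟩,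
   ⟨1,4,[[2],[1],[4]],[],[[3,0]]⟩,
   ⟨1,6,[[4],[3],[0]],[],[]⟩]

def e7_2 : List En :=
  [⟨1,3,[[2],[2,0],[0]],[],[[0],[2]]⟩,
   ⟨3,4,[[0],[5],[2]],[],[[3,0]]⟩,
   ⟨(-2),0,[[5,1],[0],[2],[5]],[],[[],[1],[3,0]]⟩,
   ⟨1,3,[[3],[3,4],[0]],[],[[0],[2]]⟩,
   ⟨(-1),6,[[2],[4],[0]],[],[]⟩,
   ⟨1,4,[[2,4,1],[1],[0]],[],[[3,0,0],[1],[0],[1]]⟩,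
   ⟨(-2),1,[[4],[0]],[],[]⟩,
   ⟨1,0,[[2],[4,1],[0],[1]],[],[[1],[1]]⟩,
   ⟨(-1),0,[[2],[4,1],[0],[2]],[],[[],[3,0],[1],[1,2]]⟩,
   ⟨(-1),3,[[1],[1,2,0],[4,1]],[0],[[0,3,0],[2,1,2]]⟩,
   ⟨1,0,[[3],[4,1],[0],[1]],[],[[1],[1]]⟩,
   ⟨1,4,[[4],[3],[0]],[],[[3,0]]⟩,
   ⟨(-1),3,[[5],[5,5,2],[0]],[],[[0,0],[2,2]]⟩,
   ⟨1,3,[[4,3,3],[2,5],[0]],[],[[3,1],[1,3]]⟩,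
   ⟨1,6,[[2],[5],[0]],[],[]⟩,
   ⟨1,1,[[5,1,1],[0]],[],[[1,1],[0,0]]⟩,
   ⟨1,0,[[5,0,0],[1],[0],[1]],[],[[1],[0],[],[],[1,1]]⟩,
   ⟨(-1),0,[[5],[1],[0],[2]],[],[]⟩,
   ⟨1,0,[[5],[3,1],[1],[5]],[0],[[],[3,0],[1],[1,2]]⟩,
   ⟨(-1),3,[[2,0,4],[5,1],[0]],[],[[1,2],[3,0]]⟩,
   ⟨1,4,[[3,4,1],[1],[0]],[],[[3,0,0],[1],[0],[1]]⟩,
   ⟨(-1),6,[[3],[4],[0]],[],[]⟩,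
   ⟨1,4,[[3],[5],[0]],[],[[3,0]]⟩,
   ⟨(-1),4,[[3],[5],[0,4]],[],[[3,0],[],[2],[3]]⟩,
   ⟨1,4,[[3,5],[4],[0,4]],[],[[3],[0],[3],[2]]⟩,
   ⟨1,4,[[5],[4,1],[3,5]],[],[[],[2],[0],[3]]⟩,
   ⟨(-1),4,[[5],[4,1],[3,1]],[],[[],[2],[3,0]]⟩,
   ⟨(-1),4,[[3,1],[1],[4]],[],[[3,0,0],[1]]⟩,
   ⟨1,3,[[1,2],[1],[4]],[],[[2],[0]]⟩,
   ⟨1,3,[[3,0,2],[3,0],[4]],[],[[2,1],[0,3]]⟩,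
   ⟨1,4,[[4],[1],[3,0]],[],[[3,0],[],[2],[3]]⟩,
   ⟨1,4,[[3,0],[4,0],[5]],[],[[3,0],[],[0],[3,0]]⟩,
   ⟨(-1),4,[[3,5],[1,5],[5]],[],[[3,0,0],[1],[3,0],[0]]⟩,
   ⟨(-3),0,[[0],[5],[0],[2]],[1],[[],[],[],[3],[1]]⟩,
   ⟨3,0,[[0],[5],[0],[0,5,2]],[1],[[],[3],[3],[3,3],[1]]⟩,
   ⟨3,6,[[5],[5,2],[0]],[1],[[],[],[],[3]]⟩,
   ⟨3,3,[[3,4],[1,5,2],[5]],[],[[3,0],[1,2]]⟩,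
   ⟨3,6,[[5,2],[1],[0]],[1],[[0],[],[0]]⟩,
   ⟨(-3),0,[[4],[5,2,1],[0],[1]],[1],[[1],[1]]⟩,
   ⟨(-3),4,[[5,2],[5],[0]],[1],[[3,0],[3,0]]⟩,
   ⟨(-3),4,[[5,2,1],[4],[1]],[],[[3,0,3,0]]⟩,
   ⟨(-3),4,[[1],[5,2,1],[5]],[],[[1,3,0],[1,2],[1]]⟩,
   ⟨(-3),0,[[3,4],[5],[0],[3,4]],[1],[[],[3],[1],[1,2]]⟩,
   ⟨6,3,[[4],[5,3,4],[0]],[1],[[1],[3]]⟩,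
   ⟨3,0,[[5],[5,2],[0],[5]],[1],[[3,0],[3,0],[1],[1,2]]⟩,
   ⟨3,3,[[0],[1,1,5],[5,2]],[],[[1,1],[3,3]]⟩,
   ⟨(-3),0,[[4],[5,2],[0],[4]],[1],[[],[],[1],[1,2]]⟩,
   ⟨(-3),3,[[1,1,4],[0],[5,2]],[],[[3,3],[1,1]]⟩,
   ⟨3,0,[[2],[5],[0],[2]],[1],[[],[3,0],[1],[1,2]]⟩,
   ⟨(-3),3,[[4,2,4],[4,2],[0]],[1],[[2,0],[0,2]]⟩,
   ⟨3,4,[[5],[2,1],[1]],[],[[3,0],[],[3,0],[0]]⟩,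
   ⟨(-3),3,[[0,3,4],[2,1],[1]],[],[[3],[1]]⟩,
   ⟨(-2),0,[[0],[4,1],[3],[0]],[2],[[0],[0,3,0],[1],[1,2]]⟩,
   ⟨2,3,[[3],[2,2,1],[4,1]],[],[[1,1],[3,3]]⟩,
   ⟨(-2),4,[[0],[4],[3]],[2],[[3,0]]⟩,
   ⟨(-2),3,[[5,3,5],[2,4],[0]],[2],[[3,3,0],[1,1,2]]⟩,
   ⟨(-2),4,[[2],[1],[4,1]],[],[[3,0],[],[3],[2]]⟩,
   ⟨(-2),0,[[0],[2,5],[4],[5]],[],[[1],[1]]⟩,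
   ⟨(-2),6,[[0,2],[5],[4]],[],[[0],[],[0]]⟩,
   ⟨(-2),0,[[1],[2,5],[4],[5]],[],[[1],[1]]⟩]

def e7_3 : List En :=
  [⟨(-2),0,[[5],[1,2],[4],[5]],[],[[],[3,0],[1],[],[0]]⟩,
   ⟨4,0,[[5],[2,4,4],[4],[5]],[],[[0,0],[0,0,3,0],[1],[],[0]]⟩,
   ⟨(-2),3,[[4],[3,0],[4]],[],[]⟩,
   ⟨2,3,[[0,0,4],[0],[2,5]],[4],[[2,2],[0,0]]⟩,
   ⟨(-2),0,[[0],[5],[2,5],[0]],[4],[[],[3,0],[1],[1,2]]⟩,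
   ⟨(-2),3,[[0],[1,2,5],[5]],[2],[[1],[3]]⟩,
   ⟨4,3,[[5,3,4],[5,2],[4]],[],[[1,2,1,2],[0,3,0,0]]⟩,
   ⟨2,4,[[0],[2,5],[5]],[2],[[3,0],[],[3,0],[0]]⟩,
   ⟨(-2),4,[[0],[2],[5,3]],[2],[[3,0],[],[2],[3]]⟩,
   ⟨2,3,[[2,2,1],[3],[5,3]],[2],[[3,3],[1,1]]⟩,
   ⟨2,0,[[2],[0],[5,3],[2]],[2],[[],[3,0],[1]]⟩,
   ⟨2,0,[[2],[0],[5],[3]],[],[[],[],[0]]⟩,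
   ⟨2,3,[[3],[1,3],[5]],[],[]⟩,
   ⟨2,6,[[0],[2],[4]],[],[]⟩,
   ⟨2,3,[[1],[4,2],[4]],[],[]⟩,
   ⟨2,6,[[1],[2],[4]],[],[]⟩,
   ⟨(-2),0,[[1],[3,5],[4],[1]],[],[[],[3,0],[1],[1,2]]⟩,
   ⟨(-2),3,[[4,1,4],[5],[3,5]],[4],[[3,1,2],[1,3,0]]⟩,
   ⟨2,4,[[4],[0],[3]],[],[[3,0]]⟩,
   ⟨(-2),3,[[1],[5,0],[3]],[],[[3,0],[1,2]]⟩,
   ⟨2,0,[[1],[3,5],[4],[5]],[],[[1],[1]]⟩,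
   ⟨2,1,[[1,3,4],[4]],[],[[0],[1]]⟩,
   ⟨(-2),3,[[0,4,0],[5,1],[3]],[],[[3,3,0],[1,1,2]]⟩,
   ⟨2,0,[[0],[3,5],[4],[5]],[],[[1],[1]]⟩,
   ⟨2,1,[[0,3,5],[4]],[],[[1],[0]]⟩,
   ⟨(-4),4,[[3,4,4],[5],[4]],[],[[3,1],[0,0],[0],[1]]⟩,
   ⟨(-2),6,[[0],[3],[4]],[],[]⟩,
   ⟨(-2),4,[[4],[1],[2,0]],[],[[3,0],[],[2],[3]]⟩,
   ⟨(-2),6,[[1],[3],[4]],[],[]⟩,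
   ⟨2,4,[[4],[1],[2,5]],[],[[3,0]]⟩,
   ⟨(-2),4,[[2,0],[1,5],[5]],[],[[3,0],[],[3,0],[0]]⟩,
   ⟨2,4,[[2,5],[4,0],[5]],[],[[3],[0],[0],[3,0]]⟩,
   ⟨2,3,[[1],[4,0],[2,5]],[],[[3,0],[1,2]]⟩,
   ⟨2,4,[[2,5],[4],[1]],[],[[3],[0]]⟩,
   ⟨(-2),0,[[1],[5],[1],[3]],[0],[[],[],[],[3],[1]]⟩,
   ⟨2,0,[[2],[5],[1],[3]],[0],[[],[],[0]]⟩,
   ⟨2,0,[[1,3],[2,5],[1],[3]],[0],[[],[],[1],[1],[3,0]]⟩,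
   ⟨(-2),3,[[1],[1,2,0],[2,5]],[],[[0,3,0],[2,1,2]]⟩,
   ⟨2,3,[[0,3,0],[1],[5,1]],[0],[[3,1,2],[1,3,0]]⟩,
   ⟨(-2),4,[[2,5],[2],[1]],[],[[3,0],[3,0]]⟩,
   ⟨2,3,[[4,3],[4,3,3],[1]],[],[[0],[2]]⟩,
   ⟨(-2),3,[[2,0,3],[2],[2,5]],[],[[2,1,2],[0,3,0]]⟩,
   ⟨(-2),4,[[2],[2,5],[1]],[],[[3,0],[3]]⟩,
   ⟨(-2),4,[[2,5],[1],[2]],[],[[3,0]]⟩,
   ⟨(-2),4,[[0],[2],[2,5]],[],[[3,0],[],[1,2]]⟩,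
   ⟨(-2),4,[[2],[4,3],[0]],[],[[0,3,0]]⟩,
   ⟨2,3,[[3],[2,1,2],[2,5]],[],[[1,3,0],[3,1,2]]⟩,
   ⟨(-2),0,[[3],[2,5],[1],[0,3]],[0],[[],[],[1,2],[1]]⟩,
   ⟨(-2),0,[[2],[5],[1],[0,3]],[0],[[],[],[],[0]]⟩,
   ⟨2,0,[[2],[5,1],[0,3],[2]],[2],[[],[3,0],[1]]⟩,
   ⟨(-2),3,[[0,4,2],[3],[0,3]],[2],[[1,2],[3,0]]⟩,
   ⟨(-2),4,[[0,3],[2],[5,1,2]],[2],[[3],[0],[3],[2]]⟩,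
   ⟨2,3,[[1],[3],[5,1,2]],[2],[]⟩,
   ⟨2,3,[[2],[2,1],[5,1,2]],[2],[[0],[2]]⟩,
   ⟨2,4,[[5,1,2],[3],[0]],[2],[[3],[0]]⟩,
   ⟨(-2),3,[[5,1],[3,0,4],[0]],[2],[[3,0],[1,2]]⟩,
   ⟨(-2),4,[[4,3],[0],[2]],[],[[3,0]]⟩,
   ⟨(-2),3,[[2],[2,1,3],[4,3]],[],[[0,3,0],[2,1,2]]⟩,
   ⟨(-2),0,[[1],[4,3],[3],[1]],[2],[[],[3,0],[1],[1,2]]⟩,
   ⟨(-2),6,[[2],[4],[0]],[2],[]⟩]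

def e7_4 : List En :=
  [⟨2,6,[[2,5],[4],[0]],[2],[[],[],[],[0]]⟩,
   ⟨2,3,[[0,4],[4,3],[0]],[2],[]⟩,
   ⟨(-2),4,[[5,1],[4,3],[0]],[2],[[3,0]]⟩,
   ⟨2,3,[[0],[0,4,3],[5,1]],[2],[[0],[2]]⟩,
   ⟨(-2),4,[[1],[2,5,1],[5,1]],[2],[[1,3,0],[1,2],[3,0],[0]]⟩,
   ⟨2,4,[[1],[0,4,3],[3]],[2],[[],[2],[3,0],[0]]⟩,
   ⟨(-2),4,[[2,5],[1],[5,1]],[2],[[3,0],[],[3],[2]]⟩,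
   ⟨(-2),3,[[0],[1,1,4],[2,5]],[2],[[1,1],[3,3]]⟩,
   ⟨(-2),3,[[4,1],[0],[2,5]],[2],[[1,2],[3,0]]⟩,
   ⟨2,4,[[5],[0],[2,5]],[2],[[3,0]]⟩,
   ⟨(-2),4,[[1,2,5],[4,3],[3]],[2],[[3],[0],[3,0],[0]]⟩,
   ⟨2,4,[[1,2,5],[4,3],[5]],[2],[[3],[0],[0],[3,0]]⟩]

def e7 : List En := e7_0 ++ e7_1 ++ e7_2 ++ e7_3 ++ e7_4

theorem c7 : check l6 r7 [] e7 = true := by decide +kernel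

def e8_0 : List En :=
  [⟨(-1),3,[[4],[4,4,3],[0]],[],[[0,0],[2,2]]⟩,
   ⟨(-1),3,[[5,3,5],[4],[0]],[],[[3,1,2],[1,3,0]]⟩,
   ⟨(-1),4,[[0],[4],[2,4]],[],[[3,0],[],[3],[2]]⟩,
   ⟨1,0,[[0],[2],[4],[5]],[],[]⟩,
   ⟨1,1,[[0,2,4],[4]],[],[[0],[1]]⟩,
   ⟨(-1),6,[[0],[2],[4]],[],[]⟩,
   ⟨(-1),4,[[2,4],[5],[4]],[],[[3],[0],[0],[1]]⟩]

def e8 : List En := e8_0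

theorem c8 : check l7 r8 [] e8 = true := by decide +kernel

def e9_0 : List En :=
  [⟨(-1),7,[[0],[2],[1,4]],[],[[2],[2],[2],[3],[2]]⟩,
   ⟨(-1),0,[[0],[2],[1],[4]],[],[[],[],[],[2],[0]]⟩]

def e9 : List En := e9_0

theorem c9 : check l8 r9 [] e9 = true := by decide +kernel

def e10_0 : List En :=
  [⟨(-2),3,[[0],[4,1],[0]],[],[[3,0],[1,2]]⟩,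
   ⟨1,3,[[4,2,1],[0],[0]],[],[[1,2],[3,0]]⟩,
   ⟨2,4,[[0],[0],[3]],[],[[1,1],[1]]⟩,
   ⟨(-1),4,[[0],[1],[5,3,0]],[],[[],[0],[2],[3]]⟩,
   ⟨(-1),3,[[0],[1,2,4],[0]],[],[[1],[3]]⟩,
   ⟨1,6,[[5,3,0],[1],[0]],[],[[],[],[0],[0]]⟩,
   ⟨1,0,[[0],[1],[0],[0,2]],[],[[2],[],[],[3,3],[1]]⟩,
   ⟨1,0,[[1],[0],[2],[1]],[3],[[0],[],[1],[1,2]]⟩,
   ⟨1,0,[[3],[5],[0],[1]],[],[]⟩,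
   ⟨(-1),3,[[0,2,1],[0],[5,0]],[],[[2,1,2],[0,3,0]]⟩,
   ⟨(-1),3,[[3,1,3],[0,2],[5]],[0],[[3,3,0],[1,1,2]]⟩,
   ⟨(-1),9,[[1],[5,0],[1]],[],[[0,3,0],[3],[0],[1],[0]]⟩,
   ⟨1,0,[[4],[0],[1],[2]],[0],[]⟩,
   ⟨(-2),6,[[4,1],[1],[0]],[],[[0,0],[],[0],[1]]⟩,
   ⟨1,2,[[0],[0,5,0]],[0],[[3,1,2],[3,1,2]]⟩,
   ⟨1,3,[[1],[5,0],[0]],[],[[3,0],[1,2]]⟩,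
   ⟨1,0,[[2],[4],[0],[1]],[],[]⟩,
   ⟨(-1),3,[[3],[2,2,1],[4,0]],[],[[1,1],[3,3]]⟩,
   ⟨1,0,[[4],[3,1],[0],[1]],[],[[1],[1]]⟩,
   ⟨(-1),0,[[4,0],[3],[1],[4,0]],[0],[[],[3,0],[1],[1,2,1,2],[0]]⟩,
   ⟨(-1),3,[[4],[5,0,5],[3,1]],[0],[[1,3,0],[3,1,2]]⟩,
   ⟨1,4,[[4,3,0],[1],[0]],[],[[3],[0],[0],[1]]⟩,
   ⟨(-1),2,[[0],[2,5,0]],[0],[[1,2],[1,2]]⟩,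
   ⟨1,7,[[0],[5,0],[0,2]],[0],[[3],[3],[3,1,2],[2],[3],[1,2]]⟩,
   ⟨(-1),4,[[5],[1],[3,1,1]],[0],[[3,0],[],[3,3],[2,2]]⟩,
   ⟨1,4,[[5,0],[0],[3,1,1]],[0],[[3,0,0],[1],[2,2],[3,3]]⟩,
   ⟨(-1),0,[[3],[4,0],[1],[4,0]],[0],[[1],[1]]⟩,
   ⟨(-1),3,[[2],[1,4,0],[4,0]],[],[]⟩,
   ⟨1,3,[[0,0,2],[1],[4,0]],[],[[3,3],[1,1]]⟩,
   ⟨(-1),0,[[4],[3,0,5],[0],[4]],[],[[0],[0,3,0],[1],[1,2]]⟩,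
   ⟨1,3,[[0],[1,5],[3,0,5]],[0],[[1],[3]]⟩,
   ⟨(-1),4,[[1],[5],[3,0,5]],[0],[[3,0],[],[3],[2]]⟩,
   ⟨(-1),0,[[3,0],[1,4],[0],[1]],[],[[3,0],[],[0],[],[1]]⟩,
   ⟨1,3,[[1],[2,0],[1,4]],[0],[[3,0],[1,2]]⟩,
   ⟨1,3,[[3,1],[2],[1,4,0]],[],[[3],[1]]⟩,
   ⟨1,0,[[3],[4],[0],[1]],[],[]⟩,
   ⟨(-1),6,[[3],[0],[4]],[0],[]⟩,
   ⟨(-1),3,[[5],[5,1,4],[4]],[0],[[0,3,0],[2,1,2]]⟩,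
   ⟨(-1),6,[[0],[3,0],[4]],[0],[[],[1,2],[],[1,2]]⟩,
   ⟨(-1),0,[[2,5],[4],[0],[1]],[],[]⟩,
   ⟨1,3,[[4,3],[1],[4,0]],[],[]⟩,
   ⟨1,3,[[1,2,1],[4],[4]],[0],[]⟩,
   ⟨1,9,[[5],[1],[5,1,2]],[0],[[3],[3],[2],[3]]⟩,
   ⟨(-1),3,[[3,0,4],[2],[4]],[0],[[3],[1]]⟩,
   ⟨(-1),0,[[3,0,4],[4],[0],[4]],[],[[1],[1,1],[1],[1]]⟩,
   ⟨1,3,[[5,1,2],[0],[4]],[0],[]⟩,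
   ⟨1,6,[[0],[1,3],[4,0]],[],[[],[],[],[2]]⟩,
   ⟨(-1),6,[[3,0],[1],[4,0]],[],[[],[],[],[0]]⟩,
   ⟨1,4,[[1,3],[1,5],[4,0]],[],[[3,0],[],[0],[1]]⟩,
   ⟨(-1),6,[[1,5],[4],[4,0]],[],[[],[2,0],[3],[0]]⟩,
   ⟨1,4,[[4,0],[1,5],[1]],[],[[],[0],[1]]⟩,
   ⟨1,7,[[1],[3,1],[0,5]],[],[[2],[2],[2,1,2],[3],[2],[1,2]]⟩,
   ⟨(-1),3,[[5],[1],[3,1]],[],[]⟩,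
   ⟨(-1),0,[[1],[3,1],[5],[1]],[4],[[1],[1,3,0],[1],[1,2]]⟩,
   ⟨1,0,[[1],[3],[5],[1]],[4],[[],[3,0],[1],[1,2]]⟩,
   ⟨1,3,[[5,1],[5],[3]],[],[[2],[0]]⟩,
   ⟨(-1),4,[[0],[4,0],[3]],[],[[1,3,0],[1,2]]⟩,
   ⟨1,9,[[1,5],[0],[2]],[],[]⟩,
   ⟨1,9,[[1,5],[1,3],[1,5]],[],[[3,0],[3,3,0],[0],[1],[],[3,0]]⟩,
   ⟨1,0,[[5,1],[0,3],[0],[1]],[],[[],[],[1],[],[0]]⟩]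

def e10_1 : List En :=
  [⟨(-1),0,[[5],[0,3],[0],[1]],[],[]⟩,
   ⟨(-1),3,[[2,1,4],[1],[0]],[],[]⟩,
   ⟨(-1),4,[[0],[0],[5,0,3]],[],[[1,1],[1]]⟩,
   ⟨(-1),7,[[1],[1,4],[0,0,2]],[],[[2,2],[2,2],[2,2],[3,3],[2,2],[3]]⟩,
   ⟨(-1),4,[[1,4],[1],[3,0]],[],[[3,0],[3,0],[2],[3]]⟩,
   ⟨1,4,[[1,4,0],[1],[3,0]],[],[[3],[0,3,0],[2],[3]]⟩]

def e10 : List En := e10_0 ++ e10_1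

theorem c10 : check l9 r10 [] e10 = true := by decide +kernel

def e11_0 : List En :=
  [⟨1,3,[[3,1,2],[3,0],[5]],[],[[1,2,1,2],[0,3,0,0]]⟩,
   ⟨(-1),0,[[5],[4],[5],[1,2,1]],[],[[],[],[],[3],[1]]⟩,
   ⟨(-1),3,[[4],[1,2,1],[4]],[5],[]⟩,
   ⟨1,6,[[0,3],[0],[4]],[5],[[],[],[],[3,0]]⟩,
   ⟨1,3,[[4,0],[2,1],[4]],[5],[]⟩,
   ⟨1,4,[[0,5,5],[4],[4]],[5],[[3,1],[0,0],[1],[0]]⟩,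
   ⟨(-1),2,[[5],[5,1,5]],[5],[[3,1,2],[3,1,2]]⟩,
   ⟨1,1,[[0,5],[5]],[],[[0],[1]]⟩,
   ⟨1,9,[[4],[0,4],[4]],[],[[1,3,0],[3,1,2],[0],[1],[1],[1,2]]⟩,
   ⟨1,0,[[1,5],[4],[5],[4,2,1]],[],[[3],[1,2],[],[],[1]]⟩,
   ⟨(-1),2,[[5],[5,0,5]],[5],[[3,1,2],[3,1,2]]⟩,
   ⟨1,3,[[5,0],[5,0,5],[5]],[],[[0,2],[2,0]]⟩,
   ⟨(-1),9,[[4],[0],[1]],[],[[0],[],[],[],[0]]⟩,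
   ⟨(-2),4,[[4,1,1],[1],[0]],[],[[3,0,0,0],[1,1],[0],[1]]⟩,
   ⟨1,0,[[2],[4,1],[0],[1]],[],[[1],[1]]⟩,
   ⟨(-1),3,[[0,3],[2,1,2],[4,1]],[0],[[1,1,2],[3,3,0]]⟩,
   ⟨(-1),8,[[0],[2,4,0],[1]],[],[[0],[0],[2,1,2],[1,2],[1],[0]]⟩,
   ⟨(-1),10,[[0],[1,5,0],[1,3,0]],[],[[2,1,2],[2,1,2],[2,1,2],[2,1,2]]⟩,
   ⟨(-2),4,[[2,1],[0],[0]],[],[[3],[0],[1],[0]]⟩,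
   ⟨1,4,[[4,2,0],[0],[0]],[],[[3,0,0],[1],[1],[0]]⟩,
   ⟨1,0,[[4],[2,1],[0],[1]],[],[[1],[1]]⟩,
   ⟨(-1),3,[[0,5,0],[0,5],[2,1]],[0],[[2,0],[0,2]]⟩,
   ⟨1,0,[[1],[4],[3],[1]],[2],[[],[3,0],[1],[1,2]]⟩,
   ⟨(-1),0,[[1],[4,1],[3],[1]],[2],[[1],[1,3,0],[1],[1,2]]⟩,
   ⟨1,7,[[1],[4,1],[0,0,3]],[],[[2,2],[2,2],[2,2,1,2],[3,3],[2,2],[1,2]]⟩,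
   ⟨(-1),3,[[1,3],[1],[4,1]],[],[[2],[0]]⟩,
   ⟨1,0,[[5],[2,1],[0],[1]],[],[[1],[1]]⟩,
   ⟨(-1),0,[[5],[2,1],[0],[5]],[],[[],[3,0],[1],[1,2]]⟩,
   ⟨(-1),3,[[4],[5,0,3],[0]],[],[[1],[3]]⟩,
   ⟨1,4,[[2],[5],[0]],[],[[3,0]]⟩,
   ⟨(-1),3,[[3,4,3],[3,4],[0]],[],[[2,0],[0,2]]⟩,
   ⟨1,4,[[5],[2],[0]],[],[[3,0]]⟩,
   ⟨(-1),4,[[5],[4,2],[0]],[],[[],[2]]⟩,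
   ⟨(-1),9,[[4],[2,1],[1]],[],[[1],[],[],[],[1]]⟩,
   ⟨1,4,[[2,1],[4],[0]],[],[[3,0]]⟩]

def e11 : List En := e11_0

theorem c11 : check l10 r11 [] e11 = true := by decide +kernel

def e12_0 : List En :=
  [⟨1,0,[[0],[4],[2],[6]],[3],[]⟩,
   ⟨1,11,[[0,4,7],[0,4],[3]],[3],[[3,0],[3,0]]⟩,
   ⟨1,0,[[7],[4],[2],[1]],[3],[]⟩,
   ⟨(-1),3,[[7,1],[6],[4,2]],[3],[[3],[1]]⟩,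
   ⟨1,11,[[7,4,0],[1],[2]],[],[[0],[0]]⟩]

def e12 : List En := e12_0

theorem c12 : check l11 r12 [] e12 = true := by decide +kernel

def e13_0 : List En :=
  [⟨1,0,[[4],[1],[6],[3,4]],[],[[],[],[1,2],[1,2]]⟩,
   ⟨1,0,[[5],[1],[6],[3]],[],[]⟩,
   ⟨1,3,[[6,3,4],[6,3],[1]],[6],[[2],[0]]⟩,
   ⟨(-1),0,[[1],[6],[3],[5]],[2],[]⟩,
   ⟨(-1),0,[[4,1],[6],[3],[4]],[2],[[],[3,0],[3,0]]⟩,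
   ⟨1,3,[[0],[0,5],[6,3]],[2],[[0],[2]]⟩,
   ⟨(-1),3,[[5],[5,7,0],[3]],[2],[[0],[2]]⟩]

def e13 : List En := e13_0

theorem c13 : check l12 r13 [] e13 = true := by decide +kernel

def e14_0 : List En :=
  [⟨(-1),11,[[7],[6,0,4],[3]],[3],[[2],[2]]⟩,
   ⟨(-1),11,[[7,0,5],[0,5],[3]],[3],[[1],[1]]⟩,
   ⟨1,3,[[1],[2,0,5],[7]],[],[]⟩,
   ⟨1,0,[[0],[7],[2],[0,5]],[3],[[],[3,0],[3]]⟩,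
   ⟨(-1),0,[[0],[7],[2],[5]],[3],[]⟩,
   ⟨1,11,[[0,7],[6,5],[2]],[],[[0],[0]]⟩,
   ⟨(-1),13,[[6,1],[7],[5],[3]],[],[[0],[0],[0],[0]]⟩,
   ⟨1,3,[[4],[6,5],[0,7,3]],[],[[3,0],[1,2]]⟩,
   ⟨(-1),4,[[0,7],[4],[2]],[3],[[3,0]]⟩,
   ⟨1,11,[[0,4],[6,4],[3]],[3],[]⟩,
   ⟨(-1),0,[[0],[7],[2],[4]],[3],[]⟩,
   ⟨1,0,[[0],[7],[2],[0,4]],[3],[[],[3,0],[3]]⟩,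
   ⟨1,3,[[2,0,4],[1],[7]],[],[]⟩,
   ⟨(-1),3,[[5],[4,1],[1,3,7]],[],[[1],[3]]⟩,
   ⟨1,13,[[2,0],[0],[5],[7]],[],[]⟩,
   ⟨(-1),13,[[2,0],[3],[4],[7]],[],[[2],[2],[0],[0]]⟩,
   ⟨1,3,[[3,4],[2],[1,3,7]],[],[[3],[1]]⟩]

def e14 : List En := e14_0

theorem c14 : check l13 r14 [] e14 = true := by decide +kernel

def e15_0 : List En :=
  [⟨1,0,[[0],[2],[4],[6]],[5],[]⟩,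
   ⟨1,11,[[0,2],[6],[4]],[],[]⟩]

def e15 : List En := e15_0

theorem c15 : check l14 r15 [] e15 = true := by decide +kernel

def e16_0 : List En :=
  [⟨1,11,[[0,2],[6],[4]],[],[]⟩,
   ⟨1,0,[[0],[2],[4],[6]],[5],[]⟩,
   ⟨(-1),11,[[2],[6],[4]],[],[]⟩,
   ⟨(-1),11,[[0],[6],[2,4]],[2],[]⟩]

def e16 : List En := e16_0

theorem c16 : check l15 r16 [] e16 = true := by decide +kernel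

def e17_0 : List En :=
  [⟨1,0,[[0],[2],[4],[6]],[5],[]⟩,
   ⟨1,11,[[0,2],[6],[4]],[],[]⟩,
   ⟨(-1),11,[[2],[6],[4]],[],[]⟩]

def e17 : List En := e17_0

theorem c17 : check l16 r17 [] e17 = true := by decide +kernel

def e18_0 : List En :=
  [⟨1,11,[[0,2],[6],[4]],[3],[]⟩,
   ⟨(-1),11,[[2],[6],[4]],[3],[]⟩,
   ⟨(-1),11,[[0],[6],[2,4]],[],[]⟩,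
   ⟨1,0,[[0],[2],[4],[6]],[5,3],[]⟩,
   ⟨1,11,[[0],[4,6],[2]],[],[]⟩,
   ⟨(-1),11,[[0],[4],[2]],[],[]⟩]

def e18 : List En := e18_0

theorem c18 : check l17 r18 [] e18 = true := by decide +kernel

def e19_0 : List En :=
  [⟨1,0,[[0],[2],[4],[6]],[],[]⟩,
   ⟨1,11,[[0],[4,6],[2]],[2,4],[]⟩]

def e19 : List En := e19_0

theorem c19 : check l18 r19 [] e19 = true := by decide +kernel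

def e20_0 : List En :=
  [⟨1,4,[[0],[2],[4]],[],[[3,0]]⟩]

def e20 : List En := e20_0

theorem c20 : check l19 r20 [] e20 = true := by decide +kernel

def e21_0 : List En :=
  [⟨1,0,[[4,1],[6],[0],[2]],[],[[],[],[],[],[0]]⟩,
   ⟨(-1),0,[[4,2],[6],[0],[2]],[],[[],[],[1],[1]]⟩]

def e21 : List En := e21_0

theorem c21 : check l20 r21 [] e21 = true := by decide +kernel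

def e22_0 : List En :=
  [⟨1,0,[[2],[6,1],[4],[0]],[5],[[0],[0]]⟩,
   ⟨1,0,[[2],[6,3],[5],[0]],[],[]⟩,
   ⟨1,16,[[2,1],[5],[0,7],[2]],[],[[],[3,0],[3,0]]⟩,
   ⟨1,18,[[2,1],[4],[2,7],[2]],[],[[],[3,0],[3,0],[3],[3]]⟩]

def e22 : List En := e22_0

theorem c22 : check l21 r22 [] e22 = true := by decide +kernel

def e23_0 : List En :=
  [⟨1,9,[[4],[1],[3,6]],[],[]⟩,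
   ⟨1,9,[[4],[1],[3,7]],[],[]⟩,
   ⟨(-1),9,[[4],[1,2],[6]],[],[]⟩,
   ⟨(-1),9,[[4],[1,2],[7]],[],[]⟩,
   ⟨(-1),7,[[4],[2],[4,7,1]],[],[[3],[3],[3],[2],[3]]⟩,
   ⟨1,20,[[2,5],[5],[0,6]],[],[[],[],[1],[0]]⟩,
   ⟨(-1),18,[[5],[4],[3],[7,1]],[],[]⟩,
   ⟨(-1),4,[[5],[4],[0,6,2]],[],[[],[0]]⟩,
   ⟨1,3,[[5],[3,6,1],[5]],[],[]⟩,
   ⟨1,3,[[7],[3,0,5],[5]],[],[]⟩,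
   ⟨1,12,[[4,1],[3],[5],[7]],[],[[],[],[],[1],[],[],[1,2]]⟩,
   ⟨1,12,[[4,1],[3],[5],[6]],[],[[],[],[],[1],[],[],[1,2]]⟩,
   ⟨1,3,[[3,0,5],[6],[5]],[],[]⟩,
   ⟨1,22,[[6],[4],[3],[1]],[],[]⟩,
   ⟨1,22,[[7],[4],[3],[1]],[],[]⟩,
   ⟨(-2),18,[[4],[3],[4,0],[4]],[],[[],[3,0],[1],[3,1,2],[3]]⟩,
   ⟨(-1),3,[[0,5],[0,6],[2]],[],[]⟩,
   ⟨(-1),3,[[0,5],[0,7],[2]],[],[]⟩,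
   ⟨1,13,[[0,5],[1],[6],[2]],[],[[],[],[0],[0]]⟩,
   ⟨(-1),3,[[0],[6],[4,1,2]],[],[]⟩,
   ⟨1,9,[[4],[2],[6,1]],[],[]⟩,
   ⟨(-1),12,[[0,7],[4],[2],[5]],[],[[],[1],[],[],[],[3]]⟩,
   ⟨1,11,[[2,0,7],[2],[4]],[],[[3,0],[3,0]]⟩,
   ⟨1,11,[[6],[0,5,6],[3]],[],[[1,2],[1,2]]⟩,
   ⟨1,11,[[4,1],[7],[2]],[2],[]⟩,
   ⟨(-1),12,[[7],[2],[4,1],[7]],[2],[[],[],[3,0],[3,0],[1,2],[1,2]]⟩,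
   ⟨(-1),20,[[3],[7],[4,1]],[2],[]⟩]

def e23 : List En := e23_0

theorem c23 : check l22 r23 [] e23 = true := by decide +kernel

def e24_0 : List En :=
  [⟨1,9,[[1],[7],[5,2]],[],[]⟩,
   ⟨(-1),9,[[1],[7,4],[2]],[],[]⟩,
   ⟨1,9,[[1],[4],[2,7]],[],[]⟩,
   ⟨1,9,[[3],[7],[5,0]],[],[]⟩,
   ⟨(-1),9,[[3],[7,4],[0]],[],[]⟩,
   ⟨(-1),12,[[6,3],[5],[0],[0]],[],[[],[],[1],[],[],[],[],[1]]⟩,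
   ⟨(-1),3,[[2,7],[5,0],[0]],[],[]⟩,
   ⟨1,11,[[0],[0,2,7],[4]],[4],[[3],[3]]⟩,
   ⟨1,12,[[1],[5],[2],[6,2]],[],[[],[],[],[],[],[],[],[1,2]]⟩,
   ⟨1,3,[[0],[5,6,2],[2]],[],[]⟩,
   ⟨1,12,[[1,7],[5],[0],[2]],[],[[],[],[],[],[],[],[1,2]]⟩,
   ⟨(-1),3,[[6,0],[1,2],[4]],[],[[],[3,0]]⟩,
   ⟨1,3,[[5,6,0],[2],[0]],[],[]⟩,
   ⟨1,22,[[0],[3],[5],[7]],[],[]⟩,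
   ⟨(-1),18,[[3],[5],[3,6],[3]],[],[[],[3,0],[1],[3,1,2],[3]]⟩,
   ⟨1,11,[[3,7,1],[0],[5]],[],[[0],[0]]⟩,
   ⟨1,22,[[2],[1],[5],[7]],[],[]⟩,
   ⟨(-1),17,[[1],[5],[1,6],[1]],[4],[[],[3,0],[1],[3,1,2],[3]]⟩,
   ⟨1,11,[[1,7,2],[2],[5]],[],[[1],[1]]⟩,
   ⟨1,3,[[5,0,7],[2],[2]],[],[]⟩,
   ⟨1,9,[[3],[4],[0,7]],[],[]⟩,
   ⟨(-1),12,[[6,1],[3],[4],[2]],[],[[],[1],[],[],[],[3]]⟩,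
   ⟨1,11,[[4],[4,0,7],[2]],[2],[[3],[3]]⟩]

def e24 : List En := e24_0

theorem c24 : check l23 r24 [] e24 = true := by decide +kernel

def e25_0 : List En :=
  [⟨1,0,[[1,6],[3],[0],[1]],[],[[],[3,0],[3,0]]⟩,
   ⟨(-1),9,[[1],[6,5],[3]],[],[]⟩,
   ⟨(-1),17,[[0],[6],[4],[2]],[],[]⟩,
   ⟨(-1),17,[[1],[6],[4],[2]],[],[]⟩,
   ⟨1,3,[[4,7,0],[3],[0]],[],[]⟩,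
   ⟨1,12,[[1,6],[4],[0],[3]],[],[[],[],[],[],[],[],[1,2]]⟩,
   ⟨1,9,[[1],[6],[4,3]],[],[]⟩,
   ⟨1,3,[[0],[4,3,6],[0]],[],[]⟩,
   ⟨(-1),3,[[7,3],[2,0],[5]],[],[[],[3,0]]⟩,
   ⟨1,4,[[3],[7,0],[1]],[0],[[3,0],[],[],[1]]⟩,
   ⟨(-1),11,[[1],[1,7,0],[2]],[],[[3],[3]]⟩,
   ⟨1,4,[[1],[1,6],[2]],[3],[[3,0],[3]]⟩,
   ⟨1,11,[[4],[2,1,4],[6]],[6],[[1,2],[1,2]]⟩,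
   ⟨(-1),11,[[1,1,3],[1],[7]],[],[[3,0],[3,0]]⟩,
   ⟨1,4,[[1],[1,3],[7]],[6],[[3,0],[3]]⟩,
   ⟨1,11,[[6,1,3],[6],[5]],[5],[[3,0],[3,0]]⟩,
   ⟨(-1),16,[[0],[5],[7],[0,2]],[],[[],[3,0],[3]]⟩,
   ⟨1,3,[[0,2],[4,1],[6]],[],[[3,0]]⟩,
   ⟨(-1),3,[[7,0,2],[1],[5]],[],[]⟩,
   ⟨1,17,[[1],[3,5],[7],[0]],[],[[],[],[0]]⟩,
   ⟨(-1),3,[[4,2,0],[0],[6]],[],[]⟩,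
   ⟨1,13,[[0],[5],[1,3],[6]],[],[]⟩,
   ⟨(-1),3,[[4],[1,3],[1,6]],[],[]⟩,
   ⟨1,11,[[6,2,0],[6],[5]],[5],[[3,0],[3,0]]⟩,
   ⟨1,17,[[1],[6],[4],[1,3]],[],[[],[3,0],[3]]⟩,
   ⟨(-1),15,[[1],[6],[4],[3]],[],[]⟩,
   ⟨1,22,[[3],[1],[4],[6]],[],[]⟩,
   ⟨(-1),0,[[1],[6,0],[5],[1]],[],[[0],[0,3,0],[1],[1,2]]⟩,
   ⟨1,11,[[3],[7,0,3],[5]],[5],[[1,2],[1,2]]⟩,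
   ⟨(-1),16,[[1],[5],[7],[0,2]],[],[[],[],[2]]⟩,
   ⟨1,3,[[0,2],[4,0],[6]],[],[]⟩,
   ⟨(-1),3,[[7,0,2],[0],[5]],[],[]⟩,
   ⟨1,4,[[3,1,6],[0],[5]],[],[[3,0]]⟩,
   ⟨(-1),13,[[0,2],[5],[1],[6]],[],[]⟩,
   ⟨1,22,[[4],[0],[7],[3]],[],[]⟩,
   ⟨2,3,[[1],[4],[3,1,6]],[],[]⟩,
   ⟨(-1),4,[[3,1],[0],[7]],[6],[[3],[0]]⟩,
   ⟨(-1),17,[[0],[3,1],[6],[0]],[6],[[0],[0,3,0],[1],[1,2]]⟩,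
   ⟨1,20,[[3,7,0],[0],[5]],[],[[],[],[1],[0]]⟩,
   ⟨1,3,[[1],[4],[3,7,0]],[],[]⟩,
   ⟨1,9,[[1],[5],[3,6]],[],[]⟩,
   ⟨(-1),12,[[1],[1],[5],[3,6]],[],[[1],[],[],[],[3]]⟩,
   ⟨1,11,[[5],[4,3,6],[1]],[],[[2],[2]]⟩,
   ⟨1,3,[[2],[0,7,0],[5]],[],[]⟩,
   ⟨1,23,[[2],[5],[1],[1,6]],[],[[],[],[],[],[],[],[],[],[],[],[1,2],[],[2],[],[],[],[],[],[0],[],[],[],[],[],[],[3],[],[2],[1,2],[],[],[],[],[],[],[],[],[],[],[],[2],[1,2]]⟩,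
   ⟨(-1),4,[[5],[0],[2,1,6]],[],[[3,0]]⟩,
   ⟨1,14,[[0],[4],[1,6],[2]],[],[[],[],[],[],[],[1,2]]⟩,
   ⟨1,13,[[0],[5],[1,6],[3]],[],[]⟩,
   ⟨(-1),12,[[3],[4],[0],[7,0]],[],[[],[],[],[],[],[],[],[1,2]]⟩,
   ⟨(-1),12,[[7,0],[4],[0],[2]],[],[[],[],[],[],[],[],[2]]⟩,
   ⟨(-1),3,[[4],[1,6],[1,3]],[],[]⟩,
   ⟨(-1),3,[[4,2],[1,6],[0]],[],[]⟩,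
   ⟨(-1),3,[[7,0],[4,2],[0]],[],[]⟩]

def e25 : List En := e25_0

theorem c25 : check l24 r25 [] e25 = true := by decide +kernel

def e26_0 : List En :=
  [⟨1,17,[[6],[4],[1],[3]],[],[]⟩,
   ⟨1,0,[[0],[0,4],[6],[0]],[7],[[3,0],[3,0],[1],[1,2]]⟩,
   ⟨1,9,[[0],[7],[3,4]],[],[]⟩,
   ⟨(-1),9,[[0],[7,2],[4]],[],[]⟩,
   ⟨(-1),9,[[1],[2,4],[7]],[],[]⟩,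
   ⟨1,9,[[2],[0,4],[7]],[],[]⟩,
   ⟨(-1),9,[[2],[4],[7,0]],[],[]⟩,
   ⟨1,17,[[6],[4],[3],[1]],[],[]⟩,
   ⟨1,22,[[2],[2],[5],[0]],[],[[0],[],[],[],[0,3,0],[3,0]]⟩,
   ⟨(-1),22,[[7],[2],[5],[0]],[],[]⟩,
   ⟨(-1),12,[[6],[5],[3],[1,3]],[],[[],[],[1],[],[],[],[],[1,2]]⟩,
   ⟨(-1),3,[[7],[5,1,3],[3]],[],[]⟩,
   ⟨(-1),9,[[2],[0],[5,7]],[],[]⟩,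
   ⟨1,9,[[1],[2],[5,7]],[],[]⟩,
   ⟨1,12,[[6],[5],[0],[3,0]],[],[[],[],[],[],[],[],[],[1,2]]⟩,
   ⟨1,3,[[7],[5,3,0],[0]],[],[]⟩,
   ⟨1,12,[[2],[5],[3],[7,0]],[],[[],[],[],[1],[],[],[1]]⟩,
   ⟨1,3,[[5,3],[7,0],[3]],[],[]⟩,
   ⟨(-1),11,[[3],[7,0],[5]],[],[]⟩,
   ⟨(-1),17,[[6,3],[4],[1],[3]],[],[[],[],[1],[1]]⟩,
   ⟨1,0,[[0],[6,2],[4],[0]],[],[[],[3,0],[1],[1,2]]⟩,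
   ⟨1,3,[[0],[5,7,2],[0]],[],[]⟩,
   ⟨1,3,[[1],[3,4,7],[1]],[],[]⟩,
   ⟨1,3,[[0,4],[0],[6,2]],[4],[[2],[0]]⟩,
   ⟨(-1),13,[[3,7],[2],[1],[4]],[],[[0],[0],[0],[0]]⟩,
   ⟨(-1),15,[[6,1],[4],[3],[1]],[],[[],[],[1]]⟩,
   ⟨1,3,[[3],[1],[6,2,4]],[],[]⟩,
   ⟨(-1),3,[[3,4],[6,1],[1]],[],[]⟩,
   ⟨1,12,[[5],[0],[2],[6,1]],[],[[],[3,0],[],[],[],[3,0]]⟩,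
   ⟨(-1),11,[[2],[2,6,1],[1]],[1],[[3],[3]]⟩,
   ⟨1,3,[[0,6,1],[4],[2]],[],[]⟩,
   ⟨1,22,[[4],[0],[3],[7]],[],[]⟩,
   ⟨(-1),15,[[0],[7,1],[2],[0]],[2],[[0],[0,3,0],[1],[1,2]]⟩,
   ⟨1,11,[[0,7,4],[4],[3]],[],[[1],[1]]⟩,
   ⟨1,4,[[0],[0,4],[6]],[7],[[3,0],[3]]⟩,
   ⟨1,6,[[2],[7,4],[0]],[],[]⟩,
   ⟨(-1),6,[[2,7],[4],[0]],[],[]⟩,
   ⟨1,9,[[0],[2],[4,7]],[],[]⟩,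
   ⟨(-1),12,[[6,5],[0],[2],[1]],[],[[],[1],[],[],[],[3]]⟩,
   ⟨1,11,[[2],[2,4,7],[0]],[],[[3],[3]]⟩,
   ⟨1,9,[[1],[4],[7,2]],[],[]⟩,
   ⟨(-1),12,[[3,6],[1],[4],[0]],[],[[],[1],[],[],[],[3]]⟩,
   ⟨1,11,[[4,3,6],[4],[1]],[],[[3,0],[3,0]]⟩,
   ⟨1,11,[[2],[2,0,7],[1]],[],[[3],[3]]⟩,
   ⟨(-1),20,[[2],[0,7],[1]],[0],[[3,0],[0]]⟩,
   ⟨1,11,[[4],[4,2,7],[1]],[],[[3],[3]]⟩,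
   ⟨1,11,[[4],[5,0,7],[2]],[2],[[2],[2]]⟩,
   ⟨1,11,[[4],[5,6,1],[3]],[],[[2],[2]]⟩,
   ⟨(-1),4,[[4],[6,1],[3]],[2],[[3,0]]⟩,
   ⟨1,11,[[7],[7,5,1],[3]],[],[[3],[3]]⟩,
   ⟨(-1),11,[[2,0],[7],[4]],[4],[]⟩,
   ⟨1,22,[[7],[1],[5],[2]],[],[]⟩,
   ⟨(-1),16,[[1],[2,0],[4],[1]],[4],[[0],[0,3,0],[1],[1,2]]⟩,
   ⟨1,11,[[1,2,7],[7],[4]],[4],[[1],[1]]⟩,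
   ⟨(-1),11,[[4,0,2],[3],[6]],[],[[0],[0]]⟩,
   ⟨1,12,[[0],[6],[4,0],[3]],[],[[],[],[],[0],[],[],[0]]⟩,
   ⟨1,3,[[3],[6,1],[4,0]],[],[]⟩,
   ⟨1,11,[[4,2,7],[4],[1]],[],[[3,0],[3,0]]⟩,
   ⟨(-1),13,[[5],[0],[0,7],[2]],[],[[],[],[],[],[3],[1]]⟩,
   ⟨(-1),12,[[6,1],[1],[2],[5]],[],[[1]]⟩]

def e26_1 : List En :=
  [⟨1,20,[[2],[0,7,4],[0]],[],[[],[1]]⟩,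
   ⟨1,3,[[0,7],[3,5],[0]],[],[]⟩,
   ⟨1,3,[[1,6,1],[5],[2]],[],[]⟩,
   ⟨1,3,[[3,0,7],[5],[0]],[],[]⟩,
   ⟨(-1),3,[[5,6,1],[3],[0]],[],[]⟩,
   ⟨(-1),12,[[4],[3],[0],[6,1]],[],[]⟩,
   ⟨(-1),13,[[5],[2],[6,1],[0]],[],[[],[],[],[],[],[],[],[3],[0],[3,0]]⟩,
   ⟨1,20,[[0],[0,7],[4,2]],[],[[],[],[3]]⟩,
   ⟨1,17,[[0],[4,2],[6],[1]],[],[[],[],[0]]⟩,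
   ⟨1,21,[[0],[3],[6],[4]],[],[]⟩,
   ⟨(-1),20,[[4],[6,3],[1]],[0],[]⟩,
   ⟨(-1),3,[[3],[0,7],[4,0]],[],[]⟩,
   ⟨1,20,[[2],[6,1],[4,0]],[],[]⟩,
   ⟨1,3,[[1,5],[6,1],[2]],[],[]⟩,
   ⟨(-1),3,[[3,5,1],[1],[7]],[],[]⟩,
   ⟨(-1),8,[[2,7],[4],[0]],[],[]⟩,
   ⟨(-1),20,[[4,0],[0],[2,7]],[],[[],[],[1],[0]]⟩,
   ⟨(-1),3,[[0],[6,3],[4,0]],[],[]⟩,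
   ⟨1,13,[[1],[2],[0,4],[7]],[],[]⟩,
   ⟨(-1),3,[[0,4],[3],[0,7]],[],[]⟩,
   ⟨1,15,[[5],[7],[3],[1]],[],[]⟩,
   ⟨1,12,[[0],[3],[7],[0,4]],[],[[],[],[3,0]]⟩,
   ⟨(-1),17,[[5,1],[7],[3],[1]],[],[[],[],[1]]⟩]

def e26 : List En := e26_0 ++ e26_1

theorem c26 : check l25 r26 [] e26 = true := by decide +kernel

def e27_0 : List En :=
  [⟨1,3,[[1],[1,3,4],[6]],[],[[0],[2]]⟩,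
   ⟨(-1),3,[[4],[3],[6]],[],[]⟩,
   ⟨(-1),3,[[1,4,3],[2],[6]],[],[[1,2],[3,0]]⟩,
   ⟨3,11,[[3],[4,3],[7]],[],[[1,2],[1,2]]⟩,
   ⟨1,3,[[4],[3],[7]],[6],[]⟩,
   ⟨2,0,[[0],[4,0],[0],[0]],[],[[1],[1,3,0],[1],[3,1],[1]]⟩,
   ⟨(-1),3,[[4,0],[5],[0]],[],[[3],[1]]⟩,
   ⟨(-1),11,[[4],[4,0],[0]],[0],[[3],[3]]⟩,
   ⟨1,15,[[1],[0,4],[0],[0]],[0],[[3,0],[],[0],[2,0],[0]]⟩,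
   ⟨(-2),0,[[2],[3,4],[3],[3]],[],[[3,0],[],[0],[2,0],[0]]⟩,
   ⟨(-2),3,[[2,5],[3],[3]],[],[[3],[1]]⟩,
   ⟨1,15,[[3],[4,2],[2],[3]],[],[[0],[0,3,0],[1],[],[0]]⟩,
   ⟨1,0,[[6],[1],[0],[1]],[1],[[1],[1]]⟩,
   ⟨1,19,[[1],[0,6],[1],[0]],[],[[3,0],[],[0],[],[1]]⟩,
   ⟨2,0,[[6,0],[0],[1],[0]],[0],[[1],[1,1],[],[],[0]]⟩,
   ⟨(-2),4,[[6,0,0],[1],[0]],[],[[3,1],[0,0],[0],[1]]⟩,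
   ⟨2,6,[[1],[0,6,1],[0]],[],[[0],[2,2,1,2],[0,3,0],[2,1,2]]⟩,
   ⟨1,15,[[0],[6,0],[1],[0]],[],[[1],[1,3,0],[1],[],[0]]⟩,
   ⟨6,0,[[6,4],[4],[5],[4]],[],[[1],[1,1],[],[],[0]]⟩,
   ⟨6,3,[[6,6,4],[7],[5]],[],[[3,3],[1,1]]⟩,
   ⟨(-2),15,[[5],[6,4],[4],[5]],[],[[0],[0,3,0],[1],[],[0]]⟩,
   ⟨2,4,[[5],[4],[6,5,5]],[],[[],[0],[2,2],[3,3]]⟩,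
   ⟨2,3,[[0],[5],[7]],[],[]⟩,
   ⟨(-4),11,[[4,1,5],[4],[7]],[7],[[0,3,0],[0,3,0]]⟩,
   ⟨(-3),3,[[5,0,5],[4],[6]],[7],[[3,1,2],[1,3,0]]⟩,
   ⟨2,0,[[0],[4],[7],[0]],[],[[],[3,0],[1],[1,2]]⟩,
   ⟨2,3,[[1],[7,0],[4]],[7],[[3,0],[1,2]]⟩,
   ⟨6,3,[[0],[5,1],[7]],[],[[3,0],[1,2]]⟩,
   ⟨(-4),11,[[4,0,4],[4],[7]],[7],[[1,3,0],[1,3,0]]⟩,
   ⟨4,20,[[4],[1],[6]],[7],[]⟩,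
   ⟨(-2),3,[[0],[5],[7,2]],[],[]⟩,
   ⟨(-1),3,[[0],[0,5],[6,2]],[],[[0],[2]]⟩,
   ⟨3,3,[[0],[0,7],[2,4]],[],[[0],[2]]⟩,
   ⟨(-2),3,[[0],[1,2],[6]],[7],[[1],[3]]⟩,
   ⟨1,11,[[3],[3,0],[6]],[],[[3],[3]]⟩,
   ⟨(-2),3,[[0,2,0],[1],[7]],[],[[3,1,2],[1,3,0]]⟩,
   ⟨2,3,[[0],[1,7],[2]],[],[[1],[3]]⟩,
   ⟨(-1),11,[[1,6],[7],[3]],[],[[0],[0]]⟩,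
   ⟨(-1),11,[[6,1],[0],[3]],[],[[0],[0]]⟩,
   ⟨1,0,[[0],[2],[7],[0]],[6],[[],[3,0],[1],[1,2]]⟩,
   ⟨(-1),3,[[6,1],[7],[2]],[],[[3],[1]]⟩,
   ⟨(-1),18,[[1],[6],[3],[1]],[6],[[],[3,0],[1],[1,2]]⟩,
   ⟨7,3,[[0,0,3],[0],[7]],[6],[[2,2],[0,0]]⟩,
   ⟨(-4),11,[[0],[3,0],[6]],[6],[[1,2],[1,2]]⟩,
   ⟨10,3,[[2,2,0],[3],[6]],[],[[3,3],[1,1]]⟩,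
   ⟨4,11,[[1],[0,0,3],[7]],[],[[2,2],[2,2]]⟩,
   ⟨2,11,[[3],[1,3],[6]],[6],[[1,2],[1,2]]⟩,
   ⟨(-10),3,[[0,3],[1],[6]],[],[[3],[1]]⟩,
   ⟨3,11,[[2,0],[1],[6]],[6],[[0],[0]]⟩,
   ⟨(-2),20,[[2],[0],[7]],[6],[]⟩,
   ⟨1,3,[[0],[4,1],[3]],[2],[[3,0],[1,2]]⟩,
   ⟨(-1),11,[[5,0,4],[5],[3]],[],[[0,3,0],[0,3,0]]⟩,
   ⟨(-2),3,[[0],[5,2],[7]],[],[]⟩,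
   ⟨(-2),3,[[0],[5,7],[0]],[],[]⟩,
   ⟨(-1),3,[[0],[7,1],[4]],[],[[3,0],[1,2]]⟩,
   ⟨(-1),11,[[6],[7,7,1],[4]],[4],[[2,2],[2,2]]⟩,
   ⟨2,3,[[7],[7,7,1],[5]],[4],[[0,0],[2,2]]⟩,
   ⟨(-1),11,[[0,6,1],[0],[5]],[],[[0,3,0],[0,3,0]]⟩,
   ⟨2,3,[[0],[7,2],[0]],[],[]⟩,
   ⟨1,3,[[0],[0,2,0],[7]],[],[[0],[2]]⟩]

def e27_1 : List En :=
  [⟨(-1),17,[[1],[3],[6],[0]],[],[[],[],[0]]⟩,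
   ⟨2,3,[[7,0],[6],[3]],[],[[3],[1]]⟩,
   ⟨(-1),11,[[1,7],[6],[3]],[3],[[0],[0]]⟩,
   ⟨1,11,[[7],[7,0],[2]],[],[[3],[3]]⟩,
   ⟨(-1),0,[[1],[7,0],[2],[1]],[3],[[0],[0,3,0],[1],[1,2]]⟩,
   ⟨1,11,[[7,0,0],[1],[3]],[3],[[0,0],[0,0]]⟩,
   ⟨(-2),3,[[7],[1,6],[3]],[],[[3,0],[1,2]]⟩,
   ⟨(-1),0,[[1],[3],[6],[1]],[7],[[],[3,0],[1],[1,2]]⟩,
   ⟨(-1),3,[[0],[0,2,5],[6]],[],[[0],[2]]⟩,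
   ⟨2,3,[[0],[0,4,2],[6]],[],[[0],[2]]⟩,
   ⟨(-1),3,[[0],[0,5,3],[6]],[],[[0],[2]]⟩,
   ⟨5,3,[[0],[0,6,1],[4]],[],[[0,3,0],[2,1,2]]⟩,
   ⟨(-2),4,[[4],[0],[7]],[],[[3,0]]⟩,
   ⟨(-2),11,[[6],[6,0,6],[5]],[],[[3,1,2],[3,1,2]]⟩,
   ⟨(-3),11,[[0,7,1],[0],[4]],[4],[[0,3,0],[0,3,0]]⟩,
   ⟨6,3,[[6,1,6],[7],[5]],[4],[[3,1,2],[1,3,0]]⟩,
   ⟨(-2),11,[[7,1,1],[1],[5]],[],[[1,1],[1,1]]⟩,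
   ⟨(-2),17,[[7],[4],[1],[7]],[],[[],[3,0],[1],[1,2]]⟩,
   ⟨2,3,[[6,5],[4],[0]],[],[[1,2],[3,0]]⟩,
   ⟨(-2),11,[[4],[5,5,6],[1]],[],[[2,2],[2,2]]⟩,
   ⟨(-4),11,[[4],[4,4,7],[0]],[0],[[3,3],[3,3]]⟩,
   ⟨2,12,[[1],[1],[4],[7]],[],[[1],[],[],[],[3]]⟩,
   ⟨(-2),9,[[1],[4],[7]],[],[]⟩,
   ⟨2,20,[[4],[7],[1]],[0],[]⟩,
   ⟨(-1),20,[[0],[7],[5]],[4],[]⟩,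
   ⟨(-1),3,[[0],[0,7,5],[3]],[],[[0],[2]]⟩,
   ⟨1,3,[[0],[1,1,7],[2]],[3],[[1,1],[3,3]]⟩,
   ⟨(-2),11,[[1],[0,0,7],[2]],[],[[2,2],[2,2]]⟩,
   ⟨2,3,[[1,7],[0],[3]],[],[[3],[1]]⟩,
   ⟨2,20,[[3],[6],[1]],[],[]⟩,
   ⟨2,4,[[1],[3],[7]],[],[[3,0]]⟩,
   ⟨2,3,[[3],[3,3,6],[1]],[],[[0,0],[2,2]]⟩,
   ⟨(-2),11,[[1,2],[1],[6]],[],[[3,0],[3,0]]⟩,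
   ⟨(-3),3,[[7],[2],[1]],[],[]⟩,
   ⟨1,11,[[3,6,2],[3],[0]],[],[[0,3,0],[0,3,0]]⟩,
   ⟨(-1),3,[[7,7,2],[7],[0]],[1],[[2,2],[0,0]]⟩,
   ⟨1,19,[[6],[1],[2],[6]],[3],[[],[3,0],[1],[1,2]]⟩,
   ⟨(-1),11,[[3,6],[6],[0]],[],[[1],[1]]⟩,
   ⟨2,20,[[6],[3],[1]],[],[]⟩,
   ⟨(-2),3,[[1],[1,2,0],[6]],[],[[0,3,0],[2,1,2]]⟩,
   ⟨3,3,[[6,3],[7],[1]],[],[[3],[1]]⟩,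
   ⟨(-2),11,[[2],[2,0,2],[7]],[],[[3,1,2],[3,1,2]]⟩,
   ⟨(-5),11,[[3,1],[3],[7]],[],[[3,0],[3,0]]⟩,
   ⟨(-1),11,[[2,6,2],[2],[0]],[],[[1,3,0],[1,3,0]]⟩,
   ⟨3,3,[[3,7,3],[2],[0]],[1],[[3,1,2],[1,3,0]]⟩,
   ⟨(-3),19,[[3],[1],[7],[3]],[6],[[],[3,0],[1],[1,2]]⟩,
   ⟨1,18,[[3],[6],[0],[3]],[6],[[],[3,0],[1],[1,2]]⟩,
   ⟨(-2),16,[[7],[2],[0],[7]],[],[[],[3,0],[1],[1,2]]⟩,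
   ⟨1,3,[[1],[1,6,0],[2]],[],[[0,3,0],[2,1,2]]⟩,
   ⟨1,11,[[7],[6,0],[3]],[],[[2],[2]]⟩,
   ⟨(-1),11,[[1,6],[6],[2]],[2],[[1],[1]]⟩,
   ⟨(-4),12,[[0],[7],[1],[3]],[],[[],[],[],[1],[],[],[1]]⟩,
   ⟨(-4),3,[[3],[7,1],[1]],[],[]⟩,
   ⟨4,9,[[0],[6],[3]],[],[]⟩,
   ⟨1,3,[[1,6,1],[0],[1]],[],[[3,1,2],[1,3,0]]⟩,
   ⟨1,10,[[1],[0],[6,1]],[],[[2,1,2],[],[1,2],[0]]⟩,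
   ⟨(-1),15,[[0],[1,7],[1],[1]],[1],[[3,0],[],[0],[2,0],[0]]⟩,
   ⟨1,19,[[7],[0],[1],[0]],[],[[1],[1]]⟩,
   ⟨1,3,[[7],[0,6],[1]],[],[[3,0],[1,2]]⟩,
   ⟨(-1),19,[[1],[6],[2],[1]],[3],[[],[3,0],[1],[1,2]]⟩]

def e27_2 : List En :=
  [⟨3,3,[[3,1,2],[3],[7]],[6],[[2,1,2],[0,3,0]]⟩,
   ⟨(-1),11,[[6],[6,1],[2]],[],[[3],[3]]⟩,
   ⟨3,3,[[6],[1,7],[3]],[],[[3,0],[1,2]]⟩,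
   ⟨2,11,[[7],[1,7],[3]],[3],[[1,2],[1,2]]⟩,
   ⟨(-5),11,[[0,3],[2],[7]],[],[[0],[0]]⟩,
   ⟨4,3,[[2],[2,1],[6]],[],[[0],[2]]⟩,
   ⟨(-2),12,[[1],[1],[6],[2]],[],[[1],[],[],[],[3]]⟩,
   ⟨1,3,[[3,7,0],[2],[0]],[],[[3],[1]]⟩,
   ⟨1,12,[[1],[7],[0],[2]],[],[[],[],[],[1],[],[],[1]]⟩,
   ⟨(-1),11,[[3,6],[3],[0]],[0],[[3,0],[3,0]]⟩,
   ⟨(-2),9,[[1],[7],[5]],[],[]⟩,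
   ⟨(-4),19,[[0],[3],[7],[0]],[6],[[],[3,0],[1],[1,2]]⟩,
   ⟨3,20,[[3],[1],[6]],[],[]⟩,
   ⟨4,9,[[0],[3],[7]],[],[]⟩,
   ⟨(-1),3,[[0],[1,3,4],[7]],[],[[1],[3]]⟩,
   ⟨(-3),3,[[0],[1,5,1],[2]],[],[[1,3,0],[3,1,2]]⟩,
   ⟨2,11,[[4],[5,1],[3]],[],[[2],[2]]⟩,
   ⟨1,11,[[0,4,4],[5],[2]],[2],[[0,0],[0,0]]⟩,
   ⟨(-1),4,[[0],[4],[3]],[2],[[3,0]]⟩,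
   ⟨2,3,[[0],[1,7,0],[3]],[],[[1],[3]]⟩,
   ⟨1,4,[[3],[7,0],[1]],[],[[3,0],[],[],[1]]⟩,
   ⟨(-1),3,[[3],[7,0,2],[1]],[],[[3,0],[1,2]]⟩,
   ⟨1,6,[[3],[6],[1]],[],[]⟩,
   ⟨(-1),16,[[1],[6],[2],[0]],[],[[],[],[0]]⟩,
   ⟨(-1),0,[[1],[6],[1],[2]],[],[[],[],[],[3],[1]]⟩,
   ⟨(-1),18,[[2],[6],[0],[2]],[6],[[],[3,0],[1],[1,2]]⟩,
   ⟨(-2),3,[[0],[1,7,3],[4]],[],[[1],[3]]⟩,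
   ⟨2,3,[[0],[5,2,1],[6]],[],[[3,0],[1,2]]⟩,
   ⟨(-1),3,[[0],[5,3,1],[7]],[],[[3,0],[1,2]]⟩,
   ⟨(-1),3,[[1],[5],[1]],[],[]⟩,
   ⟨3,10,[[1],[1],[5]],[],[[3],[1,2],[],[1]]⟩,
   ⟨(-2),11,[[1],[1,5,1],[0]],[],[[3,1,2],[3,1,2]]⟩,
   ⟨2,15,[[1],[4,1],[0],[1]],[],[[1],[1,3,0],[1],[],[0]]⟩,
   ⟨2,3,[[1],[5],[2,6]],[],[]⟩,
   ⟨(-2),13,[[3],[4],[1],[6]],[],[]⟩,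
   ⟨(-2),3,[[4],[3,0,5],[6]],[],[[3,0],[1,2]]⟩,
   ⟨(-2),11,[[6],[7,0],[5]],[],[[2],[2]]⟩,
   ⟨7,3,[[1],[0,7,0],[4]],[],[[1,3,0],[3,1,2]]⟩,
   ⟨3,3,[[2],[5,0,3],[6]],[],[[3,0],[1,2]]⟩,
   ⟨(-4),3,[[5],[3,1],[6]],[],[]⟩,
   ⟨3,3,[[5,1,3],[2],[6]],[],[[1,2],[3,0]]⟩,
   ⟨(-4),11,[[1],[1,7],[5]],[],[[3],[3]]⟩,
   ⟨1,3,[[0,7],[0],[5]],[4],[[2],[0]]⟩,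
   ⟨(-1),0,[[0],[4],[7],[0]],[6],[[],[3,0],[1],[1,2]]⟩,
   ⟨(-1),11,[[5],[4,1,5],[7]],[],[[2,1,2],[2,1,2]]⟩,
   ⟨3,3,[[0,0,5],[1],[6]],[],[[3,3],[1,1]]⟩,
   ⟨(-4),4,[[4],[0],[6]],[],[[3,0]]⟩,
   ⟨1,11,[[4],[4,1],[7]],[],[[3],[3]]⟩,
   ⟨2,11,[[4,1],[0],[7]],[],[[0],[0]]⟩,
   ⟨(-1),19,[[1],[6],[5],[1]],[4],[[],[3,0],[1],[1,2]]⟩,
   ⟨1,3,[[1],[0,5,0],[6]],[],[[1,3,0],[3,1,2]]⟩,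
   ⟨1,12,[[4],[0],[6],[1]],[],[[],[1],[],[],[],[3]]⟩,
   ⟨(-1),10,[[1],[0,7,5],[1]],[],[[2,1,2],[],[1],[2]]⟩,
   ⟨1,3,[[7,5],[4],[0]],[1],[[1,2],[3,0]]⟩,
   ⟨(-1),11,[[7],[5,7],[1]],[1],[[1,2],[1,2]]⟩,
   ⟨5,3,[[7],[6,6,5],[1]],[],[[1,1],[3,3]]⟩,
   ⟨(-1),10,[[1],[5],[7]],[],[]⟩,
   ⟨1,19,[[1],[0],[1],[5,7]],[],[[],[],[],[3],[1]]⟩,
   ⟨3,3,[[1],[0,5,7],[1]],[],[[1],[3]]⟩,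
   ⟨4,9,[[0],[7],[5]],[],[]⟩]

def e27_3 : List En :=
  [⟨2,3,[[7,5,6],[7],[1]],[],[[2,1,2],[0,3,0]]⟩,
   ⟨(-3),11,[[4,7,7],[6],[1]],[1],[[0,0],[0,0]]⟩,
   ⟨1,20,[[4],[7],[1]],[],[]⟩,
   ⟨(-1),3,[[6,6,0],[6],[4]],[],[[2,2],[0,0]]⟩,
   ⟨(-2),11,[[7,1,6],[7],[4]],[4],[[0,3,0],[0,3,0]]⟩,
   ⟨(-1),18,[[1],[7],[5],[1]],[7],[[],[3,0],[1],[1,2]]⟩,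
   ⟨2,3,[[1],[0,4],[1]],[],[[1],[3]]⟩,
   ⟨1,10,[[1],[0,7],[4,1]],[],[[2,1,2],[],[1,2],[2]]⟩,
   ⟨(-1),3,[[4,7,0],[1],[1]],[],[[1,2],[3,0]]⟩,
   ⟨(-1),3,[[7,4,1],[0],[1]],[],[[1,2],[3,0]]⟩,
   ⟨(-1),17,[[0],[6,5],[0],[0]],[],[[],[3,0],[1],[3,1],[1]]⟩,
   ⟨3,9,[[0],[4],[7]],[],[]⟩,
   ⟨(-3),12,[[6],[0],[4],[1]],[],[[],[1],[],[],[],[3]]⟩,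
   ⟨(-2),19,[[4],[1],[7],[4]],[6],[[],[3,0],[1],[1,2]]⟩,
   ⟨2,3,[[5],[5,0,4],[7]],[6],[[0,3,0],[2,1,2]]⟩,
   ⟨2,3,[[6],[7,4,7],[0]],[1],[[1,3,0],[3,1,2]]⟩,
   ⟨(-2),11,[[5],[5,5,7],[1]],[1],[[3,3],[3,3]]⟩,
   ⟨2,18,[[5],[6],[0],[5]],[6],[[],[3,0],[1],[1,2]]⟩,
   ⟨(-2),19,[[5],[1],[7],[5]],[6],[[],[3,0],[1],[1,2]]⟩,
   ⟨2,3,[[7],[4],[1]],[],[]⟩,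
   ⟨(-2),11,[[5,1,5],[5],[6]],[6],[[1,3,0],[1,3,0]]⟩,
   ⟨(-3),4,[[6],[4],[1]],[],[[3,0]]⟩,
   ⟨1,11,[[6,5,7],[6],[1]],[1],[[0,3,0],[0,3,0]]⟩,
   ⟨(-2),3,[[1],[4,0],[6]],[],[[3,0],[1,2]]⟩,
   ⟨(-2),15,[[4],[6],[0],[4]],[],[[],[3,0],[1],[1,2]]⟩,
   ⟨1,18,[[0],[4],[7],[0]],[4],[[],[3,0],[1],[1,2]]⟩,
   ⟨(-3),12,[[1],[7],[4],[3]],[],[]⟩,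
   ⟨3,3,[[2],[7,3],[4]],[],[[3,0],[1,2]]⟩,
   ⟨1,3,[[3],[3,7,0],[4]],[],[[0],[2]]⟩,
   ⟨1,3,[[2,5,3],[2],[7]],[6],[[2,1,2],[0,3,0]]⟩,
   ⟨(-1),11,[[5],[3,5],[6]],[6],[[1,2],[1,2]]⟩,
   ⟨1,12,[[1],[5],[6],[3]],[],[]⟩,
   ⟨7,11,[[3],[2,5,3],[6]],[6],[[2,1,2],[2,1,2]]⟩,
   ⟨(-1),3,[[4,3,5],[4],[6]],[],[[2,1,2],[0,3,0]]⟩,
   ⟨1,12,[[0],[5],[6],[3]],[],[]⟩,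
   ⟨(-2),20,[[6],[0],[2,4]],[],[]⟩,
   ⟨1,3,[[1],[7,3],[4]],[],[]⟩,
   ⟨(-2),0,[[3],[4],[7],[3]],[6],[[],[3,0],[1],[1,2]]⟩,
   ⟨2,3,[[3,3,5],[2],[7]],[6],[[3,3],[1,1]]⟩,
   ⟨(-2),4,[[4],[2],[7]],[6],[[3,0]]⟩,
   ⟨(-8),11,[[5],[2,5],[6]],[6],[[1,2],[1,2]]⟩,
   ⟨4,17,[[3],[4],[7],[3]],[],[[],[3,0],[1],[1,2]]⟩,
   ⟨2,3,[[2],[3,3,5],[6]],[],[[1,1],[3,3]]⟩,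
   ⟨2,9,[[5],[6],[3]],[],[]⟩,
   ⟨3,11,[[7],[7,2,7],[4]],[4],[[3,1,2],[3,1,2]]⟩,
   ⟨(-3),3,[[6,6,2],[7],[5]],[4],[[3,3],[1,1]]⟩,
   ⟨3,3,[[1],[1,2],[4]],[],[[0],[2]]⟩,
   ⟨1,11,[[0,3,3],[2],[5]],[],[[0,0],[0,0]]⟩,
   ⟨(-1),3,[[3],[3,1,2],[5]],[4],[[0,3,0],[2,1,2]]⟩,
   ⟨4,11,[[3,0,3],[3],[4]],[4],[[1,3,0],[1,3,0]]⟩,
   ⟨(-1),3,[[1],[1,5],[3,6]],[],[[0],[2]]⟩,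
   ⟨3,3,[[1],[1,7],[4]],[5],[[0],[2]]⟩,
   ⟨(-1),11,[[0],[0,7],[4]],[],[[3],[3]]⟩,
   ⟨1,3,[[1],[1,1,7],[5]],[],[[0,0],[2,2]]⟩,
   ⟨(-1),11,[[6,0,7],[6],[5]],[5],[[0,3,0],[0,3,0]]⟩,
   ⟨1,3,[[1],[2,0],[0]],[],[[3,0],[1,2]]⟩,
   ⟨(-1),20,[[3,1],[0],[0]],[],[[0],[1],[0],[1]]⟩,
   ⟨(-1),12,[[1],[2],[0],[7]],[],[[],[],[],[1],[],[],[1]]⟩,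
   ⟨(-1),3,[[2,0],[7],[0]],[],[]⟩,
   ⟨4,3,[[3,7,2],[3],[0]],[],[[2,1,2],[0,3,0]]⟩]

def e27_4 : List En :=
  [⟨4,4,[[0],[3],[6]],[],[[3,0]]⟩,
   ⟨1,16,[[2],[0],[7],[2]],[],[[],[3,0],[1],[1,2]]⟩,
   ⟨2,3,[[2],[7,3],[0]],[],[[3,0],[1,2]]⟩,
   ⟨1,9,[[1],[6],[2]],[],[]⟩,
   ⟨(-1),16,[[6],[3],[1],[6]],[],[[],[3,0],[1],[1,2]]⟩,
   ⟨2,11,[[7],[3,7],[0]],[0],[[1,2],[1,2]]⟩,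
   ⟨1,9,[[1],[2],[7]],[],[]⟩,
   ⟨2,11,[[0],[0,0,7],[3]],[],[[3,3],[3,3]]⟩,
   ⟨(-2),11,[[3,7,2],[3],[0]],[0],[[0,3,0],[0,3,0]]⟩,
   ⟨1,3,[[7],[6,2,6],[1]],[0],[[1,3,0],[3,1,2]]⟩,
   ⟨(-6),11,[[6,2,6],[6],[1]],[],[[1,3,0],[1,3,0]]⟩,
   ⟨(-4),9,[[1],[6],[3]],[],[]⟩,
   ⟨4,12,[[2],[1],[6],[0]],[],[[],[1],[],[],[],[3]]⟩,
   ⟨(-4),3,[[1,7,3],[0],[0]],[],[[3],[1]]⟩,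
   ⟨(-4),9,[[1],[3],[7]],[],[]⟩,
   ⟨1,20,[[1],[6],[3]],[0],[]⟩,
   ⟨(-1),3,[[7,0],[7],[3]],[0],[[2],[0]]⟩,
   ⟨1,12,[[6],[0],[3],[6]],[0],[[],[],[3,0],[3,0],[1,2],[1,2]]⟩,
   ⟨(-1),0,[[1],[3],[0],[7]],[],[[],[],[],[2],[0]]⟩,
   ⟨4,3,[[1],[2,0],[5]],[4],[[3,0],[1,2]]⟩,
   ⟨(-2),11,[[1],[2],[4]],[4],[]⟩,
   ⟨(-2),3,[[2],[0],[4]],[],[]⟩,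
   ⟨4,0,[[1],[4],[2],[1]],[3],[[],[3,0],[1],[1,2]]⟩,
   ⟨6,3,[[5],[5,0],[2]],[3],[[0],[2]]⟩,
   ⟨(-2),11,[[1],[1,5,1],[3]],[3],[[3,1,2],[3,1,2]]⟩,
   ⟨2,3,[[4,1,5],[4],[3]],[],[[2,1,2],[0,3,0]]⟩,
   ⟨(-2),4,[[4],[1],[2]],[3],[[3,0]]⟩,
   ⟨1,3,[[3,0,3],[2],[4]],[3],[[3,1,2],[1,3,0]]⟩,
   ⟨1,18,[[0],[2],[5],[0]],[],[[],[3,0],[1],[1,2]]⟩,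
   ⟨(-1),15,[[0],[3],[5],[0]],[],[[],[3,0],[1],[1,2]]⟩,
   ⟨1,5,[[4],[3],[0]],[],[]⟩,
   ⟨1,11,[[1,4],[5],[3]],[3],[[0],[0]]⟩,
   ⟨(-1),15,[[1],[3],[5],[0]],[],[[],[],[0]]⟩,
   ⟨(-1),3,[[1,5,0],[0],[3]],[],[[3],[1]]⟩,
   ⟨(-1),13,[[5],[1],[1],[3]],[],[[],[],[],[3,0],[1],[1]]⟩,
   ⟨1,8,[[0],[3],[0]],[1],[[1],[1],[3]]⟩,
   ⟨(-2),3,[[1],[7,0],[3,5]],[],[[3,0],[1,2]]⟩,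
   ⟨2,3,[[1],[7,0],[4,3]],[],[[3,0],[1,2]]⟩,
   ⟨(-2),13,[[5],[6],[0],[3]],[],[]⟩,
   ⟨(-2),3,[[7],[5,0],[3]],[],[]⟩,
   ⟨2,3,[[6],[5,1,7],[3]],[],[[3,0],[1,2]]⟩,
   ⟨3,3,[[5,7,0],[5],[3]],[],[[2],[0]]⟩,
   ⟨1,3,[[1],[7,4],[4]],[],[]⟩,
   ⟨(-2),3,[[1],[0,2,7],[4]],[],[[1],[3]]⟩,
   ⟨(-2),3,[[1],[1,1,6],[2]],[],[[0,0],[2,2]]⟩,
   ⟨1,11,[[0,7,0],[0],[3]],[],[[1,3,0],[1,3,0]]⟩,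
   ⟨1,3,[[6],[7,1],[3]],[2],[[1],[3]]⟩,
   ⟨(-1),3,[[1],[1,6,2],[4]],[],[[0],[2]]⟩,
   ⟨(-2),3,[[1],[2,7,0],[4]],[],[[3,0],[1,2]]⟩,
   ⟨1,3,[[1],[6,3,0],[4]],[],[[3,0],[1,2]]⟩,
   ⟨(-1),3,[[2],[4],[7,0]],[],[]⟩,
   ⟨(-2),3,[[2],[0,7],[4]],[],[]⟩,
   ⟨2,3,[[2],[2,4],[7]],[],[[0],[2]]⟩,
   ⟨2,3,[[2],[2,4],[1,6]],[],[[0],[2]]⟩,
   ⟨2,20,[[1,6],[4],[3]],[],[]⟩,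
   ⟨1,3,[[2],[3,5],[1,6]],[],[[1],[3]]⟩,
   ⟨1,4,[[4],[3],[1,6]],[],[[3,0]]⟩,
   ⟨1,17,[[3],[4],[7,0],[3]],[],[[],[3,0],[1],[1,2]]⟩,
   ⟨2,17,[[5],[1,6],[2],[5]],[],[[],[3,0],[1],[1,2]]⟩,
   ⟨2,3,[[2],[2,5],[1]],[],[[0],[2]]⟩]

def e27_5 : List En :=
  [⟨(-4),11,[[2],[2,5,2],[0]],[],[[3,1,2],[3,1,2]]⟩,
   ⟨2,0,[[4],[1],[2],[4]],[3],[[],[3,0],[1],[1,2]]⟩,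
   ⟨2,3,[[4],[5,2,5],[0]],[1],[[1,3,0],[3,1,2]]⟩,
   ⟨(-1),11,[[1,5],[1],[2]],[],[[3,0],[3,0]]⟩,
   ⟨2,3,[[5,5,0],[4],[3]],[],[[3,3],[1,1]]⟩,
   ⟨(-2),11,[[5],[5,0],[3]],[3],[[3],[3]]⟩,
   ⟨2,12,[[3],[0],[4],[1]],[],[[],[1],[],[],[],[3]]⟩,
   ⟨(-2),3,[[1,5,2],[1],[1]],[],[[2],[0]]⟩,
   ⟨(-2),18,[[5],[3],[4,0],[5]],[3],[[],[3,0],[1],[2,1,2],[2]]⟩,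
   ⟨2,3,[[2,4],[5],[1,5]],[],[[1,2],[3,0]]⟩,
   ⟨(-2),3,[[3,5],[2],[1,5]],[],[[3],[1]]⟩,
   ⟨1,3,[[2],[3,0],[4,7]],[],[[1],[3]]⟩,
   ⟨(-1),3,[[2],[3,0],[7,4]],[],[[1],[3]]⟩,
   ⟨(-1),3,[[2],[3,4],[7,1]],[],[[1],[3]]⟩,
   ⟨(-4),3,[[2],[3,7],[4,1]],[],[[1],[3]]⟩,
   ⟨1,3,[[2],[0,5,3],[6]],[],[[3,0],[1,2]]⟩,
   ⟨(-1),4,[[4,1],[2],[6]],[],[[3,0]]⟩,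
   ⟨(-1),3,[[7,3],[7],[4,1]],[],[[2],[0]]⟩,
   ⟨(-2),3,[[2],[2,0,6],[4]],[],[[0],[2]]⟩,
   ⟨(-1),3,[[2],[2,0,6],[5]],[],[[0],[2]]⟩,
   ⟨1,17,[[3],[5],[0,6],[3]],[],[[],[3,0],[1],[1,2]]⟩,
   ⟨1,3,[[2],[2,2,6],[5]],[4],[[0,0],[2,2]]⟩,
   ⟨(-2),11,[[3,6,6],[6],[5]],[],[[1,1],[1,1]]⟩,
   ⟨3,3,[[7,2],[6],[4]],[],[[3],[1]]⟩,
   ⟨1,3,[[2],[3,0,3],[7]],[],[[1,3,0],[3,1,2]]⟩,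
   ⟨(-1),11,[[0],[1,3,0],[6]],[],[[2,1,2],[2,1,2]]⟩,
   ⟨(-1),17,[[1],[7],[3],[1]],[],[[],[3,0],[1],[1,2]]⟩,
   ⟨(-1),11,[[2],[3,1],[7]],[7],[[2],[2]]⟩,
   ⟨1,3,[[2],[3,5,2],[1]],[],[[1],[3]]⟩,
   ⟨(-1),15,[[3],[4],[0],[2]],[],[[],[],[0]]⟩,
   ⟨1,3,[[2],[3,5,6],[1]],[],[[1],[3]]⟩,
   ⟨1,12,[[3],[5],[1],[6]],[],[]⟩,
   ⟨(-1),4,[[4],[0,6],[3]],[],[[3,0]]⟩,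
   ⟨2,3,[[7,1],[2],[4]],[],[]⟩,
   ⟨(-2),3,[[2],[3,5,7],[0]],[],[[1],[3]]⟩,
   ⟨2,3,[[2],[3,7,0],[5]],[],[[1],[3]]⟩,
   ⟨(-2),16,[[3],[5],[7,0],[3]],[],[[],[3,0],[1],[1,2]]⟩,
   ⟨(-2),20,[[5],[2],[1,6]],[],[]⟩,
   ⟨2,3,[[2],[7,5,3],[5]],[],[[3,0],[1,2]]⟩,
   ⟨2,12,[[2],[7],[5],[5]],[],[[],[],[1],[],[],[],[],[1]]⟩,
   ⟨2,3,[[7,3,5],[4],[5]],[],[[1,2],[3,0]]⟩,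
   ⟨(-2),12,[[5],[5],[6],[3]],[],[[1],[],[],[],[3]]⟩,
   ⟨2,3,[[4],[7,3],[4]],[],[]⟩,
   ⟨2,3,[[7,3],[2],[5]],[],[[1,2],[3,0]]⟩,
   ⟨(-1),11,[[7],[6,3,7],[4]],[],[[2,1,2],[2,1,2]]⟩,
   ⟨1,3,[[7],[6,6,3],[4]],[5],[[1,1],[3,3]]⟩,
   ⟨(-2),12,[[2],[4],[6],[5]],[],[[],[1],[],[],[],[3]]⟩,
   ⟨(-2),12,[[0],[4],[6],[5]],[],[[],[1],[],[],[],[3]]⟩,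
   ⟨2,3,[[5,7,1],[5],[5]],[],[[2],[0]]⟩,
   ⟨1,12,[[5],[7],[4],[1]],[],[[],[],[],[1],[],[],[1]]⟩,
   ⟨1,3,[[0,5],[1],[7]],[6],[[3],[1]]⟩,
   ⟨2,4,[[4],[5],[6,4,4]],[],[[],[0],[2,2],[3,3]]⟩,
   ⟨1,15,[[4],[6,4],[5],[4]],[],[[1],[1,3,0],[1],[],[0]]⟩,
   ⟨1,3,[[3],[0],[5]],[],[]⟩,
   ⟨1,4,[[5],[1],[2]],[],[[3,0]]⟩,
   ⟨(-1),11,[[2,0],[0],[5]],[5],[[1],[1]]⟩,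
   ⟨(-2),3,[[0,4],[5],[2]],[],[[1,2],[3,0]]⟩,
   ⟨1,11,[[5,1],[0],[2]],[2],[[0],[0]]⟩,
   ⟨(-1),3,[[5,0],[4],[3]],[2],[[3],[1]]⟩,
   ⟨(-2),3,[[3,1],[3],[5]],[],[[2],[0]]⟩]

def e27_6 : List En :=
  [⟨3,11,[[0],[0,0,3],[4]],[],[[3,3],[3,3]]⟩,
   ⟨(-1),3,[[3],[2,1],[4]],[5],[[1],[3]]⟩,
   ⟨1,20,[[2],[1],[4]],[5],[]⟩,
   ⟨2,3,[[3],[0],[6,4]],[],[]⟩,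
   ⟨1,3,[[3],[1],[7,4]],[],[]⟩,
   ⟨(-1),3,[[3],[6],[0]],[],[]⟩,
   ⟨1,11,[[7,3],[3],[1]],[],[[1],[1]]⟩,
   ⟨(-1),4,[[7],[2],[1]],[0],[[3,0]]⟩,
   ⟨(-1),19,[[3],[7],[0],[1]],[],[]⟩,
   ⟨1,9,[[1],[3,7],[1]],[],[[3,0],[3],[0],[1]]⟩,
   ⟨2,11,[[2,7,3],[2],[0]],[0],[[0,3,0],[0,3,0]]⟩,
   ⟨(-1),20,[[2],[7],[0]],[],[]⟩,
   ⟨(-3),11,[[6,1],[1],[2]],[2],[[1],[1]]⟩,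
   ⟨1,3,[[3],[0,5],[3]],[],[]⟩,
   ⟨(-1),6,[[4,1,3],[2],[3]],[],[[],[],[0],[0]]⟩,
   ⟨1,3,[[3],[0,6],[4]],[],[]⟩,
   ⟨1,17,[[3],[4],[0,6],[3]],[],[[],[3,0],[1],[1,2]]⟩,
   ⟨(-1),3,[[5],[5,2],[7,1]],[],[[0],[2]]⟩,
   ⟨(-1),4,[[7,1],[4],[3]],[],[[3,0]]⟩,
   ⟨1,3,[[4],[0,6],[3]],[],[]⟩,
   ⟨(-1),4,[[5],[7,1],[3]],[],[[3,0]]⟩,
   ⟨(-1),3,[[3,7,1],[2],[5]],[],[[3],[1]]⟩,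
   ⟨(-1),20,[[7,1],[5],[2]],[],[]⟩,
   ⟨1,3,[[4,0,6],[4],[2]],[],[[2],[0]]⟩,
   ⟨(-1),4,[[5],[0,6],[2]],[],[[3,0]]⟩,
   ⟨(-1),3,[[7,1,3],[2],[5]],[],[[1,2],[3,0]]⟩,
   ⟨(-1),12,[[5],[7],[2],[1]],[],[]⟩,
   ⟨2,3,[[0,6],[5],[2]],[],[]⟩,
   ⟨2,3,[[3,1,4],[5],[6]],[],[[1,2],[3,0]]⟩,
   ⟨(-2),16,[[5],[6],[3],[5]],[],[[],[3,0],[1],[1,2]]⟩,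
   ⟨3,0,[[5],[2],[7],[5]],[6],[[],[3,0],[1],[1,2]]⟩,
   ⟨1,3,[[7,7,5],[7],[2]],[],[[2,2],[0,0]]⟩,
   ⟨(-1),11,[[4,7],[7],[2]],[2],[[1],[1]]⟩,
   ⟨(-2),3,[[3],[2,1],[4]],[],[[1],[3]]⟩,
   ⟨1,4,[[4],[0],[2]],[],[[3,0]]⟩,
   ⟨1,3,[[0,0,3],[0],[4]],[],[[2,2],[0,0]]⟩,
   ⟨1,3,[[5,0],[5],[2]],[],[[2],[0]]⟩,
   ⟨(-1),11,[[1,4],[1],[3]],[],[[3,0],[3,0]]⟩,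
   ⟨(-2),16,[[4],[2],[0],[4]],[],[[],[3,0],[1],[1,2]]⟩,
   ⟨2,16,[[4],[1],[4,3],[4]],[],[[],[3,0],[1],[3,1,2],[3]]⟩,
   ⟨(-1),11,[[0,2],[0],[5]],[],[[3,0],[3,0]]⟩,
   ⟨2,19,[[1],[2],[5],[4]],[],[]⟩,
   ⟨2,18,[[4],[4],[3,0],[4]],[],[[1],[1,1],[1],[1,2]]⟩,
   ⟨(-1),20,[[4],[2,0],[1]],[],[[1]]⟩,
   ⟨1,3,[[4,2,0],[5],[1]],[],[[3],[1]]⟩,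
   ⟨1,3,[[3],[3,5],[6,1]],[],[[0],[2]]⟩,
   ⟨1,17,[[3],[6,1],[5],[3]],[],[[],[3,0],[1],[1,2]]⟩,
   ⟨1,3,[[3,0,7],[3],[4]],[],[[2],[0]]⟩,
   ⟨1,3,[[3],[4,1],[6]],[],[]⟩,
   ⟨1,3,[[3],[5,2],[1,3]],[],[[3,0],[1,2]]⟩,
   ⟨(-1),19,[[4],[1],[3],[2]],[],[]⟩,
   ⟨(-1),0,[[3],[1,3],[5],[3]],[4],[[1],[1,3,0],[1],[1,2]]⟩,
   ⟨(-1),3,[[5,3],[5],[1,3]],[],[[2],[0]]⟩,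
   ⟨3,3,[[3,0],[1],[5]],[4],[[1,2],[3,0]]⟩,
   ⟨1,4,[[1],[5],[2]],[3],[[3,0]]⟩,
   ⟨(-1),11,[[3],[0,3],[4]],[4],[[1,2],[1,2]]⟩,
   ⟨(-1),3,[[3],[1,6,2],[5]],[],[[3,0],[1,2]]⟩,
   ⟨(-1),4,[[5],[1,6],[3]],[],[[3,0]]⟩,
   ⟨1,3,[[4],[4,1,6],[3]],[],[[0],[2]]⟩,
   ⟨1,16,[[3],[5],[1,6],[3]],[],[[],[3,0],[1],[1,2]]⟩]

def e27_7 : List En :=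
  [⟨(-1),20,[[7,0],[5],[3]],[],[]⟩,
   ⟨(-1),3,[[4,2],[5],[7,0]],[],[[3],[1]]⟩,
   ⟨1,3,[[5,1,6],[5],[3]],[],[[2],[0]]⟩,
   ⟨(-1),4,[[5],[7,0],[2]],[],[[3,0]]⟩,
   ⟨1,3,[[1,6],[4],[2]],[],[]⟩,
   ⟨(-1),20,[[7,0],[4],[2]],[],[]⟩,
   ⟨1,17,[[3],[4],[1,6],[3]],[],[[],[3,0],[1],[1,2]]⟩,
   ⟨1,3,[[3,1,6],[3],[4]],[],[[2],[0]]⟩,
   ⟨(-1),3,[[4],[5,7,0],[2]],[],[[1],[3]]⟩,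
   ⟨(-3),3,[[1,6],[2],[4]],[],[]⟩,
   ⟨(-1),3,[[1,6],[5],[2]],[],[]⟩,
   ⟨(-2),20,[[4],[7,0],[3]],[],[]⟩,
   ⟨(-1),3,[[2,7,0],[2],[4]],[],[[2],[0]]⟩,
   ⟨1,3,[[3],[2,0,4],[6]],[],[[1],[3]]⟩,
   ⟨(-2),3,[[3],[2,2,4],[7]],[],[[1,1],[3,3]]⟩,
   ⟨(-2),16,[[3],[7],[4],[3]],[],[[],[3,0],[1],[1,2]]⟩,
   ⟨2,3,[[2,6],[2],[5]],[],[[2],[0]]⟩,
   ⟨(-2),17,[[7],[2],[4],[7]],[],[[],[3,0],[1],[1,2]]⟩,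
   ⟨2,3,[[4,6],[7],[2]],[],[[1,2],[3,0]]⟩,
   ⟨2,20,[[2],[5],[7]],[],[]⟩,
   ⟨(-2),3,[[5,3],[5],[7]],[],[[2],[0]]⟩,
   ⟨1,4,[[4],[2],[7]],[],[[3,0]]⟩,
   ⟨1,11,[[4,2,4],[4],[7]],[7],[[1,3,0],[1,3,0]]⟩,
   ⟨1,12,[[2],[6],[4],[1]],[],[]⟩,
   ⟨(-2),3,[[5],[5,3],[6]],[7],[[0],[2]]⟩,
   ⟨1,3,[[2,6,1],[3],[4]],[],[[3],[1]]⟩,
   ⟨1,3,[[6,3,1],[0],[4]],[],[[1,2],[3,0]]⟩,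
   ⟨2,3,[[4],[2,5],[7]],[],[[3,0],[1,2]]⟩,
   ⟨(-3),11,[[4,3,5],[4],[6]],[],[[0,3,0],[0,3,0]]⟩,
   ⟨1,3,[[5],[2],[6]],[7],[]⟩,
   ⟨(-3),11,[[3,4],[5],[7]],[7],[[0],[0]]⟩,
   ⟨(-1),11,[[4,7,5],[4],[2]],[2],[[0,3,0],[0,3,0]]⟩,
   ⟨1,20,[[4],[7],[3]],[2],[]⟩,
   ⟨(-1),19,[[3],[7],[5],[3]],[4],[[],[3,0],[1],[1,2]]⟩,
   ⟨2,11,[[3],[6,3],[5]],[],[[1,2],[1,2]]⟩,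
   ⟨1,4,[[4],[7],[2]],[],[[3,0]]⟩,
   ⟨2,15,[[4],[6],[3],[4]],[],[[],[3,0],[1],[1,2]]⟩,
   ⟨2,19,[[5],[2],[7],[5]],[6],[[],[3,0],[1],[1,2]]⟩,
   ⟨1,20,[[4],[2],[6]],[7],[]⟩,
   ⟨2,3,[[3],[2,7,5],[1]],[],[[1],[3]]⟩,
   ⟨1,3,[[3],[3,4,2],[0]],[1],[[0,3,0],[2,1,2]]⟩,
   ⟨(-1),11,[[5,3,3],[2],[1]],[1],[[0,0],[0,0]]⟩,
   ⟨(-1),20,[[1],[5],[3]],[],[]⟩,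
   ⟨(-1),20,[[4],[2],[1]],[],[]⟩,
   ⟨1,3,[[5,3],[5],[1]],[],[[2],[0]]⟩,
   ⟨(-1),17,[[2],[1],[5],[3]],[],[[],[],[0]]⟩,
   ⟨1,3,[[0,3],[3],[4]],[],[]⟩,
   ⟨(-2),4,[[3],[5],[0]],[1],[[3,0]]⟩,
   ⟨(-2),3,[[3],[3,4,7],[0]],[],[[0],[2]]⟩,
   ⟨2,3,[[3],[3,5,6],[3]],[],[[0],[2]]⟩,
   ⟨2,9,[[2],[6],[5]],[],[]⟩,
   ⟨2,3,[[4,7],[5],[3]],[],[[3],[1]]⟩,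
   ⟨(-2),3,[[2,6,3],[2],[3]],[],[[2,1,2],[0,3,0]]⟩,
   ⟨(-2),3,[[4,7,3],[5],[3]],[],[[3],[1]]⟩,
   ⟨2,11,[[7,2,7],[7],[2]],[],[[1,3,0],[1,3,0]]⟩,
   ⟨2,18,[[4],[2],[7],[3]],[],[[0],[0]]⟩,
   ⟨(-2),8,[[4],[6],[3]],[],[]⟩,
   ⟨(-2),6,[[4],[6],[3]],[],[]⟩,
   ⟨(-2),3,[[3,7],[6],[3]],[],[[1,2],[3,0]]⟩,
   ⟨2,3,[[2,7,5],[3],[3]],[],[[3],[1]]⟩]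

def e27_8 : List En :=
  [⟨1,4,[[3],[2],[6,2]],[],[[],[0],[3],[2]]⟩,
   ⟨1,19,[[3],[3],[7],[3]],[6],[[1],[1,1],[1],[1,2]]⟩,
   ⟨(-1),12,[[2],[2],[6],[1]],[],[[1],[],[],[],[3]]⟩,
   ⟨1,3,[[7,1],[3],[3]],[],[]⟩,
   ⟨1,9,[[2],[6],[1]],[],[]⟩,
   ⟨1,9,[[2],[1],[7]],[],[]⟩,
   ⟨2,9,[[2],[5],[7]],[],[]⟩,
   ⟨(-2),17,[[7],[5],[2],[7]],[],[[],[3,0],[1],[1,2]]⟩,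
   ⟨(-2),3,[[4,3],[7],[3]],[],[]⟩,
   ⟨2,3,[[4,4,6],[4],[3]],[],[[2,2],[0,0]]⟩,
   ⟨2,20,[[3],[4],[7]],[],[]⟩,
   ⟨2,11,[[4,6,6],[6],[2]],[],[[1,1],[1,1]]⟩,
   ⟨(-2),3,[[7],[5,6],[2]],[3],[[3,0],[1,2]]⟩,
   ⟨1,11,[[7,5,5],[5],[2]],[],[[1,1],[1,1]]⟩,
   ⟨2,3,[[3],[3,6,4],[3]],[],[[0],[2]]⟩,
   ⟨(-2),12,[[5],[2],[7],[3]],[],[[],[1],[],[],[],[3]]⟩,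
   ⟨2,9,[[2],[7],[4]],[],[]⟩,
   ⟨2,11,[[7],[7,7,4],[3]],[3],[[3,3],[3,3]]⟩,
   ⟨(-2),12,[[6],[4],[3],[3]],[],[[],[],[1],[],[],[],[],[1]]⟩,
   ⟨2,3,[[6],[7,4,7],[3]],[],[[1,3,0],[3,1,2]]⟩,
   ⟨2,11,[[3,6,6],[7],[5]],[5],[[0,0],[0,0]]⟩,
   ⟨1,3,[[2,7],[6],[5]],[],[[1,2],[3,0]]⟩,
   ⟨2,9,[[5],[3],[7]],[],[]⟩,
   ⟨2,12,[[4],[7],[3],[0]],[],[]⟩,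
   ⟨1,3,[[5],[4,2,0],[6]],[],[[1],[3]]⟩,
   ⟨3,11,[[6,3],[6],[5]],[5],[[3,0],[3,0]]⟩,
   ⟨(-1),3,[[3],[5,6,2],[0]],[],[[3,0],[1,2]]⟩,
   ⟨1,3,[[3],[6,5,2],[1]],[],[[3,0],[1,2]]⟩,
   ⟨(-1),3,[[4],[0,5],[2,6]],[],[[3,0],[1,2]]⟩,
   ⟨3,4,[[4],[0],[2,6]],[],[[3,0]]⟩,
   ⟨(-2),12,[[2],[7],[4],[1]],[],[]⟩,
   ⟨1,18,[[2],[6],[5],[2]],[6],[[],[3,0],[1],[1,2]]⟩,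
   ⟨1,15,[[2],[4],[7],[2]],[],[[],[3,0],[1],[1,2]]⟩,
   ⟨(-4),3,[[4],[2,1],[6]],[],[]⟩,
   ⟨1,3,[[4],[5,7],[0,2]],[],[[1],[3]]⟩,
   ⟨(-1),13,[[1],[6],[4],[2]],[],[]⟩,
   ⟨(-1),20,[[2],[5],[7]],[6],[]⟩,
   ⟨(-1),13,[[3],[1],[5],[6]],[],[]⟩,
   ⟨(-1),14,[[2],[7],[4],[0]],[],[]⟩,
   ⟨(-2),3,[[7],[2,5],[1]],[],[]⟩,
   ⟨(-2),3,[[2,4,0],[1],[6]],[],[[1,2],[3,0]]⟩,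
   ⟨1,20,[[1],[2,4],[6]],[],[]⟩,
   ⟨2,3,[[5,3,7],[6],[1]],[],[[1,2],[3,0]]⟩,
   ⟨(-1),3,[[4],[0,3,5],[6]],[],[[3,0],[1,2]]⟩,
   ⟨1,12,[[4],[7],[1],[3]],[],[]⟩,
   ⟨(-3),3,[[5,7,3],[5],[1]],[],[[2],[0]]⟩,
   ⟨(-1),9,[[5],[1],[7]],[],[]⟩,
   ⟨(-1),14,[[1],[7],[5],[3]],[],[]⟩,
   ⟨1,3,[[1,7,5],[0],[2]],[],[[3],[1]]⟩,
   ⟨(-1),3,[[3,1,5],[3],[6]],[],[[2],[0]]⟩,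
   ⟨(-4),3,[[4],[5,5,3],[0]],[1],[[1,1],[3,3]]⟩,
   ⟨(-3),17,[[5],[2,6],[0],[5]],[],[[],[3,0],[1],[1,2]]⟩,
   ⟨2,3,[[5,7,3],[4],[1]],[],[[3],[1]]⟩,
   ⟨(-2),20,[[2,6],[4],[1]],[],[]⟩,
   ⟨2,19,[[3],[1],[4],[3]],[5],[[],[3,0],[1],[1,2]]⟩,
   ⟨2,3,[[1,2,0],[1],[4]],[5],[[2,1,2],[0,3,0]]⟩,
   ⟨(-2),4,[[1],[3],[4]],[5],[[3,0]]⟩,
   ⟨(-2),15,[[3],[1,5],[4],[5]],[],[[1],[1]]⟩,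
   ⟨2,3,[[4,0,2],[5],[5]],[],[[3],[1]]⟩,
   ⟨2,8,[[1,5],[4],[5]],[],[[1],[],[],[0],[1],[0]]⟩]

def e27_9 : List En :=
  [⟨(-1),3,[[4],[1,3,5],[7]],[],[[3,0],[1,2]]⟩,
   ⟨(-1),3,[[4],[2,0,5],[7]],[],[[3,0],[1,2]]⟩,
   ⟨1,12,[[1],[6],[3],[5]],[],[]⟩,
   ⟨(-1),20,[[3],[0],[4,7]],[],[]⟩,
   ⟨1,12,[[4],[6],[3],[1]],[],[]⟩,
   ⟨1,3,[[5],[4,6,1],[3]],[],[[1],[3]]⟩,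
   ⟨2,9,[[2],[4],[6]],[],[]⟩,
   ⟨(-2),12,[[2],[2],[4],[6]],[],[[1],[],[],[],[3]]⟩,
   ⟨(-1),20,[[4,3],[0],[7]],[],[]⟩,
   ⟨(-1),3,[[0,6],[0],[4,3]],[],[[2],[0]]⟩,
   ⟨(-2),3,[[5],[5,2,1],[7]],[],[[0],[2]]⟩,
   ⟨2,3,[[6,0,5],[4],[3]],[],[[1,2],[3,0]]⟩,
   ⟨(-2),14,[[6],[5],[1],[2]],[],[]⟩,
   ⟨(-1),3,[[6,0],[2],[4]],[],[]⟩,
   ⟨1,12,[[3],[6],[4],[0]],[],[]⟩,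
   ⟨1,13,[[5],[3],[1],[7]],[],[]⟩,
   ⟨(-1),4,[[4],[0],[3,7]],[],[[3,0]]⟩,
   ⟨1,13,[[5],[2],[1],[7]],[],[]⟩,
   ⟨(-1),3,[[1,3],[2],[4,7]],[],[[1,2],[3,0]]⟩,
   ⟨(-1),3,[[5,3,0],[5],[7]],[],[[2],[0]]⟩,
   ⟨1,12,[[4],[6],[2],[0]],[],[]⟩,
   ⟨1,12,[[4],[6],[2],[1]],[],[]⟩,
   ⟨(-2),3,[[5],[3,1],[7]],[],[]⟩,
   ⟨1,4,[[4],[0,7],[2]],[],[[3,0]]⟩,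
   ⟨1,4,[[4],[3,1],[7]],[],[[3,0]]⟩,
   ⟨1,3,[[7],[3,1,6],[4]],[],[[3,0],[1,2]]⟩,
   ⟨(-1),3,[[0,2],[5],[7]],[],[]⟩,
   ⟨(-1),20,[[7],[3,1],[4]],[],[]⟩,
   ⟨(-1),4,[[4,2],[1],[7]],[],[[3,0]]⟩,
   ⟨(-1),3,[[7,0],[6],[4,2]],[],[[3],[1]]⟩,
   ⟨(-1),20,[[2],[1],[4,7]],[],[]⟩,
   ⟨1,3,[[0,3],[2],[4,7]],[],[[1,2],[3,0]]⟩,
   ⟨(-1),20,[[4],[6,0],[3]],[],[]⟩,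
   ⟨(-1),14,[[0],[5],[7],[2]],[],[]⟩,
   ⟨1,3,[[4,0,7],[5],[3]],[],[[3],[1]]⟩,
   ⟨1,3,[[5],[4,0,7],[2]],[],[[1],[3]]⟩,
   ⟨2,3,[[1,6],[7],[2]],[3],[[1,2],[3,0]]⟩,
   ⟨1,25,[[0],[6],[5],[3]],[],[]⟩,
   ⟨1,3,[[0,3,7],[1],[4]],[],[[3],[1]]⟩,
   ⟨(-1),17,[[0],[7,4],[2],[0]],[],[[],[3,0],[1],[1,2]]⟩,
   ⟨1,15,[[6],[4],[2],[6]],[],[[],[3,0],[1],[1,2]]⟩,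
   ⟨1,3,[[6,2,1],[6],[4]],[],[[2],[0]]⟩,
   ⟨1,12,[[2],[6],[4],[0]],[],[]⟩,
   ⟨1,3,[[6,0],[3],[4]],[],[]⟩,
   ⟨1,4,[[4],[1,7],[2]],[],[[3,0]]⟩,
   ⟨1,3,[[1,7],[3],[4]],[],[]⟩,
   ⟨(-1),20,[[7],[0,3],[4]],[],[]⟩,
   ⟨(-1),3,[[5],[4,0,3],[7]],[],[[1],[3]]⟩,
   ⟨1,20,[[4],[0,3],[7]],[],[]⟩,
   ⟨2,3,[[1,3],[0],[7,4]],[],[[3],[1]]⟩,
   ⟨(-2),3,[[1,7],[5],[2]],[],[]⟩,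
   ⟨1,13,[[5],[0],[7],[2]],[],[]⟩,
   ⟨(-1),3,[[7,1],[0],[4,2]],[],[[1,2],[3,0]]⟩,
   ⟨(-1),16,[[1],[2],[5,6],[1]],[],[[],[3,0],[1],[1,2]]⟩,
   ⟨2,3,[[1,7],[6],[3,4]],[],[[1,2],[3,0]]⟩,
   ⟨(-3),3,[[1,3,6],[0],[4]],[],[[3],[1]]⟩,
   ⟨2,17,[[1],[4],[3,6],[1]],[],[[],[3,0],[1],[1,2]]⟩,
   ⟨2,3,[[5,1],[0],[7,2]],[],[[1,2],[3,0]]⟩,
   ⟨(-2),3,[[1,5,3],[0],[7]],[],[[3],[1]]⟩,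
   ⟨1,3,[[5,2,0],[5],[0]],[],[[2],[0]]⟩]

def e27_10 : List En :=
  [⟨2,4,[[7,4],[2],[0]],[],[[3,0]]⟩,
   ⟨2,3,[[2,1],[2],[7,4]],[],[[2],[0]]⟩,
   ⟨2,13,[[5],[2],[7],[0]],[],[]⟩,
   ⟨(-3),3,[[7,3],[7],[4,0]],[],[[2],[0]]⟩,
   ⟨(-2),3,[[3,7,5],[4],[0]],[],[[1,2],[3,0]]⟩,
   ⟨2,20,[[6,4],[2],[0]],[],[]⟩,
   ⟨(-1),16,[[1],[2],[5,7],[1]],[],[[],[3,0],[1],[1,2]]⟩,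
   ⟨1,3,[[3,1],[3],[6,4]],[],[[2],[0]]⟩,
   ⟨(-3),3,[[3,6],[5],[0]],[],[]⟩,
   ⟨(-2),9,[[1],[3],[5]],[],[]⟩,
   ⟨(-2),3,[[5,3,0],[1],[0]],[],[[1,2],[3,0]]⟩,
   ⟨2,16,[[5],[0],[2],[5]],[],[[],[3,0],[1],[1,2]]⟩,
   ⟨(-2),11,[[1],[1,4,1],[2]],[],[[3,1,2],[3,1,2]]⟩,
   ⟨(-2),11,[[5],[4,4,2],[1]],[],[[2,2],[2,2]]⟩,
   ⟨2,3,[[4,2,4],[5],[1]],[0],[[3,1,2],[1,3,0]]⟩,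
   ⟨3,11,[[4,6,6],[7],[2]],[],[[0,0],[0,0]]⟩,
   ⟨(-2),12,[[0],[2],[4],[7]],[],[]⟩,
   ⟨(-2),17,[[1],[3],[5,7],[1]],[],[[],[3,0],[1],[1,2]]⟩,
   ⟨1,3,[[0,2],[0],[6,4]],[],[[2],[0]]⟩,
   ⟨3,3,[[5,7],[0],[3]],[],[]⟩,
   ⟨(-1),3,[[6,2,1],[7],[4]],[],[[3],[1]]⟩,
   ⟨1,4,[[4],[2,1],[6]],[],[[3,0]]⟩,
   ⟨2,3,[[5,2,1],[5],[6]],[],[[2],[0]]⟩,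
   ⟨2,12,[[4],[7],[3],[1]],[],[]⟩,
   ⟨(-2),9,[[0],[4],[2]],[],[]⟩,
   ⟨(-2),15,[[4],[1],[2],[5]],[],[[],[],[0]]⟩,
   ⟨2,3,[[5],[5,0,5],[3]],[],[[0],[2]]⟩,
   ⟨1,12,[[1],[0],[4],[2]],[],[[0],[],[],[],[2]]⟩,
   ⟨(-1),11,[[0],[1,5,0],[1]],[1],[[2,1,2],[2,1,2]]⟩,
   ⟨1,0,[[3],[4],[1],[0]],[],[]⟩,
   ⟨(-1),3,[[1,2],[1],[4]],[1],[[2],[0]]⟩,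
   ⟨(-1),3,[[3,0],[2],[4,1]],[],[[3],[1]]⟩,
   ⟨1,0,[[1],[4],[1],[2]],[],[[],[],[],[3],[1]]⟩,
   ⟨(-1),18,[[2],[0],[5],[2]],[],[[],[3,0],[1],[1,2]]⟩,
   ⟨(-2),9,[[0],[2],[5]],[],[]⟩,
   ⟨(-1),13,[[2],[7],[0],[4]],[],[]⟩,
   ⟨1,3,[[6],[0],[3,4]],[],[]⟩,
   ⟨(-4),20,[[3],[1],[5]],[4],[]⟩,
   ⟨(-2),14,[[3],[7],[1],[5]],[],[]⟩,
   ⟨1,13,[[2],[4],[1],[6]],[],[]⟩,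
   ⟨(-1),3,[[3,5,0],[2],[6]],[],[[3],[1]]⟩,
   ⟨(-1),3,[[3,1,7],[6],[4]],[],[[1,2],[3,0]]⟩,
   ⟨(-4),3,[[3,5,1],[2],[6]],[],[[3],[1]]⟩,
   ⟨(-2),3,[[6,3,0],[7],[4]],[],[[3],[1]]⟩,
   ⟨2,4,[[3],[0,4],[6]],[],[[3,0]]⟩,
   ⟨(-3),12,[[3],[7],[4],[0]],[],[]⟩,
   ⟨(-3),13,[[3],[6],[0],[4]],[],[]⟩,
   ⟨(-3),4,[[2],[0],[5]],[4],[[3,0]]⟩,
   ⟨(-2),12,[[6],[2],[4],[0]],[],[]⟩,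
   ⟨(-2),3,[[6,2,0],[7],[4]],[],[[3],[1]]⟩,
   ⟨(-1),15,[[1],[1,6],[2],[1]],[],[[3,0],[3,0],[1],[1,2]]⟩,
   ⟨(-1),16,[[0],[3,4],[7],[0]],[],[[],[3,0],[1],[1,2]]⟩,
   ⟨1,20,[[6],[1],[3,4]],[],[]⟩,
   ⟨(-3),13,[[2],[6],[0],[4]],[],[]⟩,
   ⟨(-2),17,[[2],[7,4],[0],[2]],[],[[],[3,0],[1],[1,2]]⟩,
   ⟨2,3,[[2,5,6],[3],[1]],[],[[3],[1]]⟩,
   ⟨(-2),23,[[6],[4],[0],[2]],[],[]⟩,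
   ⟨2,4,[[4],[0],[6,2]],[],[[3,0]]⟩,
   ⟨(-2),3,[[5],[0],[7,3]],[],[]⟩,
   ⟨2,3,[[5,1],[5],[7,3]],[],[[2],[0]]⟩]

def e27_11 : List En :=
  [⟨(-1),14,[[7],[5],[3],[0]],[],[]⟩,
   ⟨(-1),3,[[5,3],[6],[1]],[],[]⟩,
   ⟨2,16,[[1],[7,3],[5],[1]],[],[[],[3,0],[1],[1,2]]⟩,
   ⟨2,3,[[5],[5,7,2],[1]],[],[[0],[2]]⟩,
   ⟨(-1),3,[[1,2],[6],[4]],[],[]⟩,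
   ⟨(-1),14,[[0],[5],[2],[6]],[],[]⟩,
   ⟨1,13,[[5],[0],[3],[7]],[],[]⟩,
   ⟨(-1),3,[[0,5,2],[1],[7]],[],[[3],[1]]⟩,
   ⟨(-1),3,[[4,1,2],[5],[7]],[],[[3],[1]]⟩,
   ⟨1,12,[[3],[6],[4],[1]],[],[]⟩,
   ⟨(-1),23,[[5],[7],[0],[3]],[],[]⟩,
   ⟨1,12,[[4],[6],[1],[2]],[],[]⟩,
   ⟨1,12,[[2],[6],[1],[5]],[],[]⟩,
   ⟨1,4,[[7],[1],[5,3]],[],[[3,0]]⟩,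
   ⟨2,9,[[0],[4],[6]],[],[]⟩,
   ⟨1,3,[[6,5],[3],[1]],[],[]⟩,
   ⟨1,20,[[4],[1],[2,7]],[],[]⟩,
   ⟨(-1),3,[[4,1],[5],[2,7]],[],[[3],[1]]⟩,
   ⟨1,20,[[2,4],[1],[7]],[],[]⟩,
   ⟨1,23,[[3],[4],[0],[7]],[],[]⟩,
   ⟨1,14,[[0],[5],[7],[3]],[],[]⟩,
   ⟨2,14,[[0],[3],[7],[5]],[],[]⟩,
   ⟨2,14,[[3],[5],[6],[1]],[],[]⟩,
   ⟨1,4,[[0],[6],[2]],[3],[[3,0]]⟩,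
   ⟨(-1),4,[[4],[7,2],[1]],[],[[3,0]]⟩,
   ⟨2,13,[[0],[4],[7],[2]],[],[]⟩,
   ⟨(-2),3,[[5],[5,7],[1,2]],[],[[0],[2]]⟩,
   ⟨2,20,[[1],[6],[3]],[2],[]⟩,
   ⟨1,14,[[2],[5],[6],[0]],[],[]⟩,
   ⟨(-1),3,[[5],[5,2,6],[1]],[],[[0],[2]]⟩,
   ⟨(-1),3,[[2,7],[5],[1]],[],[]⟩,
   ⟨(-1),3,[[1,3,7],[0],[4]],[],[[3],[1]]⟩,
   ⟨1,13,[[5],[3],[7],[1]],[],[]⟩,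
   ⟨1,4,[[4],[6],[0]],[1],[[3,0]]⟩,
   ⟨(-1),14,[[1],[2],[6],[5]],[],[]⟩,
   ⟨1,20,[[6,4],[2],[1]],[],[]⟩,
   ⟨1,17,[[1],[6,2],[5],[1]],[],[[],[3,0],[1],[1,2]]⟩,
   ⟨(-1),13,[[3],[0],[7],[4]],[],[]⟩,
   ⟨(-1),20,[[2],[6],[5]],[4],[]⟩,
   ⟨1,14,[[0],[2],[7],[5]],[],[]⟩,
   ⟨(-1),13,[[1],[3],[7],[4]],[],[]⟩,
   ⟨1,3,[[3,7],[2],[0,4]],[],[[3],[1]]⟩,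
   ⟨1,13,[[1],[4],[7],[3]],[],[]⟩,
   ⟨(-1),3,[[5],[7],[0,3]],[],[]⟩,
   ⟨1,3,[[1,5],[1],[6,2]],[],[[2],[0]]⟩,
   ⟨1,20,[[3,4],[1],[7]],[],[]⟩,
   ⟨(-1),23,[[2],[4],[1],[6]],[],[]⟩,
   ⟨(-2),13,[[0],[4],[7],[3]],[],[]⟩,
   ⟨(-2),4,[[1],[7],[2]],[3],[[3,0]]⟩,
   ⟨3,3,[[5],[7],[1,3]],[],[]⟩,
   ⟨1,3,[[6,5,2],[6],[0]],[],[[2],[0]]⟩,
   ⟨1,12,[[7],[5],[0],[2]],[],[]⟩,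
   ⟨1,25,[[0],[2],[5],[6]],[],[]⟩,
   ⟨(-1),24,[[0],[3],[4],[7]],[],[]⟩,
   ⟨(-1),24,[[1],[3],[4],[7]],[],[]⟩,
   ⟨1,23,[[7],[4],[2],[0]],[],[]⟩,
   ⟨(-1),4,[[4],[3],[7,0]],[],[[3,0]]⟩,
   ⟨1,3,[[1,6,4],[1],[1]],[],[[2],[0]]⟩,
   ⟨(-1),3,[[4,3,6],[5],[1]],[],[[3],[1]]⟩,
   ⟨(-1),9,[[5],[6],[1]],[],[]⟩]

def e27_12 : List En :=
  [⟨1,14,[[2],[5],[0],[7]],[],[]⟩,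
   ⟨1,20,[[0],[3],[5]],[4],[]⟩,
   ⟨1,13,[[1],[7],[2],[4]],[],[]⟩,
   ⟨(-1),3,[[6],[2],[0,4]],[],[]⟩,
   ⟨2,3,[[3,5,2],[3],[0]],[],[[2,1,2],[0,3,0]]⟩,
   ⟨(-2),11,[[2],[3,5,2],[1]],[],[[2,1,2],[2,1,2]]⟩,
   ⟨(-1),11,[[3,4,4],[5],[1]],[],[[0,0],[0,0]]⟩,
   ⟨3,3,[[4,4,2],[5],[1]],[0],[[3,3],[1,1]]⟩,
   ⟨(-1),12,[[7],[1],[4],[2]],[],[]⟩,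
   ⟨1,26,[[1],[4],[6],[2]],[],[]⟩,
   ⟨(-1),12,[[1],[5],[3],[6]],[],[]⟩,
   ⟨(-1),24,[[3],[1],[6],[5]],[],[]⟩,
   ⟨(-1),20,[[6],[1,3],[4]],[],[]⟩,
   ⟨(-1),3,[[7],[3,1],[5]],[],[]⟩,
   ⟨(-1),3,[[1,4],[7],[3]],[],[]⟩,
   ⟨(-1),4,[[6],[2,5],[1]],[],[[3,0]]⟩,
   ⟨(-1),15,[[4],[1,5],[7],[4]],[],[[0],[0,3,0],[1],[1,2]]⟩,
   ⟨1,25,[[3],[0],[7],[4]],[],[]⟩,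
   ⟨1,20,[[1,6],[3],[4]],[],[]⟩,
   ⟨1,3,[[3,1,4],[2],[6]],[],[[3],[1]]⟩,
   ⟨1,3,[[4,3],[2],[1,6]],[],[[1,2],[3,0]]⟩,
   ⟨(-1),13,[[7],[4],[2],[1]],[],[]⟩,
   ⟨(-1),4,[[6],[2],[0]],[1],[[3,0]]⟩,
   ⟨(-2),13,[[5],[1],[2],[6]],[],[]⟩,
   ⟨(-1),12,[[4],[0],[6],[3]],[],[]⟩,
   ⟨1,3,[[1,2],[0],[4,6]],[],[[3],[1]]⟩,
   ⟨2,3,[[4,1],[2],[6]],[],[]⟩,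
   ⟨1,3,[[7,5,2],[7],[1]],[],[[2],[0]]⟩,
   ⟨1,4,[[6],[2],[0,5]],[],[[3,0]]⟩,
   ⟨(-2),9,[[1],[4],[3]],[],[]⟩,
   ⟨2,12,[[2],[1],[4],[0]],[],[[],[1],[],[],[],[3]]⟩,
   ⟨(-2),11,[[4,2,4],[4],[0]],[0],[[1,3,0],[1,3,0]]⟩,
   ⟨2,9,[[4],[6],[1]],[],[]⟩,
   ⟨3,13,[[5],[6],[2],[1]],[],[]⟩,
   ⟨3,20,[[4],[3],[0]],[1],[]⟩,
   ⟨(-2),11,[[4],[4,3],[0]],[],[[3],[3]]⟩,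
   ⟨1,17,[[3],[1],[7,5],[3]],[],[[],[3,0],[1],[1,2]]⟩,
   ⟨2,17,[[4],[1],[3],[5]],[],[[],[],[0]]⟩,
   ⟨(-2),3,[[5],[5,0,5],[2]],[],[[0],[2]]⟩,
   ⟨1,20,[[4],[3,1],[6]],[],[]⟩,
   ⟨(-1),3,[[5],[3],[1,6]],[],[]⟩,
   ⟨(-3),3,[[6],[4,7],[1,2]],[],[[3,0],[1,2]]⟩,
   ⟨(-3),4,[[1,2],[5],[6]],[],[[3,0]]⟩,
   ⟨2,3,[[0,3],[0],[4,6]],[],[[2],[0]]⟩,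
   ⟨1,3,[[3,0],[4],[6]],[],[]⟩,
   ⟨2,3,[[4,0,2],[3],[6]],[],[[1,2],[3,0]]⟩,
   ⟨2,9,[[4],[1],[7]],[],[]⟩,
   ⟨2,3,[[1,7],[0],[5]],[],[[3],[1]]⟩,
   ⟨2,12,[[3],[7],[1],[5]],[],[]⟩,
   ⟨(-1),9,[[5],[6],[2]],[],[]⟩,
   ⟨1,12,[[3],[5],[6],[4]],[],[[],[1],[],[],[],[3]]⟩,
   ⟨(-1),3,[[7,2,4],[5],[4]],[],[[1,2],[3,0]]⟩,
   ⟨(-1),9,[[5],[2],[7]],[],[]⟩,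
   ⟨3,11,[[5,1,1],[1],[6]],[6],[[1,1],[1,1]]⟩,
   ⟨2,3,[[4],[4,4,1],[7]],[6],[[0,0],[2,2]]⟩,
   ⟨2,18,[[0],[6],[4],[0]],[6],[[],[3,0],[1],[1,2]]⟩,
   ⟨(-2),20,[[5],[0],[6]],[],[]⟩,
   ⟨(-2),4,[[5],[1],[7]],[6],[[3,0]]⟩,
   ⟨(-2),13,[[4],[2],[1],[6]],[],[]⟩,
   ⟨2,3,[[1,3],[2],[5,6]],[],[[1,2],[3,0]]⟩]

def e27_13 : List En :=
  [⟨(-2),12,[[1],[7],[2],[4]],[],[]⟩,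
   ⟨(-2),13,[[2],[6],[4],[1]],[],[]⟩,
   ⟨2,3,[[6],[4,7],[3,1]],[],[[3,0],[1,2]]⟩,
   ⟨(-2),11,[[1,4],[4],[7]],[],[[1],[1]]⟩,
   ⟨(-1),16,[[2],[1],[7,5],[2]],[],[[],[3,0],[1],[1,2]]⟩,
   ⟨(-1),20,[[2],[1],[4,6]],[],[]⟩,
   ⟨(-1),16,[[1],[4,6],[3],[1]],[],[[],[3,0],[1],[1,2]]⟩,
   ⟨(-2),20,[[0],[2],[7]],[6],[]⟩,
   ⟨(-2),13,[[1],[4],[3],[6]],[],[]⟩,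
   ⟨2,3,[[3,5],[3],[0,6]],[],[[2],[0]]⟩,
   ⟨(-2),3,[[5],[1,3],[6]],[],[]⟩,
   ⟨(-2),20,[[1,3],[5],[6]],[],[]⟩,
   ⟨(-5),3,[[7],[4],[1,3]],[],[]⟩,
   ⟨2,13,[[0],[6],[4],[3]],[],[]⟩,
   ⟨2,11,[[3,4],[4],[7]],[],[[1],[1]]⟩,
   ⟨4,12,[[1],[7],[3],[4]],[],[]⟩,
   ⟨(-4),3,[[5],[4,2,4],[7]],[6],[[1,3,0],[3,1,2]]⟩,
   ⟨2,20,[[3],[5],[6]],[],[]⟩,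
   ⟨9,11,[[2],[2,4,2],[6]],[6],[[3,1,2],[3,1,2]]⟩,
   ⟨4,9,[[4],[6],[2]],[],[]⟩,
   ⟨(-4),12,[[3],[4],[6],[5]],[],[[],[1],[],[],[],[3]]⟩,
   ⟨4,3,[[5],[5,7,2],[5]],[],[[0],[2]]⟩,
   ⟨4,9,[[4],[2],[7]],[],[]⟩,
   ⟨(-2),25,[[5],[3],[7],[1]],[],[]⟩,
   ⟨2,3,[[4,1,3],[4],[6]],[],[[2],[0]]⟩,
   ⟨(-2),4,[[1],[5,2],[6]],[],[[3,0]]⟩,
   ⟨2,13,[[0],[2],[5],[6]],[],[]⟩,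
   ⟨2,4,[[1],[4],[7]],[6],[[3,0]]⟩,
   ⟨(-2),4,[[3,0],[4],[6]],[],[[3,0]]⟩,
   ⟨(-2),3,[[7,5],[4],[3,0]],[],[[1,2],[3,0]]⟩,
   ⟨2,20,[[5],[0],[2,6]],[],[]⟩,
   ⟨(-2),12,[[0],[7],[5],[3]],[],[]⟩,
   ⟨(-2),13,[[4],[0],[2],[6]],[],[]⟩,
   ⟨2,3,[[1,2],[3],[5,6]],[],[[1,2],[3,0]]⟩,
   ⟨(-2),12,[[3],[7],[5],[1]],[],[]⟩,
   ⟨(-1),20,[[5],[2],[7]],[6],[]⟩,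
   ⟨(-2),3,[[0,7,2],[1],[5]],[],[[3],[1]]⟩,
   ⟨(-2),17,[[1],[3,6],[4],[1]],[],[[],[3,0],[1],[1,2]]⟩,
   ⟨(-2),16,[[4],[1],[7,2],[4]],[],[[],[3,0],[1],[1,2]]⟩,
   ⟨(-1),23,[[0],[6],[2],[5]],[],[]⟩,
   ⟨(-1),20,[[1,5],[2],[6]],[],[]⟩,
   ⟨(-1),3,[[3,7],[2],[1,4]],[],[[3],[1]]⟩,
   ⟨(-2),3,[[3,7],[2],[1,5]],[],[[3],[1]]⟩,
   ⟨1,3,[[6,3],[7],[1,4]],[],[[3],[1]]⟩,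
   ⟨(-1),13,[[2],[5],[1],[6]],[],[]⟩,
   ⟨1,3,[[0,4],[1],[3,6]],[],[[3],[1]]⟩,
   ⟨(-1),14,[[3],[7],[0],[4]],[],[]⟩,
   ⟨(-1),13,[[3],[6],[0],[5]],[],[]⟩,
   ⟨1,3,[[7],[6,0],[2,5]],[],[[1],[3]]⟩,
   ⟨(-1),24,[[4],[3],[6],[0]],[],[]⟩,
   ⟨1,23,[[0],[6],[5],[2]],[],[]⟩,
   ⟨1,4,[[6],[4],[0,2]],[],[[3,0]]⟩,
   ⟨1,12,[[2],[7],[5],[0]],[],[]⟩,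
   ⟨(-2),23,[[0],[6],[4],[2]],[],[]⟩,
   ⟨2,25,[[5],[0],[7],[3]],[],[]⟩,
   ⟨(-2),24,[[1],[5],[6],[2]],[],[]⟩,
   ⟨1,24,[[5],[2],[6],[0]],[],[]⟩,
   ⟨1,12,[[1],[7],[5],[2]],[],[]⟩,
   ⟨1,25,[[2],[5],[7],[1]],[],[]⟩,
   ⟨(-1),23,[[5],[6],[3],[1]],[],[]⟩]

def e27_14 : List En :=
  [⟨1,4,[[6],[2],[5,1]],[],[[3,0]]⟩,
   ⟨(-2),9,[[3],[1],[7]],[],[]⟩,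
   ⟨(-1),14,[[2],[7],[0],[5]],[],[]⟩,
   ⟨1,12,[[4],[7],[2],[1]],[],[]⟩,
   ⟨1,14,[[4],[7],[1],[2]],[],[]⟩,
   ⟨1,3,[[7],[7,2,1],[5]],[],[[0],[2]]⟩,
   ⟨1,3,[[7,3],[2],[1,5]],[],[[1,2],[3,0]]⟩,
   ⟨(-2),9,[[3],[6],[1]],[],[]⟩,
   ⟨2,12,[[0],[3],[6],[2]],[],[[],[1],[],[],[],[3]]⟩,
   ⟨(-2),3,[[2,7,1],[2],[2]],[],[[2],[0]]⟩,
   ⟨(-2),13,[[5],[3],[1],[6]],[],[]⟩,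
   ⟨2,3,[[2,1],[2],[4,6]],[],[[2],[0]]⟩,
   ⟨(-2),4,[[4],[1],[7]],[6],[[3,0]]⟩,
   ⟨(-1),15,[[3],[4,2],[0],[3]],[],[[0],[0,3,0],[1],[1,2]]⟩,
   ⟨(-1),20,[[4],[0],[3]],[2],[]⟩,
   ⟨(-1),0,[[1],[4],[2],[3]],[],[]⟩,
   ⟨(-1),18,[[3],[3],[5,0],[3]],[],[[1],[1,1],[1],[1,2]]⟩,
   ⟨(-1),20,[[4,0],[2],[6]],[],[]⟩,
   ⟨(-2),24,[[1],[4],[6],[2]],[],[]⟩,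
   ⟨2,23,[[2],[6],[1],[4]],[],[]⟩,
   ⟨2,12,[[5],[7],[1],[2]],[],[]⟩,
   ⟨2,14,[[0],[7],[5],[2]],[],[]⟩,
   ⟨2,12,[[0],[7],[3],[4]],[],[]⟩,
   ⟨(-2),12,[[3],[7],[0],[5]],[],[]⟩,
   ⟨(-2),12,[[5],[7],[0],[2]],[],[]⟩,
   ⟨(-2),3,[[4],[7,2,5],[0]],[],[[3,0],[1,2]]⟩,
   ⟨2,3,[[7,1],[7],[3,5]],[],[[2],[0]]⟩,
   ⟨(-2),3,[[5,7,2],[4],[0]],[],[[3],[1]]⟩,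
   ⟨(-2),3,[[6,4,3],[7],[1]],[],[[3],[1]]⟩,
   ⟨2,4,[[4],[1],[3,6]],[],[[3,0]]⟩,
   ⟨2,3,[[0,7,2],[1],[4]],[],[[3],[1]]⟩,
   ⟨1,13,[[4],[6],[0],[3]],[],[]⟩,
   ⟨1,4,[[5],[0],[2]],[3],[[3,0]]⟩,
   ⟨(-1),3,[[0,7],[0],[5,3]],[],[[2],[0]]⟩,
   ⟨(-1),20,[[5],[3],[6]],[],[]⟩,
   ⟨1,24,[[0],[4],[6],[3]],[],[]⟩,
   ⟨(-1),23,[[3],[6],[1],[4]],[],[]⟩,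
   ⟨1,12,[[2],[7],[0],[5]],[],[]⟩,
   ⟨1,3,[[7],[4,2],[0]],[],[]⟩,
   ⟨(-1),3,[[4,2,1],[0],[6]],[],[[1,2],[3,0]]⟩,
   ⟨1,3,[[5,7,3],[5],[0]],[],[[2],[0]]⟩,
   ⟨1,4,[[2,1],[4],[6]],[],[[3,0]]⟩,
   ⟨1,3,[[6],[5,7],[2,1]],[],[[3,0],[1,2]]⟩,
   ⟨1,17,[[5],[1,6],[3],[5]],[],[[],[3,0],[1],[1,2]]⟩,
   ⟨(-1),4,[[1],[3],[7]],[6],[[3,0]]⟩,
   ⟨(-1),13,[[0],[5],[3],[6]],[],[]⟩,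
   ⟨(-1),3,[[5],[0,2,4],[6]],[],[[3,0],[1,2]]⟩,
   ⟨1,13,[[4],[1],[2],[6]],[],[]⟩,
   ⟨(-1),3,[[2,0],[1],[5,6]],[],[[1,2],[3,0]]⟩,
   ⟨1,3,[[4,3],[0],[6]],[],[]⟩,
   ⟨(-1),3,[[0,3,4],[5],[6]],[],[[1,2],[3,0]]⟩,
   ⟨2,3,[[7],[7,1,3],[5]],[],[[0],[2]]⟩,
   ⟨(-2),12,[[2],[4],[0],[7]],[],[]⟩,
   ⟨2,3,[[5,7],[4],[0]],[],[[3],[1]]⟩,
   ⟨2,3,[[2,1,7],[3],[5]],[],[[3],[1]]⟩,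
   ⟨2,12,[[6],[1],[5],[3]],[],[]⟩,
   ⟨(-2),3,[[6,4,3],[7],[0]],[],[[3],[1]]⟩,
   ⟨(-2),11,[[7],[6,4,7],[0]],[0],[[2,1,2],[2,1,2]]⟩,
   ⟨2,3,[[2,4,3],[2],[0]],[],[[2,1,2],[0,3,0]]⟩,
   ⟨(-2),11,[[5],[3],[0]],[0],[]⟩]

def e27_15 : List En :=
  [⟨1,3,[[4,4,0],[4],[7]],[],[[2,2],[0,0]]⟩,
   ⟨1,9,[[0],[7],[4]],[],[]⟩,
   ⟨(-1),12,[[5],[0],[7],[1]],[],[[],[1],[],[],[],[3]]⟩,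
   ⟨1,11,[[7,5,7],[7],[1]],[1],[[1,3,0],[1,3,0]]⟩,
   ⟨(-1),11,[[2],[2,7,2],[3]],[],[[3,1,2],[3,1,2]]⟩,
   ⟨(-1),16,[[2],[2],[2,7],[2]],[],[[1],[1,1],[1],[3,1,2],[3]]⟩,
   ⟨1,19,[[2],[2],[7],[2]],[6],[[1],[1,1],[1],[1,2]]⟩]

def e27 : List En := e27_0 ++ e27_1 ++ e27_2 ++ e27_3 ++ e27_4 ++ e27_5 ++ e27_6 ++ e27_7 ++ e27_8 ++ e27_9 ++ e27_10 ++ e27_11 ++ e27_12 ++ e27_13 ++ e27_14 ++ e27_15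

theorem c27 : check l26 r27 [] e27 = true := by decide +kernel

variable {G A : Type*} [Group G] [AddCommGroup A] {k : G → G → G → G → A}

theorem v0 (h0 : Valid k r0) : ∀ s ∈ l0, Valid k s := by
  intro s hs
  rw [List.mem_singleton.1 hs]
  exact h0

theorem v1 (hk : Good k) (h0 : Valid k r0) : ∀ s ∈ l1, Valid k s :=
  step hk _ (v0 h0) _ _ _ c1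

theorem v2 (hk : Good k) (h0 : Valid k r0) : ∀ s ∈ l2, Valid k s :=
  step hk _ (v1 hk h0) _ _ _ c2

theorem v3 (hk : Good k) (h0 : Valid k r0) : ∀ s ∈ l3, Valid k s :=
  step hk _ (v2 hk h0) _ _ _ c3

theorem v4 (hk : Good k) (h0 : Valid k r0) : ∀ s ∈ l4, Valid k s :=
  step hk _ (v3 hk h0) _ _ _ c4

theorem v5 (hk : Good k) (h0 : Valid k r0) : ∀ s ∈ l5, Valid k s :=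
  step hk _ (v4 hk h0) _ _ _ c5

theorem v6 (hk : Good k) (h0 : Valid k r0) : ∀ s ∈ l6, Valid k s :=
  step hk _ (v5 hk h0) _ _ _ c6

theorem v7 (hk : Good k) (h0 : Valid k r0) : ∀ s ∈ l7, Valid k s :=
  step hk _ (v6 hk h0) _ _ _ c7

theorem v8 (hk : Good k) (h0 : Valid k r0) : ∀ s ∈ l8, Valid k s :=
  step hk _ (v7 hk h0) _ _ _ c8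

theorem v9 (hk : Good k) (h0 : Valid k r0) : ∀ s ∈ l9, Valid k s :=
  step hk _ (v8 hk h0) _ _ _ c9

theorem v10 (hk : Good k) (h0 : Valid k r0) : ∀ s ∈ l10, Valid k s :=
  step hk _ (v9 hk h0) _ _ _ c10

theorem v11 (hk : Good k) (h0 : Valid k r0) : ∀ s ∈ l11, Valid k s :=
  step hk _ (v10 hk h0) _ _ _ c11

theorem v12 (hk : Good k) (h0 : Valid k r0) : ∀ s ∈ l12, Valid k s :=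
  step hk _ (v11 hk h0) _ _ _ c12

theorem v13 (hk : Good k) (h0 : Valid k r0) : ∀ s ∈ l13, Valid k s :=
  step hk _ (v12 hk h0) _ _ _ c13

theorem v14 (hk : Good k) (h0 : Valid k r0) : ∀ s ∈ l14, Valid k s :=
  step hk _ (v13 hk h0) _ _ _ c14

theorem v15 (hk : Good k) (h0 : Valid k r0) : ∀ s ∈ l15, Valid k s :=
  step hk _ (v14 hk h0) _ _ _ c15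

theorem v16 (hk : Good k) (h0 : Valid k r0) : ∀ s ∈ l16, Valid k s :=
  step hk _ (v15 hk h0) _ _ _ c16

theorem v17 (hk : Good k) (h0 : Valid k r0) : ∀ s ∈ l17, Valid k s :=
  step hk _ (v16 hk h0) _ _ _ c17

theorem v18 (hk : Good k) (h0 : Valid k r0) : ∀ s ∈ l18, Valid k s :=
  step hk _ (v17 hk h0) _ _ _ c18

theorem v19 (hk : Good k) (h0 : Valid k r0) : ∀ s ∈ l19, Valid k s :=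
  step hk _ (v18 hk h0) _ _ _ c19

theorem v20 (hk : Good k) (h0 : Valid k r0) : ∀ s ∈ l20, Valid k s :=
  step hk _ (v19 hk h0) _ _ _ c20

theorem v21 (hk : Good k) (h0 : Valid k r0) : ∀ s ∈ l21, Valid k s :=
  step hk _ (v20 hk h0) _ _ _ c21

theorem v22 (hk : Good k) (h0 : Valid k r0) : ∀ s ∈ l22, Valid k s :=
  step hk _ (v21 hk h0) _ _ _ c22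

theorem v23 (hk : Good k) (h0 : Valid k r0) : ∀ s ∈ l23, Valid k s :=
  step hk _ (v22 hk h0) _ _ _ c23

theorem v24 (hk : Good k) (h0 : Valid k r0) : ∀ s ∈ l24, Valid k s :=
  step hk _ (v23 hk h0) _ _ _ c24

theorem v25 (hk : Good k) (h0 : Valid k r0) : ∀ s ∈ l25, Valid k s :=
  step hk _ (v24 hk h0) _ _ _ c25

theorem v26 (hk : Good k) (h0 : Valid k r0) : ∀ s ∈ l26, Valid k s :=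
  step hk _ (v25 hk h0) _ _ _ c26

theorem final (hk : Good k) (h0 : Valid k r0) : Valid k r27 :=
  check_sound hk _ (v26 hk h0) _ _ _ c27

end Pool.Agent.Lib.MP_ca1f03_al
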