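import Mathlib

/-! A checker for linear relations between the values of a function of four group elements. -/

namespace Pool.Agent.Lib.MP_ca1f03_al

abbrev Wd := List Nat

def fl (l : Nat) : Nat := if l % 2 = 0 then l + 1 else l - 1

def cns (l : Nat) : Wd → Wd
  | [] => [l]
  | m :: w => if fl l = m then w else l :: m :: w

def app : Wd → Wd → Wd
  | [], w => w
  | l :: u, w => cns l (app u w)

def winv : Wd → Wd → Wd
  | [], acc => acc
  | l :: u, acc => winv u (fl l :: acc)

def sub (s : List Wd) : Wd → Wd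
  | [] => []
  | l :: u => app (if l % 2 = 0 then s.getD (l / 2) [] else winv (s.getD (l / 2) []) []) (sub s u)

structure Tm where
  c : Int
  x : Wd
  z : Wd
  y : Wd
  g : Wd

def mv (k : Nat) (t : Tm) : Tm :=
  match k with
  | 0 => ⟨t.c, app t.x t.y, t.z, t.y, t.g⟩
  | 1 => ⟨t.c, app t.x (winv t.y []), t.z, t.y, t.g⟩
  | 2 => ⟨t.c, t.x, t.z, app t.x t.y, t.g⟩
  | _ => ⟨t.c, t.x, t.z, app (winv t.x []) t.y, t.g⟩

def mvs : List Nat → Tm → Tm
  | [], t => t
  | k :: ks, t => mvs ks (mv k t)

def mvAll : List (List Nat) → List Tm → List Tm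
  | m :: ms, t :: ts => mvs m t :: mvAll ms ts
  | _, ts => ts

def inst (m : Int) (s : List Wd) (r : Wd) : List Tm → List Tm
  | [] => []
  | t :: ts => ⟨m * t.c, sub s t.x, sub s t.z, sub s t.y, app (sub s t.g) r⟩ :: inst m s r ts

inductive Tr where
  | nil : Tr
  | nd : Tr → Nat → Tm → Tr → Tr

def hw : Wd → Nat → Nat
  | [], a => a * 11
  | l :: u, a => hw u (a * 11 + l + 1)

def key (t : Tm) : Nat := (hw t.x (hw t.z (hw t.y (hw t.g 1))) * 2654435761) % 4294967291

def ins (n : Nat) (t : Tm) : Tr → (Tr → Tr) → Tr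
  | .nil, c => c (.nd .nil n t .nil)
  | .nd l m u r, c =>
    bif Nat.ble n m then
      (bif Nat.ble m n && decide (t.z = u.z ∧ t.x = u.x ∧ t.y = u.y ∧ t.g = u.g) then
        c (.nd l m ⟨t.c + u.c, u.x, u.z, u.y, u.g⟩ r)
      else ins n t l (fun l' => c (.nd l' m u r)))
    else ins n t r (fun r' => c (.nd l m u r'))

def insN (t : Tm) (acc : Tr) (c : Tr → Tr) : Nat → Tr
  | 0 => ins 0 t acc c
  | n + 1 => ins n t acc c

def insAll : List Tm → Tr → (Tr → Tr) → Tr
  | [], acc, c => c acc
  | t :: ts, acc, c =>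
    if t.x = [] ∨ t.z = [] ∨ t.y = [] then insAll ts acc c
    else insN t acc (fun a => insAll ts a c) (key t)

def allZ : Tr → Bool
  | .nil => true
  | .nd l _ u r => decide (u.c = 0) && (allZ l && allZ r)

structure En where
  m : Int
  i : Nat
  s : List Wd
  r : Wd
  ms : List (List Nat)

def runC (L : List (List Tm)) : List En → Tr → Tr
  | [], acc => acc
  | e :: es, acc => insAll (mvAll e.ms (inst e.m e.s e.r (L.getD e.i []))) acc (runC L es)

def neg : List Tm → List Tm
  | [] => []
  | t :: ts => ⟨-t.c, t.x, t.z, t.y, t.g⟩ :: neg ts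

def check (L : List (List Tm)) (tg : List Tm) (ms : List (List Nat)) (es : List En) : Bool :=
  allZ (insAll (mvAll ms (neg tg)) .nil (runC L es))

section sound

variable {G A : Type*} [Group G] [AddCommGroup A]

def lv (v : Nat → G) (l : Nat) : G := if l % 2 = 0 then v (l / 2) else (v (l / 2))⁻¹

def ev (v : Nat → G) : Wd → G
  | [] => 1
  | l :: u => lv v l * ev v u

lemma lv_fl (v : Nat → G) (l : Nat) : lv v (fl l) = (lv v l)⁻¹ := by
  unfold lv fl
  by_cases h : l % 2 = 0
  · have h1 : ¬ (l + 1) % 2 = 0 := by omega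
    have h2 : (l + 1) / 2 = l / 2 := by omega
    simp [h, h1, h2]
  · have h1 : (l - 1) % 2 = 0 := by omega
    have h2 : (l - 1) / 2 = l / 2 := by omega
    simp [h, h1, h2]

lemma ev_cns (v : Nat → G) (l : Nat) (w : Wd) : ev v (cns l w) = lv v l * ev v w := by
  cases w with
  | nil => rfl
  | cons m w =>
    simp only [cns]
    split_ifs with h
    · subst h; simp [ev, lv_fl]
    · rfl

lemma ev_app (v : Nat → G) (u w : Wd) : ev v (app u w) = ev v u * ev v w := by
  induction u with
  | nil => simp [app, ev]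
  | cons l u ih => simp [app, ev, ev_cns, ih, mul_assoc]

lemma ev_winv (v : Nat → G) (u acc : Wd) : ev v (winv u acc) = (ev v u)⁻¹ * ev v acc := by
  induction u generalizing acc with
  | nil => simp [winv, ev]
  | cons l u ih => simp [winv, ev, ih, lv_fl, mul_assoc]

lemma ev_sub (v : Nat → G) (s : List Wd) (w : Wd) :
    ev v (sub s w) = ev (fun i => ev v (s.getD i [])) w := by
  induction w with
  | nil => rfl
  | cons l u ih =>
    simp only [sub, ev_app, ih, ev, lv]
    split_ifs
    · rfl
    · simp [ev_winv, ev]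

variable (k : G → G → G → G → A)

def vl (v : Nat → G) (h : G) (t : Tm) : A := t.c • k (ev v t.x) (ev v t.z) (ev v t.y) (ev v t.g * h)

def sm (v : Nat → G) (h : G) : List Tm → A
  | [] => 0
  | t :: ts => vl k v h t + sm v h ts

def Valid (s : List Tm) : Prop := ∀ v h, sm k v h s = 0

structure Good : Prop where
  n1 : ∀ x z y g, k (x * y) z y g = k x z y g
  n2 : ∀ x z y g, k x z (x * y) g = k x z y g
  zx : ∀ z y g, k 1 z y g = 0
  zz : ∀ x y g, k x 1 y g = 0
  zy : ∀ x z g, k x z 1 g = 0

variable {k}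

lemma vl_mv (hk : Good k) (v : Nat → G) (h : G) (j : Nat) (t : Tm) :
    vl k v h (mv j t) = vl k v h t := by
  unfold mv
  split
  · simp [vl, ev_app, hk.n1]
  · have := hk.n1 (ev v t.x * (ev v t.y)⁻¹) (ev v t.z) (ev v t.y) (ev v t.g * h)
    simp only [inv_mul_cancel_right] at this
    simp [vl, ev_app, ev_winv, ev, this]
  · simp [vl, ev_app, hk.n2]
  · have := hk.n2 (ev v t.x) (ev v t.z) ((ev v t.x)⁻¹ * ev v t.y) (ev v t.g * h)
    simp only [mul_inv_cancel_left] at this
    simp [vl, ev_app, ev_winv, ev, this]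

lemma vl_mvs (hk : Good k) (v : Nat → G) (h : G) (js : List Nat) (t : Tm) :
    vl k v h (mvs js t) = vl k v h t := by
  induction js generalizing t with
  | nil => rfl
  | cons j js ih => simp [mvs, ih, vl_mv hk]

lemma sm_mvAll (hk : Good k) (v : Nat → G) (h : G) (ms : List (List Nat)) (ts : List Tm) :
    sm k v h (mvAll ms ts) = sm k v h ts := by
  induction ts generalizing ms with
  | nil => cases ms <;> rfl
  | cons t ts ih =>
    cases ms with
    | nil => rfl
    | cons m ms => simp [mvAll, sm, ih, vl_mvs hk]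

lemma sm_inst (v : Nat → G) (h : G) (m : Int) (s : List Wd) (r : Wd) (ts : List Tm) :
    sm k v h (inst m s r ts) = m • sm k (fun i => ev v (s.getD i [])) (ev v r * h) ts := by
  induction ts with
  | nil => simp [inst, sm]
  | cons t ts ih => simp [inst, sm, ih, vl, ev_sub, ev_app, mul_assoc, mul_smul]

def st (k : G → G → G → G → A) (v : Nat → G) (h : G) : Tr → A
  | .nil => 0
  | .nd l _ u r => st k v h l + vl k v h u + st k v h r

lemma st_ins (v : Nat → G) (h : G) (n : Nat) (t : Tm) (acc : Tr) (c : Tr → Tr) :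
    ∃ a, ins n t acc c = c a ∧ st k v h a = vl k v h t + st k v h acc := by
  induction acc generalizing c with
  | nil => exact ⟨_, rfl, by simp [st]⟩
  | nd l m u r ihl ihr =>
    unfold ins
    cases h1 : Nat.ble n m with
    | false =>
      obtain ⟨a, e1, e2⟩ := ihr (fun r' => c (.nd l m u r'))
      exact ⟨_, e1, by simp only [st, e2]; abel⟩
    | true =>
      cases h2 : (Nat.ble m n && decide (t.z = u.z ∧ t.x = u.x ∧ t.y = u.y ∧ t.g = u.g)) with
      | false =>
        obtain ⟨a, e1, e2⟩ := ihl (fun l' => c (.nd l' m u r))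
        exact ⟨_, e1, by simp only [st, e2]; abel⟩
      | true =>
        refine ⟨_, rfl, ?_⟩
        rw [Bool.and_eq_true, decide_eq_true_iff] at h2
        obtain ⟨-, a, b, c, d⟩ := h2
        simp only [st, vl, a, b, c, d, add_smul]; abel

lemma st_insAll (hk : Good k) (v : Nat → G) (h : G) (ts : List Tm) (acc : Tr) (c : Tr → Tr) :
    ∃ a, insAll ts acc c = c a ∧ st k v h a = sm k v h ts + st k v h acc := by
  induction ts generalizing acc with
  | nil => exact ⟨_, rfl, by simp [sm]⟩
  | cons t ts ih =>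
    unfold insAll
    split_ifs with h1
    · have : vl k v h t = 0 := by
        rcases h1 with h1 | h1 | h1 <;> simp [vl, h1, ev, hk.zx, hk.zz, hk.zy]
      obtain ⟨a, e1, e2⟩ := ih acc
      exact ⟨a, e1, by simp [sm, this, e2]⟩
    · have : ∃ n, insN t acc (fun a => insAll ts a c) (key t)
          = ins n t acc (fun a => insAll ts a c) := by
        cases key t with
        | zero => exact ⟨0, rfl⟩
        | succ n => exact ⟨n, rfl⟩
      obtain ⟨n, hn⟩ := this
      obtain ⟨a, e1, e2⟩ := st_ins (k := k) v h n t acc (fun a => insAll ts a c)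
      obtain ⟨b, e3, e4⟩ := ih a
      refine ⟨b, by rw [hn, e1, e3], ?_⟩
      simp only [sm, e4, e2]; abel

lemma st_allZ (v : Nat → G) (h : G) (a : Tr) (ha : allZ a = true) : st k v h a = 0 := by
  induction a with
  | nil => rfl
  | nd l m u r ihl ihr =>
    simp only [allZ, Bool.and_eq_true, decide_eq_true_iff] at ha
    simp [st, vl, ha.1, ihl ha.2.1, ihr ha.2.2]

lemma sm_neg (v : Nat → G) (h : G) (ts : List Tm) : sm k v h (neg ts) = - sm k v h ts := by
  induction ts with
  | nil => simp [neg, sm]
  | cons t ts ih => simp only [neg, sm, ih, vl, neg_smul]; abel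

lemma st_runC (hk : Good k) (L : List (List Tm)) (hL : ∀ s ∈ L, Valid k s) (v : Nat → G) (h : G)
    (es : List En) (acc : Tr) : st k v h (runC L es acc) = st k v h acc := by
  induction es generalizing acc with
  | nil => rfl
  | cons e es ih =>
    have hv : Valid k (L.getD e.i []) := by
      rw [List.getD_eq_getElem?_getD]
      cases hi : L[e.i]? with
      | none => intro v h; rfl
      | some s => exact hL s (List.mem_of_getElem? hi)
    obtain ⟨a, e1, e2⟩ := st_insAll hk v h (mvAll e.ms (inst e.m e.s e.r (L.getD e.i []))) acc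
      (runC L es)
    simp only [runC, e1, ih, e2, sm_mvAll hk, sm_inst, hv _ _, smul_zero, zero_add]

theorem check_sound (hk : Good k) (L : List (List Tm)) (hL : ∀ s ∈ L, Valid k s) (tg : List Tm)
    (ms : List (List Nat)) (es : List En) (hc : check L tg ms es = true) : Valid k tg := by
  intro v h
  obtain ⟨a, e1, e2⟩ := st_insAll hk v h (mvAll ms (neg tg)) .nil (runC L es)
  have h1 := st_runC hk L hL v h es a
  unfold check at hc
  rw [← e1, st_allZ v h _ hc, e2, sm_mvAll hk, sm_neg] at h1
  simpa [st] using h1.symm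

theorem step (hk : Good k) (L : List (List Tm)) (hL : ∀ s ∈ L, Valid k s) (tg : List Tm)
    (ms : List (List Nat)) (es : List En) (hc : check L tg ms es = true) :
    ∀ s ∈ L ++ [tg], Valid k s := by
  intro s hs
  rcases List.mem_append.1 hs with hs | hs
  · exact hL s hs
  · rw [List.mem_singleton.1 hs]; exact check_sound hk L hL tg ms es hc

end sound

end Pool.Agent.Lib.MP_ca1f03_al
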