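import Pool.Agent.Lib.MP_ca1f03_al.Cert

/-! Loops with a homomorphism onto a group whose kernel is nuclear. -/

namespace Pool.Agent.Lib.MP_ca1f03_al

structure Setup (Q G : Type*) [Mul Q] [One Q] [Group G] where
  ld : Q → Q → Q
  rd : Q → Q → Q
  one_mul : ∀ x : Q, 1 * x = x
  mul_one : ∀ x : Q, x * 1 = x
  mul_ld : ∀ a y : Q, a * ld a y = y
  ld_mul : ∀ a y : Q, ld a (a * y) = y
  rd_mul : ∀ y a : Q, rd y a * a = y
  mul_rd : ∀ y a : Q, rd (y * a) a = y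
  p : Q → G
  p_mul : ∀ x y, p (x * y) = p x * p y
  n1 : ∀ n, p n = 1 → ∀ x y, (n * x) * y = n * (x * y)
  n2 : ∀ n, p n = 1 → ∀ x y, (x * n) * y = x * (n * y)
  n3 : ∀ n, p n = 1 → ∀ x y, (x * y) * n = x * (y * n)
  s : G → Q
  p_s : ∀ g, p (s g) = g

namespace Setup

variable {Q G : Type*} [Mul Q] [One Q] [Group G] (S : Setup Q G)
include S

lemma lc {a x y : Q} (h : a * x = a * y) : x = y := by
  rw [← S.ld_mul a x, h, S.ld_mul]

lemma rc {a x y : Q} (h : x * a = y * a) : x = y := by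
  rw [← S.mul_rd x a, h, S.mul_rd]

lemma p_one : S.p 1 = 1 := by
  have := S.p_mul 1 1
  rw [S.one_mul] at this
  exact (mul_eq_left.1 this.symm)

lemma p_ld (a y : Q) : S.p (S.ld a y) = (S.p a)⁻¹ * S.p y := by
  have := S.p_mul a (S.ld a y)
  rw [S.mul_ld] at this
  rw [this]; simp

lemma p_rd (y a : Q) : S.p (S.rd y a) = S.p y * (S.p a)⁻¹ := by
  have := S.p_mul (S.rd y a) a
  rw [S.rd_mul] at this
  rw [this]; simp

/-- the associator -/
def as (x y z : Q) : Q := S.ld (x * (y * z)) ((x * y) * z)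

lemma as_spec (x y z : Q) : (x * y) * z = (x * (y * z)) * S.as x y z := (S.mul_ld _ _).symm

lemma as_eq {x y z n : Q} (h : (x * y) * z = (x * (y * z)) * n) : S.as x y z = n :=
  S.lc ((S.as_spec x y z).symm.trans h)

lemma p_as (x y z : Q) : S.p (S.as x y z) = 1 := by
  simp [as, p_ld, S.p_mul, mul_assoc]

/-- conjugation -/
def cj (n q : Q) : Q := S.ld q (n * q)

lemma cj_spec (n q : Q) : n * q = q * S.cj n q := (S.mul_ld _ _).symm

lemma p_cj {n : Q} (hn : S.p n = 1) (q : Q) : S.p (S.cj n q) = 1 := by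
  simp [cj, p_ld, S.p_mul, hn]

lemma cj_mul {n m : Q} (hn : S.p n = 1) (hm : S.p m = 1) (q : Q) :
    S.cj (n * m) q = S.cj n q * S.cj m q := by
  apply S.lc (a := q)
  rw [← S.cj_spec, S.n1 n hn, S.cj_spec m q, ← S.n1 n hn, S.cj_spec n q, S.n3 _ (S.p_cj hm q)]

lemma cj_cj {n : Q} (hn : S.p n = 1) (q r : Q) : S.cj n (q * r) = S.cj (S.cj n q) r := by
  apply S.lc (a := q * r)
  rw [← S.cj_spec, ← S.n1 n hn, S.cj_spec n q, S.n2 _ (S.p_cj hn q), S.cj_spec (S.cj n q) r,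
    S.n3 _ (S.p_cj (S.p_cj hn q) r)]

lemma cj_surj {m : Q} (hm : S.p m = 1) (q : Q) : ∃ n, S.p n = 1 ∧ S.cj n q = m := by
  refine ⟨S.rd (q * m) q, by simp [p_rd, S.p_mul, hm], ?_⟩
  apply S.lc (a := q)
  rw [← S.cj_spec, S.rd_mul]

lemma as_l1 {n : Q} (hn : S.p n = 1) (x y z : Q) : S.as (n * x) y z = S.as x y z := by
  apply S.as_eq
  rw [S.n1 n hn, S.n1 n hn, S.n1 n hn, S.n1 n hn, ← S.as_spec]

lemma as_r1 {n : Q} (hn : S.p n = 1) (x y z : Q) : S.as (x * n) y z = S.as x y z := by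
  obtain ⟨m, hm, e⟩ := S.cj_surj hn x
  rw [← e, ← S.cj_spec, S.as_l1 hm]

lemma as_l2 {n : Q} (hn : S.p n = 1) (x y z : Q) : S.as x (n * y) z = S.as x y z := by
  rw [← S.as_r1 hn x y z]
  apply S.as_eq
  rw [← S.n2 n hn, S.n1 n hn, ← S.n2 n hn, ← S.as_spec]

lemma as_r2 {n : Q} (hn : S.p n = 1) (x y z : Q) : S.as x (y * n) z = S.as x y z := by
  obtain ⟨m, hm, e⟩ := S.cj_surj hn y
  rw [← e, ← S.cj_spec, S.as_l2 hm]

lemma as_l3 {n : Q} (hn : S.p n = 1) (x y z : Q) : S.as x y (n * z) = S.as x y z := by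
  rw [← S.as_r2 hn x y z]
  apply S.as_eq
  rw [← S.n2 n hn, S.n3 n hn, ← S.n2 n hn, ← S.as_spec]

lemma as_r3 {n : Q} (hn : S.p n = 1) (x y z : Q) : S.as x y (z * n) = S.as x y z := by
  obtain ⟨m, hm, e⟩ := S.cj_surj hn z
  rw [← e, ← S.cj_spec, S.as_l3 hm]

lemma as_comm {n : Q} (hn : S.p n = 1) (x y z : Q) : S.as x y z * n = n * S.as x y z := by
  have h := S.as_spec x y (z * n)
  rw [S.as_r3 hn, ← S.n3 n hn, S.as_spec x y z, ← S.n3 n hn, ← S.n3 n hn, S.n3 n hn (x * (y * z)),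
    S.n2 n hn] at h
  exact S.lc h

lemma coset {x y : Q} (h : S.p x = S.p y) : ∃ n, S.p n = 1 ∧ y = x * n :=
  ⟨S.ld x y, by simp [p_ld, h], (S.mul_ld _ _).symm⟩

lemma as_congr {x y z x' y' z' : Q} (hx : S.p x = S.p x') (hy : S.p y = S.p y')
    (hz : S.p z = S.p z') : S.as x y z = S.as x' y' z' := by
  obtain ⟨a, ha, rfl⟩ := S.coset hx
  obtain ⟨b, hb, rfl⟩ := S.coset hy
  obtain ⟨c, hc, rfl⟩ := S.coset hz
  rw [S.as_r1 ha, S.as_r2 hb, S.as_r3 hc]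

/-- the centre of the kernel -/
def A : Type _ := {n : Q // S.p n = 1 ∧ ∀ m, S.p m = 1 → n * m = m * n}

instance : Add S.A := ⟨fun n m => ⟨n.1 * m.1, by simp [S.p_mul, n.2.1, m.2.1], fun k hk => by
  rw [S.n1 _ n.2.1, m.2.2 k hk, ← S.n1 _ n.2.1, n.2.2 k hk, S.n1 _ hk]⟩⟩

instance : Zero S.A := ⟨⟨1, S.p_one, fun k _ => by rw [S.one_mul, S.mul_one]⟩⟩

instance : Neg S.A := ⟨fun n => ⟨S.ld n.1 1, by simp [p_ld, n.2.1, p_one], fun k hk => by
  apply S.lc (a := n.1)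
  rw [← S.n1 _ n.2.1, S.mul_ld, S.one_mul, ← S.n1 _ n.2.1, n.2.2 k hk, S.n1 _ hk, S.mul_ld,
    S.mul_one]⟩⟩

lemma add_val (n m : S.A) : (n + m).1 = n.1 * m.1 := rfl
lemma zero_val : (0 : S.A).1 = 1 := rfl

instance : AddCommGroup S.A :=
  { AddGroup.ofLeftAxioms (G := S.A)
      (fun a b c => Subtype.ext (S.n1 _ a.2.1 _ _))
      (fun a => Subtype.ext (S.one_mul _))
      (fun a => Subtype.ext (by
        show S.ld a.1 1 * a.1 = 1
        rw [← a.2.2 _ (by simp [p_ld, a.2.1, p_one]), S.mul_ld])) with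
    add_comm := fun a b => Subtype.ext (a.2.2 _ b.2.1) }

/-- the action of the loop on the centre of the kernel -/
def ac (q : Q) : S.A →+ S.A :=
  AddMonoidHom.mk' (fun n => ⟨S.cj n.1 q, S.p_cj n.2.1 q, fun k hk => by
    obtain ⟨m, hm, rfl⟩ := S.cj_surj hk q
    rw [← S.cj_mul n.2.1 hm, ← S.cj_mul hm n.2.1, n.2.2 m hm]⟩)
    (fun a b => Subtype.ext (S.cj_mul a.2.1 b.2.1 q))

lemma ac_val (q : Q) (n : S.A) : (S.ac q n).1 = S.cj n.1 q := rfl

lemma ac_ac (q r : Q) (n : S.A) : S.ac r (S.ac q n) = S.ac (q * r) n :=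
  Subtype.ext (S.cj_cj n.2.1 q r).symm

lemma ac_ker {q : Q} (hq : S.p q = 1) (n : S.A) : S.ac q n = n := by
  apply Subtype.ext
  apply S.lc (a := q)
  rw [ac_val, ← S.cj_spec, n.2.2 q hq]

lemma ac_congr {q r : Q} (h : S.p q = S.p r) (n : S.A) : S.ac q n = S.ac r n := by
  obtain ⟨a, ha, rfl⟩ := S.coset h
  rw [← ac_ac, S.ac_ker ha]

/-- the associator as an element of the centre of the kernel -/
def al (x y z : Q) : S.A := ⟨S.as x y z, S.p_as x y z, fun _ hm => S.as_comm hm x y z⟩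

lemma al_spec (x y z : Q) : (x * y) * z = (x * (y * z)) * (S.al x y z).1 := S.as_spec x y z

lemma al_congr {x y z x' y' z' : Q} (hx : S.p x = S.p x') (hy : S.p y = S.p y')
    (hz : S.p z = S.p z') : S.al x y z = S.al x' y' z' := Subtype.ext (S.as_congr hx hy hz)

lemma mv_r (x y : Q) (n : S.A) : (x * n.1) * y = (x * y) * (S.ac y n).1 := by
  rw [S.n2 _ n.2.1, S.cj_spec n.1 y, S.n3 _ (S.ac y n).2.1, ac_val]

lemma mv_l (x y : Q) (n : S.A) : x * (y * n.1) = (x * y) * n.1 := (S.n3 _ n.2.1 x y).symm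

lemma mv_a (x : Q) (n m : S.A) : (x * n.1) * m.1 = x * (n + m).1 := S.n3 _ m.2.1 _ _

lemma canc {x : Q} {n m : S.A} (h : x * n.1 = x * m.1) : n = m := Subtype.ext (S.lc h)

lemma cocycle (a b c d : Q) :
    S.al b c d + S.al a (b * c) d + S.ac d (S.al a b c) = S.al a b (c * d) + S.al (a * b) c d := by
  apply S.canc (x := a * (b * (c * d)))
  have e1 : ((a * b) * c) * d = a * (b * (c * d)) *
      (S.al b c d + S.al a (b * c) d + S.ac d (S.al a b c)).1 := by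
    rw [S.al_spec a b c, mv_r, S.al_spec a (b * c) d, S.al_spec b c d, mv_l, mv_a, mv_a, add_assoc]
  have e2 : ((a * b) * c) * d = a * (b * (c * d)) * (S.al a b (c * d) + S.al (a * b) c d).1 := by
    rw [S.al_spec (a * b) c d, S.al_spec a b (c * d), mv_a]
  exact e1.symm.trans e2

/-- the normalised associator -/
def kp (x z y g : G) : S.A := S.ac (S.s (y⁻¹ * g)) (S.al (S.s x) (S.s z) (S.s y))

lemma kp_eq (x z y g : Q) :
    S.kp (S.p x) (S.p z) (S.p y) (S.p y * S.p g) = S.ac g (S.al x z y) := by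
  unfold kp
  rw [S.al_congr (S.p_s _) (S.p_s _) (S.p_s _), S.ac_congr (r := g) (by simp [S.p_s])]

lemma valid0 : Valid S.kp r0 := by
  intro v h
  have e := congrArg (S.ac (S.s ((v 3)⁻¹ * h)))
    (S.cocycle (S.s (v 0)) (S.s (v 1)) (S.s (v 2)) (S.s (v 3)))
  simp only [map_add, ac_ac] at e
  simp only [← kp_eq, S.p_mul, S.p_s] at e
  simp only [mul_assoc, mul_inv_cancel_left] at e
  simp only [r0, sm, vl, ev, lv]
  norm_num
  rw [← sub_eq_zero] at e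
  rw [← e]
  abel

lemma al_x (y z : Q) : S.al 1 y z = 0 := Subtype.ext (S.as_eq (by simp [S.one_mul, S.mul_one, zero_val]))
lemma al_y (x z : Q) : S.al x 1 z = 0 := Subtype.ext (S.as_eq (by simp [S.one_mul, S.mul_one, zero_val]))
lemma al_z (x y : Q) : S.al x y 1 = 0 := Subtype.ext (S.as_eq (by simp [S.mul_one, zero_val]))

lemma kp_act (x z y g : G) : S.kp x z y g = S.ac (S.s g) (S.kp x z y 1) := by
  unfold kp
  rw [ac_ac]
  exact S.ac_congr (by simp [S.p_mul, S.p_s]) _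

lemma ac_kp (x z y : Q) : S.ac y (S.kp (S.p x) (S.p z) (S.p y) 1) = S.al x z y := by
  unfold kp
  rw [ac_ac, S.ac_ker (by simp [S.p_mul, S.p_s]), S.al_congr (S.p_s _) (S.p_s _) (S.p_s _)]

lemma ac_inj (q : Q) {n m : S.A} (h : S.ac q n = S.ac q m) : n = m := by
  have := congrArg (S.ac (S.s (S.p q)⁻¹)) h
  rwa [ac_ac, ac_ac, S.ac_ker (by simp [S.p_mul, S.p_s]), S.ac_ker (by simp [S.p_mul, S.p_s])]
    at this

lemma kp_x (z y g : G) : S.kp 1 z y g = 0 := by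
  unfold kp
  rw [S.al_congr (x' := 1) (by rw [S.p_s, S.p_one]) rfl rfl, al_x, map_zero]

lemma kp_z (x y g : G) : S.kp x 1 y g = 0 := by
  unfold kp
  rw [S.al_congr (y' := 1) rfl (by rw [S.p_s, S.p_one]) rfl, al_y, map_zero]

lemma kp_y (x z g : G) : S.kp x z 1 g = 0 := by
  unfold kp
  rw [S.al_congr (z' := 1) rfl rfl (by rw [S.p_s, S.p_one]), al_z, map_zero]

/-- flexibility of the isotope at one pair of points, in terms of associators -/
lemma flex_iff (a b u v t : Q) (h : u * a = b * v) :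
    (S.rd (u * a) a * S.ld b (S.rd ((b * t) * a) a * S.ld b (u * a)) =
      S.rd (S.rd (u * a) a * S.ld b ((b * t) * a)) a * S.ld b (u * a)) ↔
    S.kp (S.p b) (S.p t) (S.p v) 1 = S.kp (S.p u) (S.p t) (S.p v) 1 +
      (S.kp (S.p b) (S.p t) (S.p a) 1 - S.kp (S.p u) (S.p t) (S.p a) 1) := by
  set c := S.kp (S.p b) (S.p t) (S.p a) 1 - S.kp (S.p u) (S.p t) (S.p a) 1 with hc
  have e0 : S.ld b (u * a) = v := by rw [h, S.ld_mul]
  have e1 : ∀ w, S.ld b ((b * t) * w) = (t * w) * (S.al b t w).1 := fun w => by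
    rw [S.al_spec, ← mv_l, S.ld_mul]
  have e2 : u * ((t * a) * (S.al b t a).1) = ((u * t) * c.1) * a := by
    rw [mv_l, mv_r, S.al_spec u t a, mv_a, hc, map_sub, ac_kp, ac_kp, add_sub_cancel]
  rw [S.mul_rd, S.mul_rd, e0, e1, e1, e2, S.mul_rd, mv_l, mv_r, S.al_spec u t v, mv_a,
    ← S.ac_kp b t v, ← S.ac_kp u t v, ← map_add]
  exact ⟨fun e => S.ac_inj v (S.canc e), fun e => by rw [e]⟩

lemma good
    (hl : ∀ b x y : Q, S.rd x 1 * S.ld b (S.rd y 1 * S.ld b x) =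
      S.rd (S.rd x 1 * S.ld b y) 1 * S.ld b x)
    (hr : ∀ a x y : Q, S.rd x a * S.ld 1 (S.rd y a * S.ld 1 x) =
      S.rd (S.rd x a * S.ld 1 y) a * S.ld 1 x) : Good S.kp where
  n1 := fun x z y g => by
    have := (S.flex_iff 1 (S.s x) (S.s x * S.s y) (S.s y) (S.s z) (S.mul_one _)).1 (hl _ _ _)
    simp only [S.p_mul, S.p_s, S.p_one, kp_y, sub_self, add_zero] at this
    rw [kp_act, ← this, ← kp_act]
  n2 := fun x z y g => by
    have := (S.flex_iff (S.s y) 1 (S.s x) (S.s x * S.s y) (S.s z) (S.one_mul _).symm).1 (hr _ _ _)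
    simp only [S.p_mul, S.p_s, S.p_one, kp_x, zero_sub] at this
    rw [kp_act, add_neg_eq_zero.1 this.symm, ← kp_act]
  zx := S.kp_x
  zz := S.kp_z
  zy := S.kp_y

theorem uf
    (hl : ∀ b x y : Q, S.rd x 1 * S.ld b (S.rd y 1 * S.ld b x) =
      S.rd (S.rd x 1 * S.ld b y) 1 * S.ld b x)
    (hr : ∀ a x y : Q, S.rd x a * S.ld 1 (S.rd y a * S.ld 1 x) =
      S.rd (S.rd x a * S.ld 1 y) a * S.ld 1 x) (a b x y : Q) :
    S.rd x a * S.ld b (S.rd y a * S.ld b x) = S.rd (S.rd x a * S.ld b y) a * S.ld b x := by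
  have hk := S.good hl hr
  obtain ⟨u, rfl⟩ : ∃ u, x = u * a := ⟨_, (S.rd_mul x a).symm⟩
  obtain ⟨t, rfl⟩ : ∃ t, y = (b * t) * a :=
    ⟨S.ld b (S.rd y a), by rw [S.mul_ld, S.rd_mul]⟩
  rw [S.flex_iff a b u (S.ld b (u * a)) t (S.mul_ld _ _).symm]
  have e := final hk S.valid0
    (fun i => if i = 0 then S.p u else if i = 1 then S.p b else if i = 2 then S.p u * S.p a
      else S.p t) 1
  simp only [r27, sm, vl, ev, lv] at e
  norm_num at e
  have e1 := hk.n2 (S.p b) (S.p t) ((S.p b)⁻¹ * (S.p u * S.p a)) 1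
  rw [mul_inv_cancel_left] at e1
  rw [hk.n2, e1] at e
  rw [p_ld, S.p_mul, ← sub_eq_zero, ← neg_eq_zero, ← e]
  abel

end Setup

end Pool.Agent.Lib.MP_ca1f03_al
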